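import Pool.Agent.K1H60.SK.Cong

/-! Central elements at `q = 1`. -/

set_option autoImplicit false

namespace Pool.Agent.K1H60.SK

section
variable {m : ℕ} {v : ℂ}

/-- a crossing change costs a scalar -/
def CC (m : ℕ) (v : ℂ) (a s : Strand) : Prop :=
  ∃ c : ℂ, c ≠ 0 ∧ LE m v [.str a, .str s] [.str s, .str a] c
    [⟨[], .cross true (.str a) (.str s), []⟩] [⟨[], .cross false (.str a) (.str s), []⟩]

lemma cc11 (hv : v ^ 3 = 1) : CC m v (.up .one) (.up .one) := by
  have hv0 : v ≠ 0 := by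
    rintro rfl; norm_num at hv
  refine ⟨v, hv0, ?_, ?_, ?_⟩
  · simp [IsDiag, Gen.src, Gen.tgt, Gen.Ok]
  · simp [IsDiag, Gen.src, Gen.tgt, Gen.Ok]
  intro l r u t hu ht
  have h1 := loc_eq (m := m) (v := v) Loc.cross11 u t l r hu ht
  have h2 := loc_eq (m := m) (v := v) Loc.cross11' u t l r hu ht
  simp only [List.map_cons, List.map_nil, List.sum_cons, List.sum_nil, add_zero, one_smul] at h1 h2
  rw [h1, h2, smul_add, smul_smul, smul_smul]
  have e1 : v * (v ^ 2)⁻¹ = v ^ 2 := by
    field_simp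
    linear_combination -hv
  have e2 : v * -v = - v⁻¹ := by
    field_simp
    linear_combination -hv
  rw [e1, e2]

lemma cc12 (hv : v ^ 3 = 1) : CC m v (.up .one) (.up .two) := by
  obtain ⟨c, hc, h⟩ := cc11 (m := m) hv
  have hb : LE m v [u2] [u2] 2 [⟨[], .split, []⟩, ⟨[], .merge, []⟩] [] := by
    have := LE.of_loc (m := m) (v := v) Loc.bigon
    rw [hv] at this
    norm_num at this
    exact this
  have ds : IsDiag [u1, u2] [⟨[u1], .split, []⟩] [u1, u1, u1] := by
    simp [IsDiag, Gen.src, Gen.tgt, Gen.Ok]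
  have dm : IsDiag [u1, u1, u1] [⟨[], .merge, [u1]⟩] [u2, u1] := by
    simp [IsDiag, Gen.src, Gen.tgt, Gen.Ok]
  have dx : ∀ b, IsDiag [u1, u2] [⟨[], .cross b u1 u2, []⟩] [u2, u1] := by
    intro b
    simp [IsDiag, Gen.src, Gen.tgt, Gen.Ok]
  have key : ∀ b : Bool, LE m v [u1, u2] [u2, u1] 2 ([⟨[u1], .split, []⟩] ++
      go (fun _ => b) u1 [u1, u1] ++ [⟨[], .merge, [u1]⟩]) [⟨[], .cross b u1 u2, []⟩] := by
    intro b
    have h1 : EQ m v [u1, u1, u1] [u2, u1] (go (fun _ => b) u1 [u1, u1] ++ [⟨[], .merge, [u1]⟩])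
        (⟨[u1], .merge, []⟩ :: go (fun _ => b) u1 [u2]) :=
      LE.of_loc (Loc.slide b u1 .merge ⟨trivial, fun y _ => Or.inl ⟨_, rfl⟩⟩)
    have h2 := EQ.al ds h1
    have h3 := (hb.ctx [u1] []).append (LE.refl (m := m) (v := v) (dx b))
    have h4 := h2.trans h3
    exact h4.cast rfl rfl (by simp) (by simp [ctx_nil]) (by ring)
  refine ⟨c * c, mul_ne_zero hc hc, ?_⟩
  have hgo : LE m v [u1, u1, u1] [u1, u1, u1] (c * c) (go (fun _ => true) u1 [u1, u1])
      (go (fun _ => false) u1 [u1, u1]) := by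
    have h1 := h.ctx [] [u1]
    have h2 := h.ctx [u1] []
    exact h1.append h2
  have h5 := (((LE.refl (m := m) (v := v) ds).append hgo).append
    (LE.refl (m := m) (v := v) dm))
  have h6 := ((key true).symm two_ne_zero).trans (h5.trans (key false))
  exact h6.cast rfl rfl rfl rfl (by field_simp)

lemma cc_dual (k : Wt) (h : CC m v (.up .one) (.up k)) : CC m v (.up .one) (.dn k) := by
  obtain ⟨c, hc, h⟩ := h
  set a : Letter := u1 with ha
  set s : Letter := .str (.up k) with hs
  set s' : Letter := .str (.dn k) with hs'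
  have r2a : ∀ b, EQ m v [a, s] [a, s] [⟨[], .cross b a s, []⟩, ⟨[], .cross (!b) s a, []⟩] [] :=
    fun b => LE.of_loc (Loc.r2 b a s trivial)
  have r2b : ∀ b, EQ m v [s, a] [s, a] [⟨[], .cross (!b) s a, []⟩, ⟨[], .cross b a s, []⟩] [] := by
    intro b
    have := LE.of_loc (m := m) (v := v) (Loc.r2 (!b) s a trivial)
    rwa [Bool.not_not] at this
  have dsa : ∀ b, IsDiag [s, a] [⟨[], .cross b s a, []⟩] [a, s] := by
    intro b
    simp [IsDiag, Gen.src, Gen.tgt, Gen.Ok, ha, hs]
  -- the inverse crossings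
  have hXi : LE m v [s, a] [a, s] c⁻¹ [⟨[], .cross false s a, []⟩]
      [⟨[], .cross true s a, []⟩] := by
    have h1 : EQ m v [s, a] [a, s] ([⟨[], .cross false s a, []⟩] ++
        ([⟨[], .cross false a s, []⟩] ++
        [⟨[], .cross true s a, []⟩])) ([⟨[], .cross false s a, []⟩] ++ []) :=
      EQ.al (dsa false) (r2a false)
    have h2 : LE m v [s, a] [a, s] c⁻¹ ([⟨[], .cross false s a, []⟩] ++
        ([⟨[], .cross false a s, []⟩] ++
        [⟨[], .cross true s a, []⟩])) ([⟨[], .cross false s a, []⟩] ++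
          ([⟨[], .cross true a s, []⟩] ++ [⟨[], .cross true s a, []⟩])) := by
      have := (LE.refl (m := m) (v := v) (dsa false)).append
        ((h.symm hc).append (LE.refl (m := m) (v := v) (dsa true)))
      rwa [one_mul, mul_one] at this
    have h3 : EQ m v [s, a] [a, s] (([⟨[], .cross false s a, []⟩] ++
        [⟨[], .cross true a s, []⟩]) ++
        [⟨[], .cross true s a, []⟩]) ([] ++ [⟨[], .cross true s a, []⟩]) :=
      EQ.ar (r2b true) (dsa true)
    rw [List.append_assoc] at h3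
    have h4 := (EQ.s h1).trans (h2.trans h3)
    exact h4.cast rfl rfl (by simp) (by simp) (by ring)
  have hY : ∀ b, EQ m v [a, s'] [s', a] [⟨[], .cross b a s', []⟩]
      ([⟨[], .cup (.dn k), [a, s']⟩] ++ ctx [s'] [s'] [⟨[], .cross (!b) s a, []⟩] ++
        [⟨[s', a], .cap (.up k), []⟩]) := by
    intro b
    have p1 : EQ m v [a, s, s'] [a] (go (fun _ => b) a [s, s'] ++ [⟨[], .cap (.up k), [a]⟩])
        [⟨[a], .cap (.up k), []⟩] :=
      LE.of_loc (Loc.slide b a (.cap (.up k)) ⟨trivial, fun y _ => Or.inl ⟨_, rfl⟩⟩)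
    have d1 : IsDiag [s, a, s'] [⟨[s], .cross b a s', []⟩, ⟨[], .cap (.up k), [a]⟩] [a] := by
      simp [IsDiag, Gen.src, Gen.tgt, Gen.Ok, ha, hs, hs', Strand.dual]
    have d2 : IsDiag [s, a, s'] [⟨[], .cross (!b) s a, [s']⟩] [a, s, s'] := by
      simp [IsDiag, Gen.src, Gen.tgt, Gen.Ok, ha, hs]
    have p2 : EQ m v [s, a, s'] [a] [⟨[s], .cross b a s', []⟩, ⟨[], .cap (.up k), [a]⟩]
        [⟨[], .cross (!b) s a, [s']⟩, ⟨[a], .cap (.up k), []⟩] := by
      have q1 : EQ m v [s, a, s'] [a] _ _ := EQ.ar ((r2b b).ctx [] [s']) d1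
      have q2 := EQ.al d2 p1
      exact (EQ.s q1).t q2
    have d3 : IsDiag [a, s'] [⟨[], .cup (.dn k), [a, s']⟩] [s', s, a, s'] := by
      simp [IsDiag, Gen.src, Gen.tgt, Gen.Ok, hs, hs', Strand.dual]
    have p3 : EQ m v [a, s'] [s', a] _ _ := EQ.al d3 (p2.ctx [s'] [])
    have p4 : EQ m v [a, s'] [s', s, s', a]
        [⟨[], .cup (.dn k), [a, s']⟩, ⟨[s', s], .cross b a s', []⟩]
        [⟨[], .cross b a s', []⟩, ⟨[], .cup (.dn k), [s', a]⟩] :=
      LE.of_loc (Loc.exch (.cup (.dn k)) (.cross b a s') [] trivial trivial)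
    have p5 : EQ m v [s'] [s'] [⟨[], .cup (.dn k), [s']⟩, ⟨[s'], .cap (.up k), []⟩] [] :=
      LE.of_loc (Loc.zig (.dn k))
    have d4 : IsDiag [s', s, s', a] [⟨[s'], .cap (.up k), [a]⟩] [s', a] := by
      simp [IsDiag, Gen.src, Gen.tgt, Gen.Ok, hs, hs', Strand.dual]
    have d5 : IsDiag [a, s'] [⟨[], .cross b a s', []⟩] [s', a] := by
      simp [IsDiag, Gen.src, Gen.tgt, Gen.Ok, ha, hs']
    have p6 := EQ.ar p4 d4
    have p7 : EQ m v [a, s'] [s', a] _ _ := EQ.al d5 (p5.ctx [] [a])
    have p8 := (EQ.s p7).t ((EQ.s p6).t p3)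
    exact p8
  refine ⟨c⁻¹, inv_ne_zero hc, ?_⟩
  have d6 : IsDiag [a, s'] [⟨[], .cup (.dn k), [a, s']⟩] ([s'] ++ [s, a] ++ [s']) := by
    simp [IsDiag, Gen.src, Gen.tgt, Gen.Ok, hs, hs', Strand.dual]
  have d7 : IsDiag ([s'] ++ [a, s] ++ [s']) [⟨[s', a], .cap (.up k), []⟩] [s', a] := by
    simp [IsDiag, Gen.src, Gen.tgt, Gen.Ok, hs, hs', Strand.dual]
  have h5 := ((LE.refl (m := m) (v := v) d6).append
    (hXi.ctx [s'] [s'])).append (LE.refl (m := m) (v := v) d7)
  have h6 := (hY true).trans (h5.trans (EQ.s (hY false)))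
  exact h6.cast rfl rfl rfl rfl (by ring)

lemma cc_all (hv : v ^ 3 = 1) (s : Strand) : CC m v (.up .one) s := by
  rcases s with k | k
  · cases k
    · exact cc11 hv
    · exact cc12 hv
  · cases k
    · exact cc_dual _ (cc11 hv)
    · exact cc_dual _ (cc12 hv)

/-- the edge of weight 1 passes in front of all edges, and in front of or behind the poles -/
def Front (β : Letter → Bool) : Prop := ∀ s, β (.str s) = true

lemma nat_gen (hv : v ^ 3 = 1) (β : Letter → Bool) (hβ : Front β) (g : Gen) (hg : g.Ok) :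
    EQ m v (u1 :: g.src) (g.tgt ++ [u1]) (go β u1 g.src ++ [⟨[], g, [u1]⟩])
      (⟨[u1], g, []⟩ :: go β u1 g.tgt) := by
  have main : ∀ b : Bool, (∀ y ∈ g.src, β y = b) → (∀ y ∈ g.tgt, β y = b) →
      EQ m v (u1 :: g.src) (g.tgt ++ [u1]) (go β u1 g.src ++ [⟨[], g, [u1]⟩])
      (⟨[u1], g, []⟩ :: go β u1 g.tgt) := by
    intro b h1 h2
    rw [go_congr β (fun _ => b) u1 g.src h1, go_congr β (fun _ => b) u1 g.tgt h2]
    exact LE.of_loc (Loc.slide b u1 g ⟨hg, fun y _ => Or.inl ⟨_, rfl⟩⟩)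
  -- a crossing of a strand and a pole, the latter in front of `u1`
  have mixed : ∀ (s : Strand) (j : ℕ), β (.pole j) = false →
      ∃ c : ℂ, c ≠ 0 ∧ LE m v [u1, .str s, .pole j] [.str s, .pole j, u1] c
          (go β u1 [.str s, .pole j]) (go (fun _ => false) u1 [.str s, .pole j]) ∧
        LE m v [u1, .pole j, .str s] [.pole j, .str s, u1] c (go β u1 [.pole j, .str s])
          (go (fun _ => false) u1 [.pole j, .str s]) := by
    intro s j hj
    obtain ⟨c, hc, h⟩ := cc_all (m := m) hv s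
    refine ⟨c, hc, ?_, ?_⟩
    · have d : IsDiag [.str s, u1, .pole j] [⟨[.str s], .cross false u1 (.pole j), []⟩]
          [.str s, .pole j, u1] := by
        simp [IsDiag, Gen.src, Gen.tgt, Gen.Ok]
      have h1 : LE m v [u1, .str s, .pole j] [.str s, .pole j, u1] (c * 1) _ _ :=
        (h.ctx [] [.pole j]).append (LE.refl (m := m) (v := v) d)
      refine h1.cast rfl rfl ?_ ?_ (mul_one c)
      · simp [go, hβ s, hj, ctx]
      · simp [go, ctx]
    · have d : IsDiag [u1, .pole j, .str s] [⟨[], .cross false u1 (.pole j), [.str s]⟩]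
          [.pole j, u1, .str s] := by
        simp [IsDiag, Gen.src, Gen.tgt, Gen.Ok]
      have h1 : LE m v [u1, .pole j, .str s] [.pole j, .str s, u1] (1 * c) _ _ :=
        (LE.refl (m := m) (v := v) d).append (h.ctx [.pole j] [])
      refine h1.cast rfl rfl ?_ ?_ (one_mul c)
      · simp [go, hβ s, hj, ctx]
      · simp [go, ctx]
  cases g with
  | cup a => exact main true (by simp [Gen.src]) (by simp [Gen.tgt, hβ _])
  | cap a => exact main true (by simp [Gen.src, hβ _]) (by simp [Gen.tgt])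
  | merge => exact main true (by simp [Gen.src, hβ _]) (by simp [Gen.tgt, hβ _])
  | split => exact main true (by simp [Gen.src, hβ _]) (by simp [Gen.tgt, hβ _])
  | tag a => exact main true (by simp [Gen.src, hβ _]) (by simp [Gen.tgt, hβ _])
  | cross b x y =>
    rcases x with s | j
    · rcases y with s' | j
      · exact main true (by simp [Gen.src, hβ _]) (by simp [Gen.tgt, hβ _])
      · cases hj : β (.pole j) with
        | true => exact main true (by simp [Gen.src, hβ _, hj]) (by simp [Gen.tgt, hβ _, hj])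
        | false =>
          obtain ⟨c, hc, h1, h2⟩ := mixed s j hj
          have d1 : IsDiag [.str s, .pole j, u1] [⟨[], .cross b (.str s) (.pole j), [u1]⟩]
              [.pole j, .str s, u1] := by
            simp [IsDiag, Gen.src, Gen.tgt, Gen.Ok]
          have d2 : IsDiag [u1, .str s, .pole j] [⟨[u1], .cross b (.str s) (.pole j), []⟩]
              [u1, .pole j, .str s] := by
            simp [IsDiag, Gen.src, Gen.tgt, Gen.Ok]
          have h3 : EQ m v [u1, .str s, .pole j] [.pole j, .str s, u1]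
              (go (fun _ => false) u1 [.str s, .pole j] ++
              [⟨[], .cross b (.str s) (.pole j), [u1]⟩])
              ([⟨[u1], .cross b (.str s) (.pole j), []⟩] ++
                go (fun _ => false) u1 [.pole j, .str s]) :=
            LE.of_loc (Loc.slide false u1 (.cross b (.str s) (.pole j))
              ⟨hg, fun y _ => Or.inl ⟨_, rfl⟩⟩)
          have h4 := h1.append (LE.refl (m := m) (v := v) d1)
          have h5 := (LE.refl (m := m) (v := v) d2).append (h2.symm hc)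
          have h6 := (h4.trans h3).trans h5
          exact h6.cast rfl rfl rfl rfl (by field_simp)
    · rcases y with s | j'
      · cases hj : β (.pole j) with
        | true => exact main true (by simp [Gen.src, hβ _, hj]) (by simp [Gen.tgt, hβ _, hj])
        | false =>
          obtain ⟨c, hc, h1, h2⟩ := mixed s j hj
          have d1 : IsDiag [.pole j, .str s, u1] [⟨[], .cross b (.pole j) (.str s), [u1]⟩]
              [.str s, .pole j, u1] := by
            simp [IsDiag, Gen.src, Gen.tgt, Gen.Ok]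
          have d2 : IsDiag [u1, .pole j, .str s] [⟨[u1], .cross b (.pole j) (.str s), []⟩]
              [u1, .str s, .pole j] := by
            simp [IsDiag, Gen.src, Gen.tgt, Gen.Ok]
          have h3 : EQ m v [u1, .pole j, .str s] [.str s, .pole j, u1]
              (go (fun _ => false) u1 [.pole j, .str s] ++
              [⟨[], .cross b (.pole j) (.str s), [u1]⟩])
              ([⟨[u1], .cross b (.pole j) (.str s), []⟩] ++
                go (fun _ => false) u1 [.str s, .pole j]) :=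
            LE.of_loc (Loc.slide false u1 (.cross b (.pole j) (.str s))
              ⟨hg, fun y _ => Or.inl ⟨_, rfl⟩⟩)
          have h4 := h2.append (LE.refl (m := m) (v := v) d1)
          have h5 := (LE.refl (m := m) (v := v) d2).append (h1.symm hc)
          have h6 := (h4.trans h3).trans h5
          exact h6.cast rfl rfl rfl rfl (by field_simp)
      · exact absurd hg (by simp [Gen.Ok])

lemma nat_slice (hv : v ^ 3 = 1) (β : Letter → Bool) (hβ : Front β) (l r : Ob) (g : Gen)
    (hg : g.Ok) :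
    EQ m v (u1 :: (l ++ g.src ++ r)) (l ++ g.tgt ++ r ++ [u1])
      (go β u1 (l ++ g.src ++ r) ++ [⟨l, g, r ++ [u1]⟩])
      (⟨u1 :: l, g, r⟩ :: go β u1 (l ++ g.tgt ++ r)) := by
  have e1 := (exchR (m := m) (v := v) g hg (go β u1 r) _ _ (isDiag_go β _ r)).ctx l []
  have e2 := (nat_gen (m := m) hv β hβ g hg).ctx l r
  have e3 := (exchL (m := m) (v := v) g hg (go β u1 l) _ _ (isDiag_go β _ l)).ctx [] r
  have dl : IsDiag (u1 :: (l ++ (g.src ++ r))) (ctx [] (g.src ++ r) (go β u1 l))
      (l ++ [u1] ++ (g.src ++ r)) := by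
    have := (isDiag_go β (.up .one) l).ctx [] (g.src ++ r)
    simpa using this
  have dm : IsDiag (l ++ [u1] ++ (g.src ++ r)) (ctx l r (go β u1 g.src))
      (l ++ g.src ++ [u1] ++ r) := by
    have := (isDiag_go β (.up .one) g.src).ctx l r
    simpa using this
  have dm' : IsDiag (l ++ [u1] ++ (g.tgt ++ r)) (ctx l r (go β u1 g.tgt))
      (l ++ g.tgt ++ [u1] ++ r) := by
    have := (isDiag_go β (.up .one) g.tgt).ctx l r
    simpa using this
  have dr : IsDiag (l ++ g.tgt ++ [u1] ++ r) (ctx (l ++ g.tgt) [] (go β u1 r))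
      (l ++ g.tgt ++ r ++ [u1]) := by
    have := (isDiag_go β (.up .one) r).ctx (l ++ g.tgt) []
    simpa using this
  have s1 : EQ m v (u1 :: (l ++ g.src ++ r)) (l ++ g.tgt ++ r ++ [u1])
      (go β u1 (l ++ g.src ++ r) ++ [⟨l, g, r ++ [u1]⟩])
      (ctx [] (g.src ++ r) (go β u1 l) ++ ctx l r (go β u1 g.src) ++
        (⟨l, g, u1 :: r⟩ :: ctx (l ++ g.tgt) [] (go β u1 r))) := by
    have := EQ.al (dl.append dm) (e1.c (x' := l ++ g.src ++ [u1] ++ r) (by simp) rfl rfl rfl)
    refine this.c (by simp) (by simp) ?_ ?_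
    · rw [List.append_assoc l, go_append, go_append]
      simp [ctx_append, ctx_ctx, ctx_cons, ctx_nil]
    · simp [ctx_ctx, ctx_cons]
  have s2 : EQ m v (u1 :: (l ++ g.src ++ r)) (l ++ g.tgt ++ r ++ [u1])
      (ctx [] (g.src ++ r) (go β u1 l) ++ ctx l r (go β u1 g.src) ++
        (⟨l, g, u1 :: r⟩ :: ctx (l ++ g.tgt) [] (go β u1 r)))
      (ctx [] (g.src ++ r) (go β u1 l) ++ (⟨l ++ [u1], g, r⟩ :: ctx l r (go β u1 g.tgt)) ++
        ctx (l ++ g.tgt) [] (go β u1 r)) := by
    have := EQ.ar (EQ.al dl (e2.c (x' := l ++ [u1] ++ (g.src ++ r)) (y' := l ++ g.tgt ++ [u1] ++ r)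
      (by simp) (by simp) rfl rfl)) dr
    refine this.c (by simp) rfl ?_ ?_
    · simp [ctx_append, ctx_cons, ctx_nil]
    · simp [ctx_cons]
  have s3 : EQ m v (u1 :: (l ++ g.src ++ r)) (l ++ g.tgt ++ r ++ [u1])
      (ctx [] (g.src ++ r) (go β u1 l) ++ (⟨l ++ [u1], g, r⟩ ::
        ctx l r (go β u1 g.tgt)) ++ ctx (l ++ g.tgt) [] (go β u1 r))
      (⟨u1 :: l, g, r⟩ :: go β u1 (l ++ g.tgt ++ r)) := by
    have := EQ.ar (e3.c (y' := l ++ [u1] ++ (g.tgt ++ r)) rfl (by simp) rfl rfl) (dm'.append dr)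
    refine this.c (by simp) rfl ?_ ?_
    · simp [ctx_append, ctx_ctx, ctx_cons, ctx_nil]
    · rw [List.append_assoc l, go_append, go_append]
      simp [ctx_append, ctx_ctx, ctx_cons]
  exact s1.t (s2.t s3)

lemma nat_word (hv : v ^ 3 = 1) (β : Letter → Bool) (hβ : Front β) : ∀ (w : Word) (x y : Ob),
    IsDiag x w y → EQ m v (u1 :: x) (y ++ [u1]) (go β u1 x ++ ctx [] [u1] w)
      (ctx [u1] [] w ++ go β u1 y) := by
  intro w
  induction w with
  | nil =>
    intro x y h
    cases h
    exact (LE.refl (isDiag_go β (.up .one) x)).cast rfl rfl (by simp [ctx_nil]) (by simp [ctx_nil])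
      rfl
  | cons s w ih =>
    intro x y h
    obtain ⟨h1, h2, h3⟩ := h
    have dw : IsDiag (s.l ++ s.g.tgt ++ s.r ++ [u1]) (ctx [] [u1] w) (y ++ [u1]) := by
      have := h3.ctx [] [u1]
      simpa using this
    have ds : IsDiag (u1 :: x) [⟨u1 :: s.l, s.g, s.r⟩] (u1 :: (s.l ++ s.g.tgt ++ s.r)) := by
      have := isDiag_one (u1 :: s.l) s.r s.g h2
      rw [h1]
      simpa using this
    have e1 := EQ.ar (nat_slice (m := m) hv β hβ s.l s.r s.g h2) dw
    have e2 := EQ.al ds (ih _ _ h3)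
    have e1' := e1.c (x' := u1 :: x) (y' := y ++ [u1])
      (q' := [⟨u1 :: s.l, s.g, s.r⟩] ++ (go β u1 (s.l ++ s.g.tgt ++ s.r) ++ ctx [] [u1] w))
      (by rw [h1]) rfl rfl (by simp)
    refine (e1'.t e2).c rfl rfl ?_ ?_
    · simp [ctx_cons, h1]
    · simp [ctx_cons]

lemma go_back (β : Letter → Bool) (a : Strand) (x : Ob) :
    EQ m v (.str a :: x) (.str a :: x) (go β (.str a) x ++ back (fun y => !β y) (.str a) x) [] := by
  induction x with
  | nil => exact LE.refl rfl
  | cons y x ih =>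
    have d1 : IsDiag (.str a :: y :: x) [⟨[], .cross (β y) (.str a) y, x⟩] (y :: .str a :: x) := by
      simp [IsDiag, Gen.src, Gen.tgt, Gen.Ok]
    have d2 : IsDiag (y :: .str a :: x) [⟨[], .cross (!β y) y (.str a), x⟩] (.str a :: y :: x) := by
      cases y <;> simp [IsDiag, Gen.src, Gen.tgt, Gen.Ok]
    have h1 := EQ.al d1 (EQ.ar (ih.ctx [y] [] |>.c (x' := y :: .str a :: x)
      (y' := y :: .str a :: x) (by simp) (by simp) rfl rfl) d2)
    have h2 := (LE.of_loc (m := m) (v := v) (Loc.r2 (β y) (.str a) y trivial)).ctx [] x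
    have h2' := h2.cast (x' := .str a :: y :: x) (y' := .str a :: y :: x)
      (p' := [⟨[], .cross (β y) (.str a) y, x⟩] ++ (ctx [y] [] [] ++
        [⟨[], .cross (!β y) y (.str a), x⟩])) (by simp) (by simp) (by simp [ctx_cons, ctx_nil]) rfl
        rfl
    refine (h1.t h2').c rfl rfl ?_ ?_
    · simp [go, back, ctx_append]
    · simp [ctx_nil]

lemma back_go (β : Letter → Bool) (a : Strand) (x : Ob) :
    EQ m v (x ++ [.str a]) (x ++ [.str a])
      (back (fun y => !β y) (.str a) x ++ go β (.str a) x) [] := by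
  induction x with
  | nil => exact LE.refl rfl
  | cons y x ih =>
    have hok : (Gen.cross (!β y) y (.str a)).Ok := by cases y <;> trivial
    have h2 := (LE.of_loc (m := m) (v := v) (Loc.r2 (!β y) y (.str a) hok)).ctx [] x
    rw [Bool.not_not] at h2
    have d1 : IsDiag (y :: x ++ [.str a]) (ctx [y] [] (back (fun y => !β y) (.str a) x))
        (y :: .str a :: x) := by
      have := (isDiag_back (fun y => !β y) a x).ctx [y] []
      simpa using this
    have d2 : IsDiag (y :: .str a :: x) (ctx [y] [] (go β (.str a) x)) (y :: x ++ [.str a]) := by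
      have := (isDiag_go β a x).ctx [y] []
      simpa using this
    have h1 := EQ.al d1 (EQ.ar (h2.cast (x' := y :: .str a :: x)
      (y' := y :: .str a :: x) (by simp) (by simp) rfl rfl rfl) d2)
    have h3 := (ih.ctx [y] []).c (x' := y :: x ++ [.str a]) (y' := y :: x ++ [.str a])
      (p' := ctx [y] [] (back (fun y => !β y) (.str a) x) ++ (ctx [] x [] ++
        ctx [y] [] (go β (.str a) x))) (by simp) (by simp) (by simp [ctx_append, ctx_nil]) rfl
    refine (h1.t h3).c rfl rfl ?_ ?_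
    · simp [go, back, ctx_cons, ctx_nil]
    · simp [ctx_nil]

lemma nat_back (hv : v ^ 3 = 1) (β : Letter → Bool) (hβ : Front β) (w : Word) (x y : Ob)
    (h : IsDiag x w y) : EQ m v (x ++ [u1]) (u1 :: y)
      (back (fun y => !β y) u1 x ++ ctx [u1] [] w)
      (ctx [] [u1] w ++ back (fun y => !β y) u1 y) := by
  have h1 := nat_word (m := m) hv β hβ w x y h
  have dbx := isDiag_back (fun y => !β y) (.up .one) x
  have dby := isDiag_back (fun y => !β y) (.up .one) y
  have dw1 : IsDiag (x ++ [u1]) (ctx [] [u1] w) (y ++ [u1]) := by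
    have := h.ctx [] [u1]
    simpa using this
  have dw2 : IsDiag (u1 :: x) (ctx [u1] [] w) (u1 :: y) := by
    have := h.ctx [u1] []
    simpa using this
  have h2 := EQ.ar (EQ.al dbx h1) dby
  have h3 := EQ.ar (back_go (m := m) (v := v) β (.up .one) x) (dw1.append dby)
  have h4 := EQ.al (dbx.append dw2) (go_back (m := m) (v := v) β (.up .one) y)
  have h4' := h4.c (p' := back (fun y => !β y) u1 x ++ (ctx [u1] [] w ++ go β u1 y) ++
    back (fun y => !β y) u1 y) (q' := back (fun y => !β y) u1 x ++ ctx [u1] [] w) rfl rfl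
    (by simp) (by simp)
  have h3' := h3.c (p' := back (fun y => !β y) u1 x ++ (go β u1 x ++ ctx [] [u1] w) ++
    back (fun y => !β y) u1 y) (q' := ctx [] [u1] w ++ back (fun y => !β y) u1 y) rfl rfl
    (by simp) (by simp)
  exact (EQ.s h4').t ((EQ.s h2).t h3')

/-- a closed curve of weight 1 which goes to the right (in front of `y` if `β y` is true) and back
(in front of `y` if `γ y` is true) -/
def curve (β γ : Letter → Bool) (x : Ob) : Word :=
  [⟨[], .cup (.dn .one), x⟩] ++ ctx [.str (.dn .one)] [] (go β u1 x) ++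
    ctx [.str (.dn .one)] [] (back (fun y => !γ y) u1 x) ++ [⟨[], .cap (.dn .one), x⟩]

lemma isDiag_curve (β γ : Letter → Bool) (x : Ob) : IsDiag x (curve β γ x) x := by
  have h1 : IsDiag x [⟨[], .cup (.dn .one), x⟩] (.str (.dn .one) :: u1 :: x) := by
    refine ⟨by simp [Gen.src], trivial, by simp [IsDiag, Gen.tgt, Strand.dual]⟩
  have h2 := (isDiag_go β (.up .one) x).ctx [.str (.dn .one)] []
  have h3 := (isDiag_back (fun y => !γ y) (.up .one) x).ctx [.str (.dn .one)] []
  have h4 : IsDiag (.str (.dn .one) :: u1 :: x) [⟨[], .cap (.dn .one), x⟩] x := by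
    refine ⟨by simp [Gen.src, Strand.dual], trivial, by simp [IsDiag, Gen.tgt]⟩
  simp only [List.append_nil, List.singleton_append] at h2 h3
  exact ((h1.append h2).append h3).append h4

theorem curve_comm (hv : v ^ 3 = 1) (β γ : Letter → Bool) (hβ : Front β) (hγ : Front γ)
    (w : Word) (x y : Ob) (h : IsDiag x w y) :
    EQ m v x y (curve β γ x ++ w) (w ++ curve β γ y) := by
  have hcap := exchR (m := m) (v := v) (.cap (.dn .one)) trivial w x y h
  have hcup := exchR (m := m) (v := v) (.cup (.dn .one)) trivial w x y h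
  have hb := (nat_back (m := m) hv γ hγ w x y h).ctx [.str (.dn .one)] []
  have hg := (nat_word (m := m) hv β hβ w x y h).ctx [.str (.dn .one)] []
  have dcup : ∀ x, IsDiag x [⟨[], .cup (.dn .one), x⟩] (.str (.dn .one) :: u1 :: x) := fun x => by
    refine ⟨by simp [Gen.src], trivial, by simp [IsDiag, Gen.tgt, Strand.dual]⟩
  have dcap : ∀ x, IsDiag (.str (.dn .one) :: u1 :: x) [⟨[], .cap (.dn .one), x⟩] x := fun x => by
    refine ⟨by simp [Gen.src, Strand.dual], trivial, by simp [IsDiag, Gen.tgt]⟩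
  have dgo : ∀ x, IsDiag (.str (.dn .one) :: u1 :: x) (ctx [.str (.dn .one)] [] (go β u1 x))
      (.str (.dn .one) :: x ++ [u1]) := fun x => by
    have := (isDiag_go β (.up .one) x).ctx [.str (.dn .one)] []
    simpa using this
  have dbk : ∀ x, IsDiag (.str (.dn .one) :: x ++ [u1])
      (ctx [.str (.dn .one)] [] (back (fun y => !γ y) u1 x)) (.str (.dn .one) :: u1 :: x) :=
      fun x => by
    have := (isDiag_back (fun y => !γ y) (.up .one) x).ctx [.str (.dn .one)] []
    simpa using this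
  have s1 : EQ m v x y (curve β γ x ++ w)
      ([⟨[], .cup (.dn .one), x⟩] ++ ctx [.str (.dn .one)] [] (go β u1 x) ++
      ctx [.str (.dn .one)] [] (back (fun y => !γ y) u1 x) ++ ctx [.str (.dn .one), u1] [] w ++
      [⟨[], .cap (.dn .one), y⟩]) := by
    have := EQ.al (((dcup x).append (dgo x)).append (dbk x)) (EQ.s hcap)
    exact this.c rfl (by simp [Gen.tgt]) (by simp [curve, Gen.tgt, ctx_triv])
      (by simp [Gen.src, Strand.dual])
  have s2 : EQ m v x y ([⟨[], .cup (.dn .one), x⟩] ++ ctx [.str (.dn .one)] [] (go β u1 x) ++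
      ctx [.str (.dn .one)] [] (back (fun y => !γ y) u1 x) ++ ctx [.str (.dn .one), u1] [] w ++
      [⟨[], .cap (.dn .one), y⟩])
      ([⟨[], .cup (.dn .one), x⟩] ++ ctx [.str (.dn .one)] [] (go β u1 x) ++
      ctx [.str (.dn .one)] [u1] w ++ ctx [.str (.dn .one)] [] (back (fun y => !γ y) u1 y) ++
      [⟨[], .cap (.dn .one), y⟩]) := by
    have := EQ.ar (EQ.al ((dcup x).append (dgo x)) (hb.c (x' := .str (.dn .one) :: x ++ [u1])
      (y' := .str (.dn .one) :: u1 :: y) (by simp) (by simp) rfl rfl)) (dcap y)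
    exact this.c rfl rfl (by simp [ctx_append, ctx_ctx]) (by simp [ctx_append, ctx_ctx])
  have s3 : EQ m v x y ([⟨[], .cup (.dn .one), x⟩] ++ ctx [.str (.dn .one)] [] (go β u1 x) ++
      ctx [.str (.dn .one)] [u1] w ++ ctx [.str (.dn .one)] [] (back (fun y => !γ y) u1 y) ++
      [⟨[], .cap (.dn .one), y⟩])
      ([⟨[], .cup (.dn .one), x⟩] ++ ctx [.str (.dn .one), u1] [] w ++
      ctx [.str (.dn .one)] [] (go β u1 y) ++ ctx [.str (.dn .one)] []
      (back (fun y => !γ y) u1 y) ++ [⟨[], .cap (.dn .one), y⟩]) := by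
    have := EQ.ar (EQ.al (dcup x) (hg.c (x' := .str (.dn .one) :: u1 :: x)
      (y' := .str (.dn .one) :: y ++ [u1]) (by simp) (by simp) rfl rfl))
      ((dbk y).append (dcap y))
    exact this.c rfl rfl (by simp [ctx_append, ctx_ctx]) (by simp [ctx_append, ctx_ctx])
  have s4 : EQ m v x y ([⟨[], .cup (.dn .one), x⟩] ++ ctx [.str (.dn .one), u1] [] w ++
      ctx [.str (.dn .one)] [] (go β u1 y) ++ ctx [.str (.dn .one)] []
      (back (fun y => !γ y) u1 y) ++ [⟨[], .cap (.dn .one), y⟩]) (w ++ curve β γ y) := by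
    have := EQ.ar ((EQ.s hcup).c (x' := x) (y' := .str (.dn .one) :: u1 :: y) (by simp [Gen.src])
      (by simp [Gen.tgt, Strand.dual]) rfl rfl) (((dgo y).append (dbk y)).append (dcap y))
    exact this.c rfl rfl (by simp [Gen.tgt, Strand.dual])
      (by simp [curve, Gen.src, ctx_triv])
  exact s1.t (s2.t (s3.t s4))

end

end Pool.Agent.K1H60.SK
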