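import Pool.Agent.K1H60.SK.Eval

/-! The evaluation satisfies the relations. -/

set_option autoImplicit false
set_option linter.unusedSimpArgs false

namespace Pool.Agent.K1H60.SK

variable {v : ℂ} {D : Dat}

/-- value of a combination -/
noncomputable def lv (v : ℂ) (D : Dat) (c : Comb) (f : List Cl → ℂ) (t : List Cl) : ℂ :=
  (c.map fun p => p.1 * ev v D p.2 f t).sum

lemma stepL_def (s : Slice) (f : List Cl → ℂ) (t : List Cl) :
    stepL v D s f t = ((ker v D s.g ((t.drop (cnt s.l)).take (cnt s.g.src))).map fun p =>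
    p.1 * f (t.take (cnt s.l) ++ p.2 ++ t.drop (cnt s.l + cnt s.g.src))).sum := rfl

lemma sum_swap {α β : Type} (L : List (ℂ × α)) (M : List (ℂ × β)) (F : α → β → ℂ) :
    (L.map fun p => p.1 * (M.map fun q => q.1 * F p.2 q.2).sum).sum =
      (M.map fun q => q.1 * (L.map fun p => p.1 * F p.2 q.2).sum).sum := by
  induction L with
  | nil => simp
  | cons p L ih =>
    simp only [List.map_cons, List.sum_cons, mul_add, ih]
    rw [List.sum_map_add]
    congr 1
    rw [← List.sum_map_mul_left]
    congr 1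
    refine List.map_congr_left fun q _ => ?_
    ring

lemma len0 {t : List Cl} (h : t.length = 0) : t = [] := List.length_eq_zero_iff.1 h
lemma len1 {t : List Cl} (h : t.length = 1) : ∃ i, t = [i] := List.length_eq_one_iff.1 h
lemma len2 {t : List Cl} (h : t.length = 2) : ∃ i j, t = [i, j] := List.length_eq_two.1 h
lemma len3 {t : List Cl} (h : t.length = 3) : ∃ i j k, t = [i, j, k] := List.length_eq_three.1 h

lemma w_dual (a : Strand) : a.dual.w = -a.w := by
  rcases a with (_ | _) | (_ | _) <;> decide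

lemma w_flip (a : Strand) : a.flip.w = a.w := by
  rcases a with (_ | _) | (_ | _) <;> decide

lemma col_dual (a : Strand) (i : Cl) : a.dual.col i = -a.col i := by
  rcases a with (_ | _) | (_ | _) <;> simp [Strand.dual, Strand.col]

lemma col_flip (a : Strand) (i : Cl) : a.flip.col i = a.col i := by
  rcases a with (_ | _) | (_ | _) <;> simp [Strand.flip, Wt.co, Strand.col]

lemma H_dual (j : ℕ) (a : Strand) (i : Cl) : D.H j a.dual i = -D.H j a i := by
  simp only [Dat.H, w_dual, col_dual]; ring

lemma H_flip (j : ℕ) (a : Strand) (i : Cl) : D.H j a.flip i = D.H j a i := by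
  simp only [Dat.H, w_flip, col_flip]

lemma H_merge (j : ℕ) (i : Cl) : D.H j (.up .two) i.nx.nx =
    D.H j (.up .one) i + D.H j (.up .one) i.nx := by
  simp only [Dat.H, Strand.w, Strand.col]
  generalize D.c j = c
  generalize D.a j = a
  revert a c
  cases i <;> decide

lemma H_merge' (j : ℕ) (i : Cl) : D.H j (.up .two) i.nx =
    D.H j (.up .one) i + D.H j (.up .one) i.nx.nx := by
  simp only [Dat.H, Strand.w, Strand.col]
  generalize D.c j = c
  generalize D.a j = a
  revert a c
  cases i <;> decide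

lemma nx3 (i : Cl) : i.nx.nx.nx = i := by cases i <;> rfl

lemma nx_ne (i : Cl) : i.nx ≠ i := by cases i <;> decide
lemma nx2_ne (i : Cl) : i.nx.nx ≠ i := by cases i <;> decide

lemma chi_mul_neg (hv : v ^ 3 = 1) (a : ZMod 3) : chi v a * chi v (-a) = 1 := by
  rw [← chi_add hv, add_neg_cancel, chi_zero]

lemma chi_one : chi v 1 = v := by
  have : (1 : ZMod 3).val = 1 := rfl
  simp [chi, this]

lemma chi_two : chi v 2 = v ^ 2 := by
  have : (2 : ZMod 3).val = 2 := rfl
  simp [chi, this]

lemma neg_prod (x y : Strand) : -(x.w * y.w) = x.dual.w * y.w := by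
  rw [w_dual]; ring

/-- phase of a crossing -/
noncomputable def ph (v : ℂ) (b : Bool) (x y : Strand) : ℂ :=
  if b then chi v (-(x.w * y.w)) else chi v (x.w * y.w)

/-- holonomy of a strand going to the right across a pole -/
noncomputable def hr (v : ℂ) (D : Dat) (b : Bool) (j : ℕ) (x : Strand) (i : Cl) : ℂ :=
  if b then 1 else chi v (D.H j x i)

/-- holonomy of a strand going to the left across a pole -/
noncomputable def hl (v : ℂ) (D : Dat) (b : Bool) (j : ℕ) (x : Strand) (i : Cl) : ℂ :=
  if b then chi v (-(D.H j x i)) else 1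

lemma ker_cup (a : Strand) : ker v D (.cup a) [] =
    [(1, [.c0, .c0]), (1, [.c1, .c1]), (1, [.c2, .c2])] := rfl
lemma ker_cap (a : Strand) (i j : Cl) : ker v D (.cap a) [i, j] =
    if i = j then [(1, [])] else [] := rfl
lemma ker_tag (a : Strand) (i : Cl) : ker v D (.tag a) [i] = [(1, [i])] := rfl
lemma ker_merge (i j : Cl) : ker v D .merge [i, j] =
    if j = i.nx then [(1, [i.nx.nx])] else if j = i.nx.nx then [(-1, [i.nx])] else [] := rfl
lemma ker_split (k : Cl) : ker v D .split [k] =
    [(1, [k.nx, k.nx.nx]), (-1, [k.nx.nx, k.nx])] := rfl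

lemma ker_ss (b : Bool) (x y : Strand) (i j : Cl) :
    ker v D (.cross b (.str x) (.str y)) [i, j] = [(ph v b x y, [j, i])] := by
  cases b <;> simp [ker, ph]

lemma ker_sp (b : Bool) (x : Strand) (p : ℕ) (i : Cl) :
    ker v D (.cross b (.str x) (.pole p)) [i] = [(hr v D b p x i, [i])] := by
  cases b <;> simp [ker, hr]

lemma ker_ps (b : Bool) (x : Strand) (p : ℕ) (i : Cl) :
    ker v D (.cross b (.pole p) (.str x)) [i] = [(hl v D b p x i, [i])] := by
  cases b <;> simp [ker, hl]

lemma ph_dual (hv : v ^ 3 = 1) (b : Bool) (x y : Strand) : ph v b x y * ph v b x y.dual = 1 := by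
  cases b <;> simp only [ph, w_dual, mul_neg, Bool.false_eq_true, if_false, if_true]
  · exact chi_mul_neg hv _
  · exact chi_mul_neg hv _

lemma ph_flip (b : Bool) (x y : Strand) : ph v b x y.flip = ph v b x y := by
  cases b <;> simp only [ph, w_flip]

lemma ph_two (hv : v ^ 3 = 1) (b : Bool) (x : Strand) :
    ph v b x (.up .two) = ph v b x (.up .one) * ph v b x (.up .one) := by
  have e : Strand.w (.up .two) = Strand.w (.up .one) + Strand.w (.up .one) := by decide
  cases b <;> simp only [ph, e, Bool.false_eq_true, if_false, if_true] <;> rw [← chi_add hv] <;>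
    congr 1 <;> ring

lemma ph_inv (hv : v ^ 3 = 1) (b : Bool) (x y : Strand) : ph v b x y * ph v (!b) y x = 1 := by
  cases b <;> simp only [ph, Bool.not_true, Bool.not_false, Bool.false_eq_true, if_false, if_true]
  · rw [mul_comm y.w x.w]; exact chi_mul_neg hv _
  · rw [mul_comm y.w x.w, mul_comm]; exact chi_mul_neg hv _

lemma hrl (hv : v ^ 3 = 1) (b : Bool) (j : ℕ) (x : Strand) (i : Cl) :
    hr v D b j x i * hl v D (!b) j x i = 1 := by
  cases b <;> simp only [hr, hl, Bool.not_true, Bool.not_false, Bool.false_eq_true, if_false,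
    if_true, mul_one]
  exact chi_mul_neg hv _

lemma hl_dual (hv : v ^ 3 = 1) (b : Bool) (j : ℕ) (x : Strand) (i : Cl) :
    hl v D b j x i * hl v D b j x.dual i = 1 := by
  cases b <;> simp only [hl, H_dual, Bool.false_eq_true, if_false, if_true, mul_one]
  exact chi_mul_neg hv _

lemma hl_flip (b : Bool) (j : ℕ) (x : Strand) (i : Cl) :
    hl v D b j x.flip i = hl v D b j x i := by
  cases b <;> simp only [hl, H_flip]

lemma hl_merge (hv : v ^ 3 = 1) (b : Bool) (j : ℕ) (i : Cl) :
    hl v D b j (.up .two) i.nx.nx = hl v D b j (.up .one) i * hl v D b j (.up .one) i.nx := by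
  cases b <;> simp only [hl, H_merge, Bool.false_eq_true, if_false, if_true, mul_one]
  rw [← chi_add hv]; congr 1; ring

lemma hl_merge' (hv : v ^ 3 = 1) (b : Bool) (j : ℕ) (i : Cl) :
    hl v D b j (.up .two) i.nx = hl v D b j (.up .one) i * hl v D b j (.up .one) i.nx.nx := by
  cases b <;> simp only [hl, H_merge', Bool.false_eq_true, if_false, if_true, mul_one]
  rw [← chi_add hv]; congr 1; ring

lemma lv_one (c : ℂ) (w : Word) (f : List Cl → ℂ) (t : List Cl) :
    lv v D [(c, w)] f t = c * ev v D w f t := by simp [lv]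

/-- the slides over or under a piece -/
lemma check_slide (hv : v ^ 3 = 1) (b : Bool) (x : Letter) (g : Gen) (h : SlideOk x g)
    (f : List Cl → ℂ) (t : List Cl) (ht : t.length = cnt (x :: g.src)) :
    ev v D (go (fun _ => b) x g.src ++ [⟨[], g, [x]⟩]) f t =
      ev v D (⟨[x], g, []⟩ :: go (fun _ => b) x g.tgt) f t := by
  cases g with
  | cup a =>
    rcases x with s | j
    · obtain ⟨i, rfl⟩ := len1 (by simpa [cnt, Letter.cnt, Gen.src] using ht)
      have h' : ∀ F : ℂ, ph v b s a * (ph v b s a.dual * F) = F := fun F => by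
        rw [← mul_assoc, ph_dual hv, one_mul]
      simp [go, ctx, ev_cons, ev_nil, stepL_def, cnt, Letter.cnt, ker_ss, ker_cup, ker_cap, ker_tag, ker_merge, ker_split, Gen.src, Gen.tgt, h']
    · obtain rfl := len0 (by simpa [cnt, Letter.cnt, Gen.src] using ht)
      have h' : ∀ (i : Cl) (F : ℂ), hl v D b j a i * (hl v D b j a.dual i * F) = F := fun i F => by
        rw [← mul_assoc, hl_dual hv, one_mul]
      simp [go, ctx, ev_cons, ev_nil, stepL_def, cnt, Letter.cnt, ker_ps, ker_cup, ker_cap, ker_tag, ker_merge, ker_split, Gen.src, Gen.tgt, h']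
  | cap a =>
    rcases x with s | j
    · obtain ⟨i, k, k', rfl⟩ := len3 (by simpa [cnt, Letter.cnt, Gen.src] using ht)
      have h' : ∀ F : ℂ, ph v b s a * (ph v b s a.dual * F) = F := fun F => by
        rw [← mul_assoc, ph_dual hv, one_mul]
      by_cases hk : k = k'
      · simp [go, ctx, ev_cons, ev_nil, stepL_def, cnt, Letter.cnt, ker_ss, ker_cup, ker_cap, ker_tag, ker_merge, ker_split, Gen.src, Gen.tgt,
          hk, h']
      · simp [go, ctx, ev_cons, ev_nil, stepL_def, cnt, Letter.cnt, ker_ss, ker_cup, ker_cap, ker_tag, ker_merge, ker_split, Gen.src, Gen.tgt,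
          hk]
    · obtain ⟨k, k', rfl⟩ := len2 (by simpa [cnt, Letter.cnt, Gen.src] using ht)
      have h' : ∀ (i : Cl) (F : ℂ), hl v D b j a i * (hl v D b j a.dual i * F) = F := fun i F => by
        rw [← mul_assoc, hl_dual hv, one_mul]
      by_cases hk : k = k'
      · simp [go, ctx, ev_cons, ev_nil, stepL_def, cnt, Letter.cnt, ker_ps, ker_cup, ker_cap, ker_tag, ker_merge, ker_split, Gen.src, Gen.tgt,
          hk, h']
      · simp [go, ctx, ev_cons, ev_nil, stepL_def, cnt, Letter.cnt, ker_ps, ker_cup, ker_cap, ker_tag, ker_merge, ker_split, Gen.src, Gen.tgt,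
          hk]
  | tag a =>
    rcases x with s | j
    · obtain ⟨i, k, rfl⟩ := len2 (by simpa [cnt, Letter.cnt, Gen.src] using ht)
      simp [go, ctx, ev_cons, ev_nil, stepL_def, cnt, Letter.cnt, ker_ss, ker_cup, ker_cap, ker_tag, ker_merge, ker_split, Gen.src, Gen.tgt,
        ph_flip]
    · obtain ⟨i, rfl⟩ := len1 (by simpa [cnt, Letter.cnt, Gen.src] using ht)
      simp [go, ctx, ev_cons, ev_nil, stepL_def, cnt, Letter.cnt, ker_ps, ker_cup, ker_cap, ker_tag, ker_merge, ker_split, Gen.src, Gen.tgt,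
        hl_flip]
  | merge =>
    rcases x with s | j
    · obtain ⟨i, k, k', rfl⟩ := len3 (by simpa [cnt, Letter.cnt, Gen.src] using ht)
      by_cases h1 : k' = k.nx
      · subst h1
        simp [go, ctx, ev_cons, ev_nil, stepL_def, cnt, Letter.cnt, ker_ss, ker_cup, ker_cap, ker_tag, ker_merge, ker_split, Gen.src, Gen.tgt,
          ph_two hv, mul_assoc]
      · by_cases h2 : k' = k.nx.nx
        · subst h2
          simp [go, ctx, ev_cons, ev_nil, stepL_def, cnt, Letter.cnt, ker_ss, ker_cup, ker_cap, ker_tag, ker_merge, ker_split, Gen.src, Gen.tgt,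
            ph_two hv, mul_assoc, h1]
        · simp [go, ctx, ev_cons, ev_nil, stepL_def, cnt, Letter.cnt, ker_ss, ker_cup, ker_cap, ker_tag, ker_merge, ker_split, Gen.src, Gen.tgt,
            h1, h2]
    · obtain ⟨k, k', rfl⟩ := len2 (by simpa [cnt, Letter.cnt, Gen.src] using ht)
      by_cases h1 : k' = k.nx
      · subst h1
        simp [go, ctx, ev_cons, ev_nil, stepL_def, cnt, Letter.cnt, ker_ps, ker_cup, ker_cap, ker_tag, ker_merge, ker_split, Gen.src, Gen.tgt,
          hl_merge hv, mul_assoc]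
      · by_cases h2 : k' = k.nx.nx
        · subst h2
          simp [go, ctx, ev_cons, ev_nil, stepL_def, cnt, Letter.cnt, ker_ps, ker_cup, ker_cap, ker_tag, ker_merge, ker_split, Gen.src, Gen.tgt,
            hl_merge' hv, mul_assoc, h1]
        · simp [go, ctx, ev_cons, ev_nil, stepL_def, cnt, Letter.cnt, ker_ps, ker_cup, ker_cap, ker_tag, ker_merge, ker_split, Gen.src, Gen.tgt,
            h1, h2]
  | split =>
    rcases x with s | j
    · obtain ⟨i, k, rfl⟩ := len2 (by simpa [cnt, Letter.cnt, Gen.src] using ht)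
      simp [go, ctx, ev_cons, ev_nil, stepL_def, cnt, Letter.cnt, ker_ss, ker_cup, ker_cap, ker_tag, ker_merge, ker_split, Gen.src, Gen.tgt,
        ph_two hv, mul_assoc]
      ring
    · obtain ⟨k, rfl⟩ := len1 (by simpa [cnt, Letter.cnt, Gen.src] using ht)
      have e1 := hl_merge (v := v) (D := D) hv b j k.nx
      have e2 := hl_merge' (v := v) (D := D) hv b j k.nx.nx
      rw [nx3] at e1 e2
      simp [go, ctx, ev_cons, ev_nil, stepL_def, cnt, Letter.cnt, ker_ps, ker_cup, ker_cap, ker_tag, ker_merge, ker_split, Gen.src, Gen.tgt,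
        e1, mul_assoc]
      ring
  | cross b' y z =>
    rcases x with s | j <;> rcases y with y | y <;> rcases z with z | z
    · obtain ⟨i, k, k', rfl⟩ := len3 (by simpa [cnt, Letter.cnt, Gen.src] using ht)
      simp [go, ctx, ev_cons, ev_nil, stepL_def, cnt, Letter.cnt, ker_ss, Gen.src, Gen.tgt]
      ring
    · obtain ⟨i, k, rfl⟩ := len2 (by simpa [cnt, Letter.cnt, Gen.src] using ht)
      simp [go, ctx, ev_cons, ev_nil, stepL_def, cnt, Letter.cnt, ker_ss, ker_sp, Gen.src, Gen.tgt]
      ring
    · obtain ⟨i, k, rfl⟩ := len2 (by simpa [cnt, Letter.cnt, Gen.src] using ht)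
      simp [go, ctx, ev_cons, ev_nil, stepL_def, cnt, Letter.cnt, ker_ss, ker_sp, ker_ps, Gen.src,
        Gen.tgt]
      ring
    · exact absurd h.1 (by simp [Gen.Ok])
    · obtain ⟨i, k, rfl⟩ := len2 (by simpa [cnt, Letter.cnt, Gen.src] using ht)
      simp [go, ctx, ev_cons, ev_nil, stepL_def, cnt, Letter.cnt, ker_ss, ker_ps, Gen.src, Gen.tgt]
      ring
    · exact absurd (h.2 (.pole z) (by simp [Gen.src])) (by simp)
    · exact absurd (h.2 (.pole y) (by simp [Gen.src])) (by simp)
    · exact absurd h.1 (by simp [Gen.Ok])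

end Pool.Agent.K1H60.SK
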