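import Pool.Agent.K1H60.SK.Check

/-! The evaluation satisfies the relations, second part. -/

set_option autoImplicit false
set_option linter.unusedSimpArgs false

namespace Pool.Agent.K1H60.SK

variable {v : ℂ} {D : Dat}

lemma e_end21 (F : List Cl → ℂ) (i j : Cl) (t : List Cl) (r : Ob) :
    ev v D (ctx [] r end21) F (i :: j :: t) = if i = j then F t else 0 := by
  by_cases h : i = j
  · simp [end21, ctx, ev_cons, ev_nil, stepL_def, cnt, Letter.cnt, ker_cap, ker_tag, Gen.src, h]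
  · simp [end21, ctx, ev_cons, ev_nil, stepL_def, cnt, Letter.cnt, ker_cap, ker_tag, Gen.src, h]

lemma e_end12 (F : List Cl → ℂ) (i j : Cl) (t : List Cl) (r : Ob) :
    ev v D (ctx [] r end12) F (i :: j :: t) = if i = j then F t else 0 := by
  by_cases h : i = j
  · simp [end12, ctx, ev_cons, ev_nil, stepL_def, cnt, Letter.cnt, ker_cap, ker_tag, Gen.src, h]
  · simp [end12, ctx, ev_cons, ev_nil, stepL_def, cnt, Letter.cnt, ker_cap, ker_tag, Gen.src, h]

lemma e_beg21 (F : List Cl → ℂ) (t : List Cl) (r : Ob) : ev v D (ctx [] r beg21) F t =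
    F (.c0 :: .c0 :: t) + (F (.c1 :: .c1 :: t) + F (.c2 :: .c2 :: t)) := by
  simp [beg21, ctx, ev_cons, ev_nil, stepL_def, cnt, Letter.cnt, ker_cup, ker_tag, Gen.src]

lemma e_beg12 (F : List Cl → ℂ) (t : List Cl) (r : Ob) : ev v D (ctx [] r beg12) F t =
    F (.c0 :: .c0 :: t) + (F (.c1 :: .c1 :: t) + F (.c2 :: .c2 :: t)) := by
  simp [beg12, ctx, ev_cons, ev_nil, stepL_def, cnt, Letter.cnt, ker_cup, ker_tag, Gen.src]

lemma e_end21' (F : List Cl → ℂ) (i j : Cl) (t : List Cl) :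
    ev v D end21 F (i :: j :: t) = if i = j then F t else 0 := by
  have := e_end21 (v := v) (D := D) F i j t []
  rwa [ctx_triv] at this

lemma e_end12' (F : List Cl → ℂ) (i j : Cl) (t : List Cl) :
    ev v D end12 F (i :: j :: t) = if i = j then F t else 0 := by
  have := e_end12 (v := v) (D := D) F i j t []
  rwa [ctx_triv] at this

lemma e_beg21' (F : List Cl → ℂ) (t : List Cl) : ev v D beg21 F t =
    F (.c0 :: .c0 :: t) + (F (.c1 :: .c1 :: t) + F (.c2 :: .c2 :: t)) := by
  have := e_beg21 (v := v) (D := D) F t []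
  rwa [ctx_triv] at this

lemma e_beg12' (F : List Cl → ℂ) (t : List Cl) : ev v D beg12 F t =
    F (.c0 :: .c0 :: t) + (F (.c1 :: .c1 :: t) + F (.c2 :: .c2 :: t)) := by
  have := e_beg12 (v := v) (D := D) F t []
  rwa [ctx_triv] at this

lemma e_end12u (F : List Cl → ℂ) (k i j : Cl) :
    ev v D (ctx [u1] [] end12) F [k, i, j] = if i = j then F [k] else 0 := by
  have := ev_ctx v D end12 [u1, u2] [] (by
    simp [IsDiag, end12, Gen.src, Gen.tgt, Gen.Ok, Strand.flip, Wt.co, Strand.dual]) [u1] [] F [k]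
    [i, j] [] rfl rfl
  simp only [List.append_nil] at this
  rw [show ([k] ++ [i, j] : List Cl) = [k, i, j] from rfl] at this
  rw [this, e_end12']
  rfl

lemma e_beg12u (F : List Cl → ℂ) (k : Cl) : ev v D (ctx [u1] [] beg12) F [k] =
    F [k, .c0, .c0] + (F [k, .c1, .c1] + F [k, .c2, .c2]) := by
  have := ev_ctx v D beg12 [] [u1, u2] (by
    simp [IsDiag, beg12, Gen.src, Gen.tgt, Gen.Ok, Strand.flip, Wt.co, Strand.dual]) [u1] [] F [k]
    [] [] rfl rfl
  simp only [List.append_nil] at this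
  rw [this, e_beg12']
  rfl

lemma s_split0 (r : Ob) (f : List Cl → ℂ) (k : Cl) (t : List Cl) :
    stepL v D ⟨[], .split, r⟩ f (k :: t) =
      f (k.nx :: k.nx.nx :: t) - f (k.nx.nx :: k.nx :: t) := by
  simp [stepL_def, cnt, Letter.cnt, ker_split, Gen.src]
  ring

lemma s_split1 (a : Strand) (r : Ob) (f : List Cl → ℂ) (i k : Cl) (t : List Cl) :
    stepL v D ⟨[.str a], .split, r⟩ f (i :: k :: t) =
      f (i :: k.nx :: k.nx.nx :: t) - f (i :: k.nx.nx :: k.nx :: t) := by
  simp [stepL_def, cnt, Letter.cnt, ker_split, Gen.src]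
  ring

lemma s_split2 (a b : Strand) (r : Ob) (f : List Cl → ℂ) (i j k : Cl) (t : List Cl) :
    stepL v D ⟨[.str a, .str b], .split, r⟩ f (i :: j :: k :: t) =
      f (i :: j :: k.nx :: k.nx.nx :: t) - f (i :: j :: k.nx.nx :: k.nx :: t) := by
  simp [stepL_def, cnt, Letter.cnt, ker_split, Gen.src]
  ring

/-- the merge of two colours -/
noncomputable def mg (f : Cl → ℂ) (i j : Cl) : ℂ :=
  if j = i.nx then f i.nx.nx else if j = i.nx.nx then - f i.nx else 0

lemma s_merge0 (r : Ob) (f : List Cl → ℂ) (i j : Cl) (t : List Cl) :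
    stepL v D ⟨[], .merge, r⟩ f (i :: j :: t) = mg (fun k => f (k :: t)) i j := by
  by_cases h1 : j = i.nx
  · simp [stepL_def, cnt, Letter.cnt, ker_merge, Gen.src, mg, h1]
  · by_cases h2 : j = i.nx.nx
    · subst h2
      simp [stepL_def, cnt, Letter.cnt, ker_merge, Gen.src, mg, h1]
    · simp [stepL_def, cnt, Letter.cnt, ker_merge, Gen.src, mg, h1, h2]

lemma s_merge1 (a : Strand) (r : Ob) (f : List Cl → ℂ) (l i j : Cl) (t : List Cl) :
    stepL v D ⟨[.str a], .merge, r⟩ f (l :: i :: j :: t) = mg (fun k => f (l :: k :: t)) i j := by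
  by_cases h1 : j = i.nx
  · simp [stepL_def, cnt, Letter.cnt, ker_merge, Gen.src, mg, h1]
  · by_cases h2 : j = i.nx.nx
    · subst h2
      simp [stepL_def, cnt, Letter.cnt, ker_merge, Gen.src, mg, h1]
    · simp [stepL_def, cnt, Letter.cnt, ker_merge, Gen.src, mg, h1, h2]

lemma s_merge2 (a b : Strand) (r : Ob) (f : List Cl → ℂ) (l l' i j : Cl) (t : List Cl) :
    stepL v D ⟨[.str a, .str b], .merge, r⟩ f (l :: l' :: i :: j :: t) =
      mg (fun k => f (l :: l' :: k :: t)) i j := by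
  by_cases h1 : j = i.nx
  · simp [stepL_def, cnt, Letter.cnt, ker_merge, Gen.src, mg, h1]
  · by_cases h2 : j = i.nx.nx
    · subst h2
      simp [stepL_def, cnt, Letter.cnt, ker_merge, Gen.src, mg, h1]
    · simp [stepL_def, cnt, Letter.cnt, ker_merge, Gen.src, mg, h1, h2]

lemma s_cup0 (a : Strand) (r : Ob) (f : List Cl → ℂ) (t : List Cl) :
    stepL v D ⟨[], .cup a, r⟩ f t =
      f (.c0 :: .c0 :: t) + (f (.c1 :: .c1 :: t) + f (.c2 :: .c2 :: t)) := by
  simp [stepL_def, cnt, Letter.cnt, ker_cup, Gen.src]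

lemma s_cup1 (b a : Strand) (r : Ob) (f : List Cl → ℂ) (i : Cl) (t : List Cl) :
    stepL v D ⟨[.str b], .cup a, r⟩ f (i :: t) =
      f (i :: .c0 :: .c0 :: t) + (f (i :: .c1 :: .c1 :: t) + f (i :: .c2 :: .c2 :: t)) := by
  simp [stepL_def, cnt, Letter.cnt, ker_cup, Gen.src]

lemma s_cup2 (c b a : Strand) (r : Ob) (f : List Cl → ℂ) (i j : Cl) (t : List Cl) :
    stepL v D ⟨[.str c, .str b], .cup a, r⟩ f (i :: j :: t) =
      f (i :: j :: .c0 :: .c0 :: t) + (f (i :: j :: .c1 :: .c1 :: t) +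
        f (i :: j :: .c2 :: .c2 :: t)) := by
  simp [stepL_def, cnt, Letter.cnt, ker_cup, Gen.src]

lemma s_cap0 (a : Strand) (r : Ob) (f : List Cl → ℂ) (i j : Cl) (t : List Cl) :
    stepL v D ⟨[], .cap a, r⟩ f (i :: j :: t) = if i = j then f t else 0 := by
  by_cases h : i = j <;> simp [stepL_def, cnt, Letter.cnt, ker_cap, Gen.src, h]

lemma s_cap1 (b a : Strand) (r : Ob) (f : List Cl → ℂ) (k i j : Cl) (t : List Cl) :
    stepL v D ⟨[.str b], .cap a, r⟩ f (k :: i :: j :: t) = if i = j then f (k :: t) else 0 := by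
  by_cases h : i = j <;> simp [stepL_def, cnt, Letter.cnt, ker_cap, Gen.src, h]

lemma s_cap2 (c b a : Strand) (r : Ob) (f : List Cl → ℂ) (l k i j : Cl) (t : List Cl) :
    stepL v D ⟨[.str c, .str b], .cap a, r⟩ f (l :: k :: i :: j :: t) =
      if i = j then f (l :: k :: t) else 0 := by
  by_cases h : i = j <;> simp [stepL_def, cnt, Letter.cnt, ker_cap, Gen.src, h]

lemma s_tag0 (a : Strand) (r : Ob) (f : List Cl → ℂ) (t : List Cl) (i : Cl) :
    stepL v D ⟨[], .tag a, r⟩ f (i :: t) = f (i :: t) := by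
  simp [stepL_def, cnt, Letter.cnt, ker_tag, Gen.src]

lemma s_tag1 (b a : Strand) (r : Ob) (f : List Cl → ℂ) (t : List Cl) (i j : Cl) :
    stepL v D ⟨[.str b], .tag a, r⟩ f (i :: j :: t) = f (i :: j :: t) := by
  simp [stepL_def, cnt, Letter.cnt, ker_tag, Gen.src]

lemma s_ss0 (b : Bool) (x y : Strand) (r : Ob) (f : List Cl → ℂ) (i j : Cl) (t : List Cl) :
    stepL v D ⟨[], .cross b (.str x) (.str y), r⟩ f (i :: j :: t) =
      ph v b x y * f (j :: i :: t) := by
  simp [stepL_def, cnt, Letter.cnt, ker_ss, Gen.src]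

lemma s_ss1 (b : Bool) (a x y : Strand) (r : Ob) (f : List Cl → ℂ) (k i j : Cl) (t : List Cl) :
    stepL v D ⟨[.str a], .cross b (.str x) (.str y), r⟩ f (k :: i :: j :: t) =
      ph v b x y * f (k :: j :: i :: t) := by
  simp [stepL_def, cnt, Letter.cnt, ker_ss, Gen.src]

set_option maxHeartbeats 1000000 in
/-- the evaluation satisfies the relations -/
theorem check (hv : v ^ 3 = 1) {x y : Ob} {c c' : Comb} (h : Loc v x y c c') (f : List Cl → ℂ)
    (t : List Cl) (ht : t.length = cnt x) : lv v D c f t = lv v D c' f t := by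
  have hv0 : v ≠ 0 := by rintro rfl; norm_num at hv
  have i1 : v⁻¹ = v ^ 2 := by field_simp; linear_combination -hv
  have i2 : (v ^ 2)⁻¹ = v := by field_simp; linear_combination -hv
  have i6 : v ^ 6 = 1 := by
    calc v ^ 6 = (v ^ 3) ^ 2 := by ring
      _ = 1 := by rw [hv]; norm_num
  cases h with
  | exch g h m hg hh =>
    obtain ⟨a, b, c, rfl, ha, hb, hc⟩ := split_length ht
    rw [lv_one, lv_one, ev_cons, ev_cons, ev_cons, ev_cons, ev_nil]
    congr 1
    have e1 : a ++ b ++ c = [] ++ a ++ (b ++ c) := by simp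
    have e2 : a ++ b ++ c = (a ++ b) ++ c ++ [] := by simp
    have h1 : stepL v D ⟨[], g, m ++ h.src⟩ (stepL v D ⟨g.tgt ++ m, h, []⟩ f) (a ++ b ++ c) =
        ((ker v D g a).map fun p => p.1 * ((ker v D h c).map fun q =>
          q.1 * f (p.2 ++ b ++ q.2)).sum).sum := by
      rw [e1, stepL_apply _ _ _ _ _ _ _ _ _ rfl ha]
      congr 1
      refine List.map_congr_left fun p hp => ?_
      have e3 : [] ++ p.2 ++ (b ++ c) = (p.2 ++ b) ++ c ++ [] := by simp
      rw [e3, stepL_apply _ _ _ _ _ _ _ _ _ (by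
        rw [List.length_append, ker_length _ _ _ _ _ hp, hb, cnt_append]) hc]
      simp
    have h2 : stepL v D ⟨g.src ++ m, h, []⟩ (stepL v D ⟨[], g, m ++ h.tgt⟩ f) (a ++ b ++ c) =
        ((ker v D h c).map fun q => q.1 * ((ker v D g a).map fun p =>
          p.1 * f (p.2 ++ b ++ q.2)).sum).sum := by
      rw [e2, stepL_apply _ _ _ _ _ _ _ _ _ (by rw [List.length_append, ha, hb, cnt_append]) hc]
      congr 1
      refine List.map_congr_left fun q hq => ?_
      have e3 : (a ++ b) ++ q.2 ++ [] = [] ++ a ++ (b ++ q.2) := by simp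
      rw [e3, stepL_apply _ _ _ _ _ _ _ _ _ rfl ha]
      simp
    rw [h1, h2]
    exact sum_swap _ _ fun p q => f (p ++ b ++ q)
  | slide b x' g h =>
    rw [lv_one, lv_one, check_slide hv b x' g h f t ht]
  | r2 b x' y' h =>
    rw [lv_one, lv_one]
    rcases x' with x' | x' <;> rcases y' with y' | y'
    · obtain ⟨i, j, rfl⟩ := len2 (by simpa [cnt, Letter.cnt] using ht)
      have h' : ∀ F : ℂ, ph v b x' y' * (ph v (!b) y' x' * F) = F := fun F => by
        rw [← mul_assoc, ph_inv hv, one_mul]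
      simp [ev_cons, ev_nil, stepL_def, cnt, Letter.cnt, ker_ss, Gen.src, h']
    · obtain ⟨i, rfl⟩ := len1 (by simpa [cnt, Letter.cnt] using ht)
      have h' : ∀ F : ℂ, hr v D b y' x' i * (hl v D (!b) y' x' i * F) = F := fun F => by
        rw [← mul_assoc, hrl hv, one_mul]
      simp [ev_cons, ev_nil, stepL_def, cnt, Letter.cnt, ker_sp, ker_ps, Gen.src, h']
    · obtain ⟨i, rfl⟩ := len1 (by simpa [cnt, Letter.cnt] using ht)
      have h' : ∀ F : ℂ, hl v D b x' y' i * (hr v D (!b) x' y' i * F) = F := fun F => by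
        have := hrl (v := v) (D := D) hv (!b) x' y' i
        rw [Bool.not_not] at this
        rw [← mul_assoc, mul_comm (hl _ _ _ _ _ _), this, one_mul]
      simp [ev_cons, ev_nil, stepL_def, cnt, Letter.cnt, ker_sp, ker_ps, Gen.src, h']
    · exact absurd h (by simp [Gen.Ok])
  | zig a =>
    obtain ⟨i, rfl⟩ := len1 (by simpa [cnt, Letter.cnt] using ht)
    cases i <;>
    simp [lv, ev_cons, ev_nil, ev_append, s_split0, s_split1, s_split2, s_merge0, s_merge1, s_merge2, s_cup0, s_cup1, s_cup2, s_cap0, s_cap1, s_cap2,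
      s_tag0, s_tag1, s_ss0, s_ss1, e_end21', e_end12', e_beg21', e_beg12', e_end12u, e_beg12u, mg]
  | zag a =>
    obtain ⟨i, rfl⟩ := len1 (by simpa [cnt, Letter.cnt] using ht)
    cases i <;>
    simp [lv, ev_cons, ev_nil, ev_append, s_split0, s_split1, s_split2, s_merge0, s_merge1, s_merge2, s_cup0, s_cup1, s_cup2, s_cap0, s_cap1, s_cap2,
      s_tag0, s_tag1, s_ss0, s_ss1, e_end21', e_end12', e_beg21', e_beg12', e_end12u, e_beg12u, mg]
  | r1 b a =>
    obtain ⟨i, rfl⟩ := len1 (by simpa [cnt, Letter.cnt] using ht)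
    cases i <;>
    simp [lv, ev_cons, ev_nil, ev_append, s_split0, s_split1, s_split2, s_merge0, s_merge1, s_merge2, s_cup0, s_cup1, s_cup2, s_cap0, s_cap1, s_cap2,
      s_tag0, s_tag1, s_ss0, s_ss1, e_end21', e_end12', e_beg21', e_beg12', e_end12u, e_beg12u, mg]
  | rotTagR a =>
    obtain ⟨i, rfl⟩ := len1 (by simpa [cnt, Letter.cnt] using ht)
    cases i <;>
    simp [lv, ev_cons, ev_nil, ev_append, s_split0, s_split1, s_split2, s_merge0, s_merge1, s_merge2, s_cup0, s_cup1, s_cup2, s_cap0, s_cap1, s_cap2,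
      s_tag0, s_tag1, s_ss0, s_ss1, e_end21', e_end12', e_beg21', e_beg12', e_end12u, e_beg12u, mg]
  | rotTagL a =>
    obtain ⟨i, rfl⟩ := len1 (by simpa [cnt, Letter.cnt] using ht)
    cases i <;>
    simp [lv, ev_cons, ev_nil, ev_append, s_split0, s_split1, s_split2, s_merge0, s_merge1, s_merge2, s_cup0, s_cup1, s_cup2, s_cap0, s_cap1, s_cap2,
      s_tag0, s_tag1, s_ss0, s_ss1, e_end21', e_end12', e_beg21', e_beg12', e_end12u, e_beg12u, mg]
  | tags a =>
    obtain ⟨i, rfl⟩ := len1 (by simpa [cnt, Letter.cnt] using ht)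
    simp [lv, ev_cons, ev_nil, ev_append, s_split0, s_split1, s_split2, s_merge0, s_merge1, s_merge2, s_cup0, s_cup1, s_cup2, s_cap0, s_cap1, s_cap2,
      s_tag0, s_tag1, s_ss0, s_ss1, e_end21', e_end12', e_beg21', e_beg12', e_end12u, e_beg12u, mg]
  | circle a =>
    obtain rfl := len0 (by simpa [cnt, Letter.cnt] using ht)
    simp [lv, ev_cons, ev_nil, ev_append, s_split0, s_split1, s_split2, s_merge0, s_merge1, s_merge2, s_cup0, s_cup1, s_cup2, s_cap0, s_cap1, s_cap2,
      s_tag0, s_tag1, s_ss0, s_ss1, e_end21', e_end12', e_beg21', e_beg12', e_end12u, e_beg12u, mg, i6]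
    ring
  | bigon =>
    obtain ⟨i, rfl⟩ := len1 (by simpa [cnt, Letter.cnt] using ht)
    cases i <;>
    simp [lv, ev_cons, ev_nil, ev_append, s_split0, s_split1, s_split2, s_merge0, s_merge1, s_merge2, s_cup0, s_cup1, s_cup2, s_cap0, s_cap1, s_cap2,
      s_tag0, s_tag1, s_ss0, s_ss1, e_end21', e_end12', e_beg21', e_beg12', e_end12u, e_beg12u, mg, Cl.nx, hv] <;> ring
  | bigonR =>
    obtain ⟨i, rfl⟩ := len1 (by simpa [cnt, Letter.cnt] using ht)
    cases i <;>
    simp [lv, ev_cons, ev_nil, ev_append, s_split0, s_split1, s_split2, s_merge0, s_merge1, s_merge2, s_cup0, s_cup1, s_cup2, s_cap0, s_cap1, s_cap2,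
      s_tag0, s_tag1, s_ss0, s_ss1, e_end21', e_end12', e_beg21', e_beg12', e_end12u, e_beg12u, mg, Cl.nx, hv] <;> ring
  | bigonL =>
    obtain ⟨i, rfl⟩ := len1 (by simpa [cnt, Letter.cnt] using ht)
    cases i <;>
    simp [lv, ev_cons, ev_nil, ev_append, s_split0, s_split1, s_split2, s_merge0, s_merge1, s_merge2, s_cup0, s_cup1, s_cup2, s_cap0, s_cap1, s_cap2,
      s_tag0, s_tag1, s_ss0, s_ss1, e_end21', e_end12', e_beg21', e_beg12', e_end12u, e_beg12u, mg, Cl.nx, hv] <;> ring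
  | rotMerge =>
    obtain ⟨i, rfl⟩ := len1 (by simpa [cnt, Letter.cnt] using ht)
    cases i <;>
    simp [lv, ev_cons, ev_nil, ev_append, s_split0, s_split1, s_split2, s_merge0, s_merge1, s_merge2, s_cup0, s_cup1, s_cup2, s_cap0, s_cap1, s_cap2,
      s_tag0, s_tag1, s_ss0, s_ss1, e_end21', e_end12', e_beg21', e_beg12', e_end12u, e_beg12u, mg, Cl.nx] <;> ring
  | rotSplit =>
    obtain ⟨i, j, rfl⟩ := len2 (by simpa [cnt, Letter.cnt] using ht)
    cases i <;> cases j <;>
    simp [lv, ev_cons, ev_nil, ev_append, s_split0, s_split1, s_split2, s_merge0, s_merge1, s_merge2, s_cup0, s_cup1, s_cup2, s_cap0, s_cap1, s_cap2,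
      s_tag0, s_tag1, s_ss0, s_ss1, e_end21', e_end12', e_beg21', e_beg12', e_end12u, e_beg12u, mg, Cl.nx]
  | assocEnd =>
    obtain ⟨i, j, k, rfl⟩ := len3 (by simpa [cnt, Letter.cnt] using ht)
    cases i <;> cases j <;> cases k <;>
    simp [lv, ev_cons, ev_nil, ev_append, s_split0, s_split1, s_split2, s_merge0, s_merge1, s_merge2, s_cup0, s_cup1, s_cup2, s_cap0, s_cap1, s_cap2,
      s_tag0, s_tag1, s_ss0, s_ss1, e_end21', e_end12', e_beg21', e_beg12', e_end12u, e_beg12u, mg, Cl.nx]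
  | assocBeg =>
    obtain rfl := len0 (by simpa [cnt, Letter.cnt] using ht)
    simp [lv, ev_cons, ev_nil, ev_append, s_split0, s_split1, s_split2, s_merge0, s_merge1, s_merge2, s_cup0, s_cup1, s_cup2, s_cap0, s_cap1, s_cap2,
      s_tag0, s_tag1, s_ss0, s_ss1, e_end21', e_end12', e_beg21', e_beg12', e_end12u, e_beg12u, mg, Cl.nx]
    ring
  | squareL =>
    obtain ⟨i, j, rfl⟩ := len2 (by simpa [cnt, Letter.cnt] using ht)
    cases i <;> cases j <;>
    simp [lv, ev_cons, ev_nil, ev_append, s_split0, s_split1, s_split2, s_merge0, s_merge1, s_merge2, s_cup0, s_cup1, s_cup2, s_cap0, s_cap1, s_cap2,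
      s_tag0, s_tag1, s_ss0, s_ss1, e_end21', e_end12', e_beg21', e_beg12', e_end12u, e_beg12u, mg, Cl.nx] <;>
    ring
  | squareR =>
    obtain ⟨i, j, rfl⟩ := len2 (by simpa [cnt, Letter.cnt] using ht)
    cases i <;> cases j <;>
    simp [lv, ev_cons, ev_nil, ev_append, s_split0, s_split1, s_split2, s_merge0, s_merge1, s_merge2, s_cup0, s_cup1, s_cup2, s_cap0, s_cap1, s_cap2,
      s_tag0, s_tag1, s_ss0, s_ss1, e_end21', e_end12', e_beg21', e_beg12', e_end12u, e_beg12u, mg, Cl.nx] <;>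
    ring
  | cross11 =>
    have e : ph v true (.up .one) (.up .one) = v ^ 2 := by
      rw [ph, if_pos rfl, show -(Strand.w (.up .one) * Strand.w (.up .one)) = (2 : ZMod 3) from by
        decide, chi_two]
    obtain ⟨i, j, rfl⟩ := len2 (by simpa [cnt, Letter.cnt] using ht)
    cases i <;> cases j <;>
    simp [lv, ev_cons, ev_nil, ev_append, s_split0, s_split1, s_split2, s_merge0, s_merge1, s_merge2, s_cup0, s_cup1, s_cup2, s_cap0, s_cap1, s_cap2,
      s_tag0, s_tag1, s_ss0, s_ss1, e_end21', e_end12', e_beg21', e_beg12', e_end12u, e_beg12u, mg, Cl.nx, e, i1] <;> ring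
  | cross11' =>
    have e : ph v false (.up .one) (.up .one) = v := by
      rw [ph, if_neg (by simp), show (Strand.w (.up .one) * Strand.w (.up .one)) = (1 : ZMod 3) from
        by decide, chi_one]
    obtain ⟨i, j, rfl⟩ := len2 (by simpa [cnt, Letter.cnt] using ht)
    cases i <;> cases j <;>
    simp [lv, ev_cons, ev_nil, ev_append, s_split0, s_split1, s_split2, s_merge0, s_merge1, s_merge2, s_cup0, s_cup1, s_cup2, s_cap0, s_cap1, s_cap2,
      s_tag0, s_tag1, s_ss0, s_ss1, e_end21', e_end12', e_beg21', e_beg12', e_end12u, e_beg12u, mg, Cl.nx, e, i2] <;> ring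
  | cross12 =>
    have e : ph v true (.up .one) (.up .two) = v := by
      rw [ph, if_pos rfl, show -(Strand.w (.up .one) * Strand.w (.up .two)) = (1 : ZMod 3) from by
        decide, chi_one]
    obtain ⟨i, j, rfl⟩ := len2 (by simpa [cnt, Letter.cnt] using ht)
    cases i <;> cases j <;>
    simp [lv, ev_cons, ev_nil, ev_append, s_split0, s_split1, s_split2, s_merge0, s_merge1, s_merge2, s_cup0, s_cup1, s_cup2, s_cap0, s_cap1, s_cap2,
      s_tag0, s_tag1, s_ss0, s_ss1, e_end21', e_end12', e_beg21', e_beg12', e_end12u, e_beg12u, mg, Cl.nx, e, i2] <;> ring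
  | cross12' =>
    have e : ph v false (.up .one) (.up .two) = v ^ 2 := by
      rw [ph, if_neg (by simp), show (Strand.w (.up .one) * Strand.w (.up .two)) = (2 : ZMod 3) from
        by decide, chi_two]
    obtain ⟨i, j, rfl⟩ := len2 (by simpa [cnt, Letter.cnt] using ht)
    cases i <;> cases j <;>
    simp [lv, ev_cons, ev_nil, ev_append, s_split0, s_split1, s_split2, s_merge0, s_merge1, s_merge2, s_cup0, s_cup1, s_cup2, s_cap0, s_cap1, s_cap2,
      s_tag0, s_tag1, s_ss0, s_ss1, e_end21', e_end12', e_beg21', e_beg12', e_end12u, e_beg12u, mg, Cl.nx, e, i1] <;> ring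
  | cross21 =>
    have e : ph v true (.up .two) (.up .one) = v := by
      rw [ph, if_pos rfl, show -(Strand.w (.up .two) * Strand.w (.up .one)) = (1 : ZMod 3) from by
        decide, chi_one]
    obtain ⟨i, j, rfl⟩ := len2 (by simpa [cnt, Letter.cnt] using ht)
    cases i <;> cases j <;>
    simp [lv, ev_cons, ev_nil, ev_append, s_split0, s_split1, s_split2, s_merge0, s_merge1, s_merge2, s_cup0, s_cup1, s_cup2, s_cap0, s_cap1, s_cap2,
      s_tag0, s_tag1, s_ss0, s_ss1, e_end21', e_end12', e_beg21', e_beg12', e_end12u, e_beg12u, mg, Cl.nx, e, i2] <;> ring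
  | cross21' =>
    have e : ph v false (.up .two) (.up .one) = v ^ 2 := by
      rw [ph, if_neg (by simp), show (Strand.w (.up .two) * Strand.w (.up .one)) = (2 : ZMod 3) from
        by decide, chi_two]
    obtain ⟨i, j, rfl⟩ := len2 (by simpa [cnt, Letter.cnt] using ht)
    cases i <;> cases j <;>
    simp [lv, ev_cons, ev_nil, ev_append, s_split0, s_split1, s_split2, s_merge0, s_merge1, s_merge2, s_cup0, s_cup1, s_cup2, s_cap0, s_cap1, s_cap2,
      s_tag0, s_tag1, s_ss0, s_ss1, e_end21', e_end12', e_beg21', e_beg12', e_end12u, e_beg12u, mg, Cl.nx, e, i1] <;> ring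
  | cross22 =>
    have e : ph v true (.up .two) (.up .two) = v ^ 2 := by
      rw [ph, if_pos rfl, show -(Strand.w (.up .two) * Strand.w (.up .two)) = (2 : ZMod 3) from by
        decide, chi_two]
    obtain ⟨i, j, rfl⟩ := len2 (by simpa [cnt, Letter.cnt] using ht)
    cases i <;> cases j <;>
    simp [lv, ev_cons, ev_nil, ev_append, s_split0, s_split1, s_split2, s_merge0, s_merge1, s_merge2, s_cup0, s_cup1, s_cup2, s_cap0, s_cap1, s_cap2,
      s_tag0, s_tag1, s_ss0, s_ss1, e_end21', e_end12', e_beg21', e_beg12', e_end12u, e_beg12u, mg, Cl.nx, e, i1] <;> ring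
  | cross22' =>
    have e : ph v false (.up .two) (.up .two) = v := by
      rw [ph, if_neg (by simp), show (Strand.w (.up .two) * Strand.w (.up .two)) = (1 : ZMod 3) from
        by decide, chi_one]
    obtain ⟨i, j, rfl⟩ := len2 (by simpa [cnt, Letter.cnt] using ht)
    cases i <;> cases j <;>
    simp [lv, ev_cons, ev_nil, ev_append, s_split0, s_split1, s_split2, s_merge0, s_merge1, s_merge2, s_cup0, s_cup1, s_cup2, s_cap0, s_cap1, s_cap2,
      s_tag0, s_tag1, s_ss0, s_ss1, e_end21', e_end12', e_beg21', e_beg12', e_end12u, e_beg12u, mg, Cl.nx, e, i2] <;> ring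

end Pool.Agent.K1H60.SK
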