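import Pool.Agent.K1H60.SK.Defs

/-! Calculus with diagrams up to scalars, and central elements at `q = 1`. -/

set_option autoImplicit false

namespace Pool.Agent.K1H60.SK

lemma ctx_append (l r : Ob) (p q : Word) : ctx l r (p ++ q) = ctx l r p ++ ctx l r q := by
  simp [ctx]

lemma ctx_cons (l r : Ob) (s : Slice) (q : Word) :
    ctx l r (s :: q) = ⟨l ++ s.l, s.g, s.r ++ r⟩ :: ctx l r q := rfl

lemma ctx_nil (l r : Ob) : ctx l r [] = [] := rfl

lemma ctx_ctx (l r l' r' : Ob) (p : Word) : ctx l r (ctx l' r' p) = ctx (l ++ l') (r' ++ r) p := by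
  simp [ctx, List.map_map, Function.comp_def]

lemma ctx_triv (p : Word) : ctx [] [] p = p := by
  simp [ctx]

lemma IsDiag.ctx {A B : Ob} {p : Word} (h : IsDiag A p B) (l r : Ob) :
    IsDiag (l ++ A ++ r) (SK.ctx l r p) (l ++ B ++ r) := by
  induction p generalizing A with
  | nil => cases h; rfl
  | cons s p ih =>
    obtain ⟨h1, h2, h3⟩ := h
    refine ⟨?_, h2, ?_⟩
    · simp [h1]
    · have := ih h3
      show IsDiag _ (SK.ctx l r p) _
      simpa using this

lemma IsDiag.cast {A B A' B' : Ob} {p : Word} (h : IsDiag A p B) (hA : A = A') (hB : B = B') :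
    IsDiag A' p B' := by
  subst hA hB; exact h

lemma isDiag_go' (β : Letter → Bool) (x : Letter) (A : Ob)
    (h : ∀ y ∈ A, (∃ a, x = .str a) ∨ ∃ a, y = .str a) :
    IsDiag (x :: A) (go β x A) (A ++ [x]) := by
  induction A with
  | nil => rfl
  | cons y A ih =>
    refine ⟨rfl, ?_, ?_⟩
    · rcases h y (by simp) with ⟨a, rfl⟩ | ⟨a, rfl⟩
      · trivial
      · cases x <;> trivial
    · have := (ih fun z hz => h z (by simp [hz])).ctx [y] []
      simpa [Gen.tgt] using this

lemma isDiag_go (β : Letter → Bool) (a : Strand) (A : Ob) :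
    IsDiag (.str a :: A) (go β (.str a) A) (A ++ [.str a]) :=
  isDiag_go' β _ A fun _ _ => Or.inl ⟨_, rfl⟩

lemma isDiag_back (γ : Letter → Bool) (a : Strand) (A : Ob) :
    IsDiag (A ++ [.str a]) (back γ (.str a) A) (.str a :: A) := by
  induction A with
  | nil => rfl
  | cons y A ih =>
    have h1 := ih.ctx [y] []
    have h2 : IsDiag ([y] ++ (.str a :: A) ++ []) [⟨[], .cross (γ y) y (.str a), A⟩]
        (.str a :: y :: A) := by
      refine ⟨by simp [Gen.src], ?_, by simp [IsDiag, Gen.tgt]⟩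
      cases y <;> trivial
    have := h1.append h2
    simpa [back] using this

lemma go_append (β : Letter → Bool) (x : Letter) (A B : Ob) :
    go β x (A ++ B) = ctx [] B (go β x A) ++ ctx A [] (go β x B) := by
  induction A with
  | nil => simp [go, ctx_nil, ctx_triv]
  | cons y A ih =>
    simp only [List.cons_append, go, ih, ctx_cons, ctx_append, ctx_ctx, List.nil_append,
      List.append_nil]

lemma go_congr (β β' : Letter → Bool) (x : Letter) (A : Ob) (h : ∀ y ∈ A, β y = β' y) :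
    go β x A = go β' x A := by
  induction A with
  | nil => rfl
  | cons y A ih =>
    simp only [go]
    rw [h y (by simp), ih (fun z hz => h z (by simp [hz]))]

lemma slide_tgt {x : Letter} {g : Gen} (h : SlideOk x g) :
    ∀ y ∈ g.tgt, (∃ a, x = .str a) ∨ ∃ a, y = .str a := by
  intro y hy
  cases g with
  | cup a => right; simp only [Gen.tgt, List.mem_cons, List.not_mem_nil, or_false] at hy
             rcases hy with rfl | rfl <;> exact ⟨_, rfl⟩
  | cap a => simp [Gen.tgt] at hy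
  | merge => right; simp only [Gen.tgt, List.mem_cons, List.not_mem_nil, or_false] at hy
             exact ⟨_, hy⟩
  | split => right; simp only [Gen.tgt, List.mem_cons, List.not_mem_nil, or_false] at hy
             rcases hy with rfl | rfl <;> exact ⟨_, rfl⟩
  | tag a => right; simp only [Gen.tgt, List.mem_cons, List.not_mem_nil, or_false] at hy
             exact ⟨_, hy⟩
  | cross b y' z =>
    simp only [Gen.tgt, List.mem_cons, List.not_mem_nil, or_false] at hy
    exact h.2 y (by simp only [Gen.src, List.mem_cons, List.not_mem_nil, or_false]; tauto)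

/-- all the words of a local relation are diagrams with the same boundaries -/
lemma Loc.valid {v : ℂ} {x y : Ob} {c c' : Comb} (h : Loc v x y c c') :
    (∀ p ∈ c, IsDiag x p.2 y) ∧ ∀ p ∈ c', IsDiag x p.2 y := by
  cases h with
  | exch g h m hg hh =>
    refine ⟨?_, ?_⟩ <;> intro p hp <;> rw [List.mem_singleton] at hp <;> subst hp <;>
      simp [IsDiag, hg, hh]
  | r2 b x' y' h =>
    refine ⟨?_, ?_⟩ <;> intro p hp <;> rw [List.mem_singleton] at hp <;> subst hp
    · refine ⟨by simp [Gen.src], h, by simp [Gen.src, Gen.tgt], ?_, by simp [IsDiag, Gen.tgt]⟩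
      revert h
      cases x' <;> cases y' <;> simp [Gen.Ok]
    · simp [IsDiag]
  | slide b x' g h =>
    refine ⟨?_, ?_⟩ <;> intro p hp <;> rw [List.mem_singleton] at hp <;> subst hp
    · refine (isDiag_go' _ _ _ h.2).append ?_
      simp [IsDiag, h.1]
    · refine ⟨by simp, h.1, ?_⟩
      have := isDiag_go' (fun _ => b) x' _ (slide_tgt h)
      simpa using this
  | rotTagR a =>
    refine ⟨?_, ?_⟩ <;> intro p hp <;> rw [List.mem_singleton] at hp <;> subst hp <;>
      rcases a with (_ | _) | (_ | _) <;>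
      simp [IsDiag, Gen.src, Gen.tgt, Gen.Ok, Strand.dual, Strand.flip, Wt.co]
  | rotTagL a =>
    refine ⟨?_, ?_⟩ <;> intro p hp <;> rw [List.mem_singleton] at hp <;> subst hp <;>
      rcases a with (_ | _) | (_ | _) <;>
      simp [IsDiag, Gen.src, Gen.tgt, Gen.Ok, Strand.dual, Strand.flip, Wt.co]
  | zig a =>
    refine ⟨?_, ?_⟩ <;> intro p hp <;> rw [List.mem_singleton] at hp <;> subst hp <;>
      cases a <;> simp [IsDiag, Gen.src, Gen.tgt, Gen.Ok, Strand.dual]
  | zag a =>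
    refine ⟨?_, ?_⟩ <;> intro p hp <;> rw [List.mem_singleton] at hp <;> subst hp <;>
      cases a <;> simp [IsDiag, Gen.src, Gen.tgt, Gen.Ok, Strand.dual]
  | r1 b a =>
    refine ⟨?_, ?_⟩ <;> intro p hp <;> rw [List.mem_singleton] at hp <;> subst hp <;>
      cases a <;> simp [IsDiag, Gen.src, Gen.tgt, Gen.Ok, Strand.dual]
  | circle a =>
    refine ⟨?_, ?_⟩ <;> intro p hp <;> rw [List.mem_singleton] at hp <;> subst hp <;>
      simp [IsDiag, Gen.src, Gen.tgt, Gen.Ok]
  | tags a =>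
    refine ⟨?_, ?_⟩ <;> intro p hp <;> rw [List.mem_singleton] at hp <;> subst hp <;>
      rcases a with (_ | _) | (_ | _) <;>
      simp [IsDiag, Gen.src, Gen.tgt, Gen.Ok, Strand.flip, Wt.co]
  | rotMerge | rotSplit | bigon | bigonR | bigonL | assocEnd | assocBeg =>
    refine ⟨?_, ?_⟩ <;> intro p hp <;> rw [List.mem_singleton] at hp <;> subst hp <;>
      simp [IsDiag, Gen.src, Gen.tgt, Gen.Ok, Strand.dual, Strand.flip, Wt.co, end21, end12,
        beg21, beg12]
  | squareL | squareR | cross11 | cross11' | cross12 | cross12' | cross21 | cross21' | cross22 |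
      cross22' =>
    refine ⟨?_, ?_⟩ <;> intro p hp <;> simp only [List.mem_cons, List.not_mem_nil, or_false] at hp
    · subst hp
      simp [IsDiag, Gen.src, Gen.tgt, Gen.Ok]
    · rcases hp with hp | hp <;> subst hp <;>
      simp [IsDiag, Gen.src, Gen.tgt, Gen.Ok, Strand.dual, Strand.flip, Wt.co, end21, end12,
        beg21, beg12, ctx]

section
variable {m : ℕ} {v : ℂ}

lemma skein_close (u t : Word) (l r : Ob) (c : Comb) :
    RingQuot.mkAlgHom ℂ (Rel m v) (close m u t l r c) =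
      (c.map fun p => p.1 • skein m v (u ++ ctx l r p.2 ++ t)).sum := by
  unfold close
  rw [map_list_sum, List.map_map]
  congr 1
  refine List.map_congr_left fun p _ => ?_
  simp only [Function.comp_def, map_smul]
  rfl

lemma loc_eq {x y : Ob} {c c' : Comb} (h : Loc v x y c c') (u t : Word) (l r : Ob)
    (hu : IsDiag (poles m) u (l ++ x ++ r)) (ht : IsDiag (l ++ y ++ r) t (poles m)) :
    (c.map fun p => p.1 • skein m v (u ++ ctx l r p.2 ++ t)).sum =
      (c'.map fun p => p.1 • skein m v (u ++ ctx l r p.2 ++ t)).sum := by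
  rw [← skein_close, ← skein_close]
  exact RingQuot.mkAlgHom_rel ℂ (Rel.mk x y c c' h u t l r hu ht)

/-- `p = c p'` in the skein algebra, in all contexts -/
structure LE (m : ℕ) (v : ℂ) (x y : Ob) (c : ℂ) (p p' : Word) : Prop where
  d1 : IsDiag x p y
  d2 : IsDiag x p' y
  eq : ∀ (l r : Ob) (u t : Word), IsDiag (poles m) u (l ++ x ++ r) →
    IsDiag (l ++ y ++ r) t (poles m) →
    skein m v (u ++ ctx l r p ++ t) = c • skein m v (u ++ ctx l r p' ++ t)

lemma LE.of_loc {x y : Ob} {p p' : Word} {c' : ℂ} (h : Loc v x y [(1, p)] [(c', p')]) :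
    LE m v x y c' p p' := by
  refine ⟨h.valid.1 (1, p) (by simp), h.valid.2 (c', p') (by simp), ?_⟩
  intro l r u t hu ht
  have := loc_eq (m := m) h u t l r hu ht
  simpa using this

lemma LE.refl {x y : Ob} {p : Word} (h : IsDiag x p y) : LE m v x y 1 p p :=
  ⟨h, h, fun l r u t _ _ => by simp⟩

lemma LE.trans {x y : Ob} {c c' : ℂ} {p q s : Word} (h : LE m v x y c p q)
    (h' : LE m v x y c' q s) : LE m v x y (c * c') p s :=
  ⟨h.d1, h'.d2, fun l r u t hu ht => by rw [h.eq l r u t hu ht, h'.eq l r u t hu ht, smul_smul]⟩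

lemma LE.symm {x y : Ob} {c : ℂ} {p q : Word} (hc : c ≠ 0) (h : LE m v x y c p q) :
    LE m v x y c⁻¹ q p :=
  ⟨h.d2, h.d1, fun l r u t hu ht => by
    rw [h.eq l r u t hu ht, smul_smul, inv_mul_cancel₀ hc, one_smul]⟩

lemma LE.append {x y z : Ob} {c c' : ℂ} {p p' q q' : Word} (h : LE m v x y c p p')
    (h' : LE m v y z c' q q') : LE m v x z (c * c') (p ++ q) (p' ++ q') := by
  refine ⟨h.d1.append h'.d1, h.d2.append h'.d2, ?_⟩
  intro l r u t hu ht
  have h1 := h.eq l r u (ctx l r q ++ t) hu ((h'.d1.ctx l r).append ht)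
  have h2 := h'.eq l r (u ++ ctx l r p') t (hu.append (h.d2.ctx l r)) ht
  simp only [ctx_append, List.append_assoc] at h1 h2 ⊢
  rw [h1, h2, smul_smul]

lemma LE.ctx {x y : Ob} {c : ℂ} {p p' : Word} (h : LE m v x y c p p') (l r : Ob) :
    LE m v (l ++ x ++ r) (l ++ y ++ r) c (SK.ctx l r p) (SK.ctx l r p') := by
  refine ⟨h.d1.ctx l r, h.d2.ctx l r, ?_⟩
  intro l' r' u t hu ht
  rw [ctx_ctx, ctx_ctx]
  exact h.eq _ _ u t (hu.cast rfl (by simp)) (ht.cast (by simp) rfl)

lemma LE.cast {x y x' y' : Ob} {c c' : ℂ} {p q p' q' : Word} (h : LE m v x y c p q)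
    (hx : x = x') (hy : y = y') (hp : p = p') (hq : q = q') (hc : c = c') :
    LE m v x' y' c' p' q' := by
  subst hx hy hp hq hc; exact h

/-- equality in all contexts -/
abbrev EQ (m : ℕ) (v : ℂ) (x y : Ob) (p p' : Word) : Prop := LE m v x y 1 p p'

lemma EQ.t {x y : Ob} {p q s : Word} (h : EQ m v x y p q) (h' : EQ m v x y q s) :
    EQ m v x y p s := by
  have := LE.trans h h'
  rwa [one_mul] at this

lemma EQ.s {x y : Ob} {p q : Word} (h : EQ m v x y p q) : EQ m v x y q p := by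
  have := LE.symm one_ne_zero h
  rwa [inv_one] at this

lemma EQ.a {x y z : Ob} {p p' q q' : Word} (h : EQ m v x y p p') (h' : EQ m v y z q q') :
    EQ m v x z (p ++ q) (p' ++ q') := by
  have := LE.append h h'
  rwa [one_mul] at this

lemma EQ.ar {x y z : Ob} {p p' : Word} (h : EQ m v x y p p') {q : Word} (hq : IsDiag y q z) :
    EQ m v x z (p ++ q) (p' ++ q) :=
  h.a (LE.refl hq)

lemma EQ.al {x y z : Ob} {p p' : Word} {q : Word} (hq : IsDiag x q y) (h : EQ m v y z p p') :
    EQ m v x z (q ++ p) (q ++ p') :=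
  EQ.a (LE.refl hq) h

lemma EQ.c {x y x' y' : Ob} {p q p' q' : Word} (h : EQ m v x y p q)
    (hx : x = x') (hy : y = y') (hp : p = p') (hq : q = q') : EQ m v x' y' p' q' :=
  LE.cast h hx hy hp hq rfl

lemma LE.c {x y x' y' : Ob} {p q p' q' : Word} (h : LE m v x y 1 p q)
    (hx : x = x') (hy : y = y') (hp : p = p') (hq : q = q') : EQ m v x' y' p' q' :=
  LE.cast h hx hy hp hq rfl

/-- one piece as a diagram -/
lemma isDiag_one (l r : Ob) (g : Gen) (hg : g.Ok) :
    IsDiag (l ++ g.src ++ r) [⟨l, g, r⟩] (l ++ g.tgt ++ r) := ⟨rfl, hg, rfl⟩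

/-- a piece and a diagram on its right hand side -/
lemma exchR (g : Gen) (hg : g.Ok) : ∀ (p : Word) (A B : Ob), IsDiag A p B →
    EQ m v (g.src ++ A) (g.tgt ++ B) (ctx g.src [] p ++ [⟨[], g, B⟩])
      (⟨[], g, A⟩ :: ctx g.tgt [] p) := by
  intro p
  induction p with
  | nil =>
    intro A B h
    cases h
    exact LE.refl (isDiag_one [] A g hg)
  | cons s p ih =>
    intro A B h
    obtain ⟨h1, h2, h3⟩ := h
    have e1 := ih _ _ h3
    have e2 : EQ m v _ _ [⟨[], g, s.l ++ s.g.src⟩, ⟨g.tgt ++ s.l, s.g, []⟩]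
        [⟨g.src ++ s.l, s.g, []⟩, ⟨[], g, s.l ++ s.g.tgt⟩] :=
      LE.of_loc (Loc.exch g s.g s.l hg h2)
    have e3 := e2.ctx [] s.r
    have e4 := EQ.al (isDiag_one (g.src ++ s.l) s.r s.g h2) (e1.c (x' := g.src ++ s.l ++ s.g.tgt ++ s.r) (by simp) rfl rfl rfl)
    have e5 := EQ.ar (EQ.s e3) (h3.ctx g.tgt [] |>.cast (by simp) rfl)
    have e5' := e5.c (x' := g.src ++ s.l ++ s.g.src ++ s.r) (y' := g.tgt ++ B)
      (q' := ⟨[], g, A⟩ :: ctx g.tgt [] (s :: p)) (by simp) (by simp) rfl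
      (by simp [ctx_cons, ctx_nil, h1])
    refine EQ.c (EQ.t e4 (e5'.c rfl rfl ?_ rfl)) ?_ rfl ?_ rfl
    · simp [ctx_cons, ctx_nil]
    · simp [h1]
    · simp [ctx_cons]

/-- a piece and a diagram on its left hand side -/
lemma exchL (g : Gen) (hg : g.Ok) : ∀ (p : Word) (A B : Ob), IsDiag A p B →
    EQ m v (A ++ g.src) (B ++ g.tgt) (ctx [] g.src p ++ [⟨B, g, []⟩])
      (⟨A, g, []⟩ :: ctx [] g.tgt p) := by
  intro p
  induction p with
  | nil =>
    intro A B h
    cases h
    have := LE.refl (m := m) (v := v) (isDiag_one A [] g hg)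
    exact this.cast (by simp) (by simp) rfl rfl rfl
  | cons s p ih =>
    intro A B h
    obtain ⟨h1, h2, h3⟩ := h
    have e1 := ih _ _ h3
    have e2 : EQ m v _ _ [⟨[], s.g, s.r ++ g.src⟩, ⟨s.g.tgt ++ s.r, g, []⟩]
        [⟨s.g.src ++ s.r, g, []⟩, ⟨[], s.g, s.r ++ g.tgt⟩] :=
      LE.of_loc (Loc.exch s.g g s.r h2 hg)
    have e3 := e2.ctx s.l []
    have e4 := EQ.al (isDiag_one s.l (s.r ++ g.src) s.g h2) (e1.c (x' := s.l ++ s.g.tgt ++ (s.r ++ g.src)) (by simp) rfl rfl rfl)
    have e5 := EQ.ar e3 (h3.ctx [] g.tgt |>.cast (by simp) rfl)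
    have e5' := e5.c (x' := s.l ++ s.g.src ++ (s.r ++ g.src)) (y' := B ++ g.tgt)
      (q' := ⟨A, g, []⟩ :: ctx [] g.tgt (s :: p)) (by simp) (by simp) rfl
      (by simp [ctx_cons, ctx_nil, h1])
    refine EQ.c (EQ.t e4 (e5'.c rfl rfl ?_ rfl)) ?_ rfl ?_ rfl
    · simp [ctx_cons, ctx_nil]
    · simp [h1]
    · simp [ctx_cons]

end

end Pool.Agent.K1H60.SK
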