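import Mathlib

/-!
# The `SL_3`-skein algebra of a sphere with `m + 1` punctures

Webs in `D × [0,1]`, where `D` is the open disc with `m` punctures (a sphere with `m + 1`
punctures), are drawn in a vertical plane. The direction of `[0,1]` is the vertical one, the `m`
lines `puncture × [0,1]` are `m` fixed vertical poles, and the edges of a web pass in front of the
poles or behind them. The product puts one diagram above the other.
-/

set_option autoImplicit false

namespace Pool.Agent.K1H60.SK

/-- the weight of an edge, `1` or `2` -/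
inductive Wt
  | one
  | two
  deriving DecidableEq

/-- the weight `3 - k` -/
def Wt.co : Wt → Wt
  | .one => .two
  | .two => .one

/-- an intersection of an edge with a horizontal line: the edge points upwards or downwards -/
inductive Strand
  | up (k : Wt)
  | dn (k : Wt)
  deriving DecidableEq

/-- the opposite direction -/
def Strand.dual : Strand → Strand
  | .up k => .dn k
  | .dn k => .up k

/-- the edge on the other side of a tag: both edges point towards the tag, or both point away from
it, and their weights are `k` and `3 - k` -/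
def Strand.flip : Strand → Strand
  | .up k => .dn k.co
  | .dn k => .up k.co

/-- a letter is an edge or the pole of index `j` -/
inductive Letter
  | str (a : Strand)
  | pole (j : ℕ)
  deriving DecidableEq

/-- the letters on a horizontal line, from the left to the right -/
abbrev Ob := List Letter

/-- the elementary pieces: minima and maxima of edges, crossings, the two trivalent vertices
(`1 + 1 = 2`) with all edges upwards, and tags. In `cross b x y` the letter `x`, below on the left
hand side, goes to the right hand side, in front of `y` if `b` is true and behind `y` if `b` is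
false. -/
inductive Gen
  | cup (a : Strand)
  | cap (a : Strand)
  | cross (b : Bool) (x y : Letter)
  | merge
  | split
  | tag (a : Strand)
  deriving DecidableEq

/-- the upward edges of weights 1 and 2, as letters -/
abbrev u1 : Letter := .str (.up .one)
abbrev u2 : Letter := .str (.up .two)

/-- the letters below the piece -/
def Gen.src : Gen → Ob
  | .cup _ => []
  | .cap a => [.str a, .str a.dual]
  | .cross _ x y => [x, y]
  | .merge => [u1, u1]
  | .split => [u2]
  | .tag a => [.str a]

/-- the letters above the piece -/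
def Gen.tgt : Gen → Ob
  | .cup a => [.str a, .str a.dual]
  | .cap _ => []
  | .cross _ x y => [y, x]
  | .merge => [u2]
  | .split => [u1, u1]
  | .tag a => [.str a.flip]

/-- two poles do not cross -/
def Gen.Ok : Gen → Prop
  | .cross _ (.pole _) (.pole _) => False
  | _ => True

/-- a horizontal slice of a diagram: an elementary piece with vertical lines on the left hand side
and on the right hand side -/
structure Slice where
  l : Ob
  g : Gen
  r : Ob
  deriving DecidableEq

/-- diagrams, as lists of slices from the bottom to the top -/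
abbrev Word := List Slice

/-- `w` is a diagram with the lower boundary `x` and the upper boundary `y` -/
def IsDiag : Ob → Word → Ob → Prop
  | x, [], y => x = y
  | x, s :: w, y => x = s.l ++ s.g.src ++ s.r ∧ s.g.Ok ∧ IsDiag (s.l ++ s.g.tgt ++ s.r) w y

/-- the vertical lines `l` and `r` are added on the left and right hand side of a diagram -/
def ctx (l r : Ob) (w : Word) : Word := w.map fun s => ⟨l ++ s.l, s.g, s.r ++ r⟩

/-- the poles -/
def poles (m : ℕ) : Ob := (List.range m).map Letter.pole

/-- `x` goes to the right through `A`; it passes in front of `y` if `β y` is true, otherwise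
behind `y` -/
def go (β : Letter → Bool) (x : Letter) : Ob → Word
  | [] => []
  | y :: A => ⟨[], .cross (β y) x y, A⟩ :: ctx [y] [] (go β x A)

/-- `x` goes to the left through `A`; it passes behind `y` if `γ y` is true, otherwise in front of
`y` -/
def back (γ : Letter → Bool) (x : Letter) : Ob → Word
  | [] => []
  | y :: A => ctx [y] [] (back γ x A) ++ [⟨[], .cross (γ y) y x, A⟩]

/-- a combination of diagrams -/
abbrev Comb := List (ℂ × Word)

/-- `x` can cross the letters of `g`: `x` is a strand or `g` involves no pole -/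
def SlideOk (x : Letter) (g : Gen) : Prop :=
  g.Ok ∧ ∀ y ∈ g.src, (∃ a, x = .str a) ∨ ∃ a, y = .str a

/-- vertices with an erased edge of weight 3: the edges 2, 1 end -/
def end21 : Word := [⟨[], .tag (.up .two), [u1]⟩, ⟨[], .cap (.dn .one), []⟩]
/-- the edges 1, 2 end -/
def end12 : Word := [⟨[u1], .tag (.up .two), []⟩, ⟨[], .cap (.up .one), []⟩]
/-- the edges 2, 1 begin -/
def beg21 : Word := [⟨[], .cup (.dn .one), []⟩, ⟨[], .tag (.dn .one), [u1]⟩]
/-- the edges 1, 2 begin -/
def beg12 : Word := [⟨[], .cup (.up .one), []⟩, ⟨[u1], .tag (.dn .one), []⟩]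

/-- The relations between diagrams with the same boundaries. The parameter is `v = q ^ (1/3)`. -/
inductive Loc (v : ℂ) : Ob → Ob → Comb → Comb → Prop
  /- isotopies of the plane -/
  | exch (g h : Gen) (m : Ob) (hg : g.Ok) (hh : h.Ok) :
      Loc v (g.src ++ m ++ h.src) (g.tgt ++ m ++ h.tgt)
        [(1, [⟨[], g, m ++ h.src⟩, ⟨g.tgt ++ m, h, []⟩])]
        [(1, [⟨g.src ++ m, h, []⟩, ⟨[], g, m ++ h.tgt⟩])]
  | zig (a : Strand) : Loc v [.str a] [.str a]
      [(1, [⟨[], .cup a, [.str a]⟩, ⟨[.str a], .cap a.dual, []⟩])] [(1, [])]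
  | zag (a : Strand) : Loc v [.str a] [.str a]
      [(1, [⟨[.str a], .cup a.dual, []⟩, ⟨[], .cap a, [.str a]⟩])] [(1, [])]
  | rotMerge : Loc v [.str (.dn .two)] [.str (.dn .one), .str (.dn .one)]
      [(1, [⟨[.str (.dn .two)], .cup (.up .one), []⟩,
        ⟨[.str (.dn .two), u1], .cup (.up .one), [.str (.dn .one)]⟩,
        ⟨[.str (.dn .two)], .merge, [.str (.dn .one), .str (.dn .one)]⟩,
        ⟨[], .cap (.dn .two), [.str (.dn .one), .str (.dn .one)]⟩])]
      [(1, [⟨[], .cup (.dn .one), [.str (.dn .two)]⟩,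
        ⟨[.str (.dn .one)], .cup (.dn .one), [u1, .str (.dn .two)]⟩,
        ⟨[.str (.dn .one), .str (.dn .one)], .merge, [.str (.dn .two)]⟩,
        ⟨[.str (.dn .one), .str (.dn .one)], .cap (.up .two), []⟩])]
  | rotSplit : Loc v [.str (.dn .one), .str (.dn .one)] [.str (.dn .two)]
      [(1, [⟨[.str (.dn .one), .str (.dn .one)], .cup (.up .two), []⟩,
        ⟨[.str (.dn .one), .str (.dn .one)], .split, [.str (.dn .two)]⟩,
        ⟨[.str (.dn .one)], .cap (.dn .one), [u1, .str (.dn .two)]⟩,
        ⟨[], .cap (.dn .one), [.str (.dn .two)]⟩])]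
      [(1, [⟨[], .cup (.dn .two), [.str (.dn .one), .str (.dn .one)]⟩,
        ⟨[.str (.dn .two)], .split, [.str (.dn .one), .str (.dn .one)]⟩,
        ⟨[.str (.dn .two), u1], .cap (.up .one), [.str (.dn .one)]⟩,
        ⟨[.str (.dn .two)], .cap (.up .one), []⟩])]
  | rotTagR (a : Strand) : Loc v [.str a.flip.dual] [.str a.dual]
      [(1, [⟨[.str a.flip.dual], .cup a, []⟩, ⟨[.str a.flip.dual], .tag a, [.str a.dual]⟩,
        ⟨[], .cap a.flip.dual, [.str a.dual]⟩])]
      [(1, [⟨[], .tag a.flip.dual, []⟩])]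
  | rotTagL (a : Strand) : Loc v [.str a.flip.dual] [.str a.dual]
      [(1, [⟨[], .cup a.dual, [.str a.flip.dual]⟩, ⟨[.str a.dual], .tag a, [.str a.flip.dual]⟩,
        ⟨[.str a.dual], .cap a.flip, []⟩])]
      [(1, [⟨[], .tag a.flip.dual, []⟩])]
  /- isotopies in space: the Reidemeister moves; `r2` and `slide` are for edges and poles, in
  `slide` an edge or a pole slides over or under a piece, `r1` is the first move for framed edges -/
  | r2 (b : Bool) (x y : Letter) (h : (Gen.cross b x y).Ok) : Loc v [x, y] [x, y]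
      [(1, [⟨[], .cross b x y, []⟩, ⟨[], .cross (!b) y x, []⟩])] [(1, [])]
  | slide (b : Bool) (x : Letter) (g : Gen) (h : SlideOk x g) : Loc v (x :: g.src) (g.tgt ++ [x])
      [(1, go (fun _ => b) x g.src ++ [⟨[], g, [x]⟩])]
      [(1, ⟨[x], g, []⟩ :: go (fun _ => b) x g.tgt)]
  | r1 (b : Bool) (a : Strand) : Loc v [.str a] [.str a]
      [(1, [⟨[.str a], .cup a, []⟩, ⟨[], .cross b (.str a) (.str a), [.str a.dual]⟩,
        ⟨[.str a], .cap a, []⟩])]
      [(1, [⟨[], .cup a.dual, [.str a]⟩, ⟨[.str a.dual], .cross b (.str a) (.str a), []⟩,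
        ⟨[], .cap a.dual, [.str a]⟩])]
  /- relations between webs, `[2] = q + 1/q`, `[3] = q ^ 2 + 1 + 1/q ^ 2` -/
  | circle (a : Strand) : Loc v [] []
      [(1, [⟨[], .cup a, []⟩, ⟨[], .cap a, []⟩])] [(v ^ 6 + 1 + (v ^ 6)⁻¹, [])]
  | bigon : Loc v [u2] [u2]
      [(1, [⟨[], .split, []⟩, ⟨[], .merge, []⟩])] [(v ^ 3 + (v ^ 3)⁻¹, [])]
  | bigonR : Loc v [u1] [u1]
      [(1, [⟨[u1], .cup (.up .one), []⟩, ⟨[], .merge, [.str (.dn .one)]⟩,
        ⟨[], .split, [.str (.dn .one)]⟩, ⟨[u1], .cap (.up .one), []⟩])] [(v ^ 3 + (v ^ 3)⁻¹, [])]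
  | bigonL : Loc v [u1] [u1]
      [(1, [⟨[], .cup (.dn .one), [u1]⟩, ⟨[.str (.dn .one)], .merge, []⟩,
        ⟨[.str (.dn .one)], .split, []⟩, ⟨[], .cap (.dn .one), [u1]⟩])] [(v ^ 3 + (v ^ 3)⁻¹, [])]
  | tags (a : Strand) : Loc v [.str a] [.str a]
      [(1, [⟨[], .tag a, []⟩, ⟨[], .tag a.flip, []⟩])] [(1, [])]
  | assocEnd : Loc v [u1, u1, u1] []
      [(1, ⟨[], .merge, [u1]⟩ :: end21)] [(1, ⟨[u1], .merge, []⟩ :: end12)]
  | assocBeg : Loc v [] [u1, u1, u1]
      [(1, beg21 ++ [⟨[], .split, [u1]⟩])] [(1, beg12 ++ [⟨[u1], .split, []⟩])]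
  | squareL : Loc v [u2, u1] [u2, u1]
      [(1, [⟨[], .split, [u1]⟩, ⟨[u1], .merge, []⟩, ⟨[u1], .split, []⟩, ⟨[], .merge, [u1]⟩])]
      [(1, []), (1, end21 ++ beg21)]
  | squareR : Loc v [u1, u2] [u1, u2]
      [(1, [⟨[u1], .split, []⟩, ⟨[], .merge, [u1]⟩, ⟨[], .split, [u1]⟩, ⟨[u1], .merge, []⟩])]
      [(1, []), (1, end12 ++ beg12)]
  /- crossings as combinations of planar webs -/
  | cross11 : Loc v [u1, u1] [u1, u1]
      [(1, [⟨[], .cross true u1 u1, []⟩])]
      [(v ^ 2, []), (-v⁻¹, [⟨[], .merge, []⟩, ⟨[], .split, []⟩])]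
  | cross11' : Loc v [u1, u1] [u1, u1]
      [(1, [⟨[], .cross false u1 u1, []⟩])]
      [((v ^ 2)⁻¹, []), (-v, [⟨[], .merge, []⟩, ⟨[], .split, []⟩])]
  | cross12 : Loc v [u1, u2] [u2, u1]
      [(1, [⟨[], .cross true u1 u2, []⟩])]
      [(-v, [⟨[u1], .split, []⟩, ⟨[], .merge, [u1]⟩]), ((v ^ 2)⁻¹, end12 ++ beg21)]
  | cross12' : Loc v [u1, u2] [u2, u1]
      [(1, [⟨[], .cross false u1 u2, []⟩])]
      [(-v⁻¹, [⟨[u1], .split, []⟩, ⟨[], .merge, [u1]⟩]), (v ^ 2, end12 ++ beg21)]
  | cross21 : Loc v [u2, u1] [u1, u2]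
      [(1, [⟨[], .cross true u2 u1, []⟩])]
      [(-v, [⟨[], .split, [u1]⟩, ⟨[u1], .merge, []⟩]), ((v ^ 2)⁻¹, end21 ++ beg12)]
  | cross21' : Loc v [u2, u1] [u1, u2]
      [(1, [⟨[], .cross false u2 u1, []⟩])]
      [(-v⁻¹, [⟨[], .split, [u1]⟩, ⟨[u1], .merge, []⟩]), (v ^ 2, end21 ++ beg12)]
  | cross22 : Loc v [u2, u2] [u2, u2]
      [(1, [⟨[], .cross true u2 u2, []⟩])]
      [(v ^ 2, []), (-v⁻¹, (⟨[], .split, [u2]⟩ :: ctx [u1] [] end12) ++
        (ctx [u1] [] beg12 ++ [⟨[], .merge, [u2]⟩]))]
  | cross22' : Loc v [u2, u2] [u2, u2]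
      [(1, [⟨[], .cross false u2 u2, []⟩])]
      [((v ^ 2)⁻¹, []), (-v, (⟨[], .split, [u2]⟩ :: ctx [u1] [] end12) ++
        (ctx [u1] [] beg12 ++ [⟨[], .merge, [u2]⟩]))]

/-- the web diagrams in the presence of `m` poles -/
def Diag (m : ℕ) : Type := {w : Word // IsDiag (poles m) w (poles m)}

theorem IsDiag.append {x y z : Ob} {w w' : Word} (h : IsDiag x w y) (h' : IsDiag y w' z) :
    IsDiag x (w ++ w') z := by
  induction w generalizing x with
  | nil => cases h; exact h'
  | cons s w ih => exact ⟨h.1, h.2.1, ih h.2.2⟩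

/-- `D₁ * D₂` is `D₁` above `D₂` -/
instance (m : ℕ) : Monoid (Diag m) where
  mul D₁ D₂ := ⟨D₂.1 ++ D₁.1, D₂.2.append D₁.2⟩
  one := ⟨[], rfl⟩
  mul_assoc a b c := Subtype.ext (List.append_assoc _ _ _).symm
  one_mul a := Subtype.ext (List.append_nil _)
  mul_one a := Subtype.ext (List.nil_append _)

open Classical in
/-- a diagram as an element of the monoid algebra (zero if `w` is not a diagram) -/
noncomputable def cls (m : ℕ) (w : Word) : MonoidAlgebra ℂ (Diag m) :=
  if h : IsDiag (poles m) w (poles m) then MonoidAlgebra.single (⟨w, h⟩ : Diag m) 1 else 0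

/-- the combination in which the diagrams of `c` are completed by `u` below, `t` above, and the
vertical lines `l` and `r` -/
noncomputable def close (m : ℕ) (u t : Word) (l r : Ob) (c : Comb) : MonoidAlgebra ℂ (Diag m) :=
  (c.map fun p => p.1 • cls m (u ++ ctx l r p.2 ++ t)).sum

/-- the relations: the local relations inside of diagrams -/
inductive Rel (m : ℕ) (v : ℂ) : MonoidAlgebra ℂ (Diag m) → MonoidAlgebra ℂ (Diag m) → Prop
  | mk (x y : Ob) (c c' : Comb) (h : Loc v x y c c') (u t : Word) (l r : Ob)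
      (hu : IsDiag (poles m) u (l ++ x ++ r)) (ht : IsDiag (l ++ y ++ r) t (poles m)) :
      Rel m v (close m u t l r c) (close m u t l r c')

/-- the `SL_3`-skein algebra of the sphere with `m + 1` punctures, `v = q ^ (1/3)` -/
abbrev Skein (m : ℕ) (v : ℂ) : Type := RingQuot (Rel m v)

/-- the class of a diagram -/
noncomputable def skein (m : ℕ) (v : ℂ) (w : Word) : Skein m v :=
  RingQuot.mkAlgHom ℂ (Rel m v) (cls m w)

/-- an edge of weight `k` goes once around the letters `A`, in one of the two directions -/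
def loop (b : Bool) (k : Wt) (A : Ob) : Word :=
  [⟨[], .cup (.dn k), A⟩] ++ ctx [.str (.dn k)] [] (go (fun _ => b) (.str (.up k)) A) ++
    ctx [.str (.dn k)] [] (back (fun _ => b) (.str (.up k)) A) ++ [⟨[], .cap (.dn k), A⟩]

/-- the loops of weights 1 and 2 around the punctures: around one of the poles, and around all of
them (this is the puncture at infinity) -/
def punctureSkeins (m : ℕ) (v : ℂ) : Set (Skein m v) :=
  {z | ∃ (b : Bool) (k : Wt) (l r : Ob) (j : ℕ), poles m = l ++ [.pole j] ++ r ∧
      z = skein m v (ctx l r (loop b k [.pole j]))} ∪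
    {z | ∃ (b : Bool) (k : Wt), z = skein m v (loop b k (poles m))}

/-- the letter `x` is replaced by parallel edges with the weights `ks` -/
def cab (ks : List Wt) : Letter → Ob
  | .pole j => [.pole j]
  | .str (.up _) => ks.map fun k => .str (.up k)
  | .str (.dn _) => (ks.map fun k => .str (.dn k)).reverse

/-- the strands of a bundle -/
def bundle (ks : List Wt) : Strand → List Strand
  | .up _ => ks.map .up
  | .dn _ => (ks.map .dn).reverse

/-- nested minima with the left hand ends `as` -/
def nest : List Strand → Word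
  | [] => []
  | a :: as => ⟨[], .cup a, []⟩ :: ctx [.str a] [.str a.dual] (nest as)

/-- nested maxima with the left hand ends `as` -/
def unnest : List Strand → Word
  | [] => []
  | a :: as => ctx [.str a] [.str a.dual] (unnest as) ++ [⟨[], .cap a, []⟩]

/-- the letters `A` cross the letters `B`, in front of them if `b` is true -/
def block (b : Bool) : Ob → Ob → Word
  | [], _ => []
  | x :: A, B => ctx [x] [] (block b A B) ++ ctx [] A (go (fun _ => b) x B)

/-- the pieces of the parallel copies of a link -/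
def cabGen (ks : List Wt) : Gen → Word
  | .cup a => nest (bundle ks a)
  | .cap a => unnest (bundle ks a)
  | .cross b x y => block b (cab ks x) (cab ks y)
  | _ => []

/-- the parallel copies, with the weights `ks`, of a link (parallel in the plane of the diagram,
which is the direction of the framing) -/
def cable (ks : List Wt) (w : Word) : Word :=
  w.flatMap fun s => ctx (s.l.flatMap (cab ks)) (s.r.flatMap (cab ks)) (cabGen ks s.g)

/-- diagrams of oriented framed links: no vertices, no tags -/
def IsLink (w : Word) : Prop :=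
  ∀ s ∈ w, (∃ a, s.g = .cup a) ∨ (∃ a, s.g = .cap a) ∨ ∃ b x y, s.g = .cross b x y

open MvPolynomial in
/-- `P` is the power elementary polynomial `P_3^(n,i)` -/
def IsPower (n i : ℕ) (P : MvPolynomial (Fin 3) ℤ) : Prop :=
  aeval (fun j : Fin 3 => esymm (Fin 3) ℤ (j + 1)) P = expand n (esymm (Fin 3) ℤ i)

open MvPolynomial in
/-- `P (e_1, e_2, 1)` -/
noncomputable def reduce (P : MvPolynomial (Fin 3) ℤ) : MvPolynomial (Fin 2) ℤ :=
  aeval ![X 0, X 1, 1] P

/-- the skein `L ^ [P]`: for the monomial `e_1 ^ i e_2 ^ j` one takes `i + j` parallel copies of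
`L`, `i` of them with weight 1 and `j` with weight 2 -/
noncomputable def thread (m : ℕ) (v : ℂ) (P : MvPolynomial (Fin 2) ℤ) (w : Word) : Skein m v :=
  ∑ μ ∈ P.support, ((P.coeff μ : ℤ) : ℂ) •
    skein m v (cable (List.replicate (μ 0) .one ++ List.replicate (μ 1) .two) w)

/-- the skeins `L ^ [P]`, `P` the reduced power elementary polynomials -/
def threadedSkeins (m : ℕ) (v : ℂ) (n : ℕ) : Set (Skein m v) :=
  {z | ∃ (w : Word) (i : ℕ) (P : MvPolynomial (Fin 3) ℤ), IsDiag (poles m) w (poles m) ∧
    IsLink w ∧ (i = 1 ∨ i = 2) ∧ IsPower n i P ∧ z = thread m v (reduce P) w}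

end Pool.Agent.K1H60.SK
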