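import Pool.Agent.K1H60.SK.Cong

/-! Evaluation of web diagrams at `q = 1`, `v = q ^ (1/3)` a cube root of unity, at diagonal
matrices of order three. -/

set_option autoImplicit false

namespace Pool.Agent.K1H60.SK

/-- number of strands -/
def Letter.cnt : Letter → ℕ
  | .str _ => 1
  | .pole _ => 0

def cnt (x : Ob) : ℕ := (x.map Letter.cnt).sum

lemma cnt_append (x y : Ob) : cnt (x ++ y) = cnt x + cnt y := by simp [cnt]
lemma cnt_cons (a : Letter) (y : Ob) : cnt (a :: y) = a.cnt + cnt y := by simp [cnt]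
lemma cnt_nil : cnt [] = 0 := rfl

/-- flux modulo 3 -/
def Strand.w : Strand → ZMod 3
  | .up .one => 1
  | .up .two => 2
  | .dn .one => 2
  | .dn .two => 1

/-- the three colours -/
inductive Cl
  | c0
  | c1
  | c2
  deriving DecidableEq

/-- the next colour -/
def Cl.nx : Cl → Cl
  | .c0 => .c1
  | .c1 => .c2
  | .c2 => .c0

def Cl.z : Cl → ZMod 3
  | .c0 => 0
  | .c1 => 1
  | .c2 => 2

/-- colour charge -/
def Strand.col : Strand → Cl → ZMod 3
  | .up .one, i => i.z
  | .up .two, i => -i.z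
  | .dn .one, i => -i.z
  | .dn .two, i => i.z

/-- powers of `v` -/
noncomputable def chi (v : ℂ) (n : ZMod 3) : ℂ := v ^ n.val

lemma chi_add {v : ℂ} (hv : v ^ 3 = 1) (a b : ZMod 3) : chi v (a + b) = chi v a * chi v b := by
  unfold chi
  rw [ZMod.val_add, ← pow_add]
  conv_rhs => rw [← Nat.div_add_mod (a.val + b.val) 3]
  rw [pow_add, pow_mul, hv, one_pow, one_mul]

lemma chi_zero (v : ℂ) : chi v 0 = 1 := by simp [chi]

/-- the data: two charges for each pole -/
structure Dat where
  a : ℕ → ZMod 3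
  c : ℕ → ZMod 3

/-- holonomy -/
def Dat.H (D : Dat) (j : ℕ) (s : Strand) (i : Cl) : ZMod 3 := D.c j * s.w + D.a j * s.col i

/-- the kernel of a piece -/
noncomputable def ker (v : ℂ) (D : Dat) : Gen → List Cl → List (ℂ × List Cl)
  | .cup _, [] => [(1, [.c0, .c0]), (1, [.c1, .c1]), (1, [.c2, .c2])]
  | .cap _, [i, j] => if i = j then [(1, [])] else []
  | .cross true (.str x) (.str y), [i, j] => [(chi v (-(x.w * y.w)), [j, i])]
  | .cross false (.str x) (.str y), [i, j] => [(chi v (x.w * y.w), [j, i])]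
  | .cross true (.str _) (.pole _), [i] => [(1, [i])]
  | .cross false (.str x) (.pole p), [i] => [(chi v (D.H p x i), [i])]
  | .cross true (.pole p) (.str y), [i] => [(chi v (-(D.H p y i)), [i])]
  | .cross false (.pole _) (.str _), [i] => [(1, [i])]
  | .merge, [i, j] =>
    if j = i.nx then [(1, [i.nx.nx])] else if j = i.nx.nx then [(-1, [i.nx])] else []
  | .split, [k] => [(1, [k.nx, k.nx.nx]), (-1, [k.nx.nx, k.nx])]
  | .tag _, [i] => [(1, [i])]
  | _, _ => []

lemma ker_length (v : ℂ) (D : Dat) (g : Gen) (t : List Cl) (p : ℂ × List Cl)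
    (hp : p ∈ ker v D g t) : p.2.length = cnt g.tgt := by
  revert hp
  cases g with
  | cup a => rcases t with _ | ⟨i, t⟩ <;> simp [ker, Gen.tgt, cnt, Letter.cnt]
             rintro (rfl | rfl | rfl) <;> rfl
  | cap a =>
    rcases t with _ | ⟨i, _ | ⟨j, _ | ⟨k, t⟩⟩⟩ <;> simp [ker, Gen.tgt, cnt]
    rintro - rfl
    rfl
  | merge =>
    rcases t with _ | ⟨i, _ | ⟨j, _ | ⟨k, t⟩⟩⟩ <;> simp [ker, Gen.tgt, cnt, Letter.cnt]
    intro h
    split_ifs at h
    · simp at h; subst h; rfl
    · simp at h; subst h; rfl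
    · simp at h
  | split =>
    rcases t with _ | ⟨i, _ | ⟨j, t⟩⟩ <;> simp [ker, Gen.tgt, cnt, Letter.cnt]
    rintro (rfl | rfl) <;> rfl
  | tag a =>
    rcases t with _ | ⟨i, _ | ⟨j, t⟩⟩ <;> simp [ker, Gen.tgt, cnt, Letter.cnt]
    rintro rfl; rfl
  | cross b x y =>
    rcases x with x | x <;> rcases y with y | y <;> cases b <;>
    rcases t with _ | ⟨i, _ | ⟨j, _ | ⟨k, t⟩⟩⟩ <;> simp [ker, Gen.tgt, cnt, Letter.cnt] <;>
    rintro rfl <;> rfl

/-- one slice, as an operator on functions of the colours (from the top to the bottom) -/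
noncomputable def stepL (v : ℂ) (D : Dat) (s : Slice) :
    (List Cl → ℂ) →ₗ[ℂ] (List Cl → ℂ) where
  toFun f t := ((ker v D s.g ((t.drop (cnt s.l)).take (cnt s.g.src))).map fun p =>
    p.1 * f (t.take (cnt s.l) ++ p.2 ++ t.drop (cnt s.l + cnt s.g.src))).sum
  map_add' f g := by
    funext t
    simp only [Pi.add_apply, mul_add]
    rw [← List.sum_map_add]
  map_smul' c f := by
    funext t
    simp only [Pi.smul_apply, smul_eq_mul, RingHom.id_apply]
    rw [← List.sum_map_mul_left]
    congr 1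
    refine List.map_congr_left fun p _ => ?_
    ring

noncomputable def ev (v : ℂ) (D : Dat) : Word → (List Cl → ℂ) →ₗ[ℂ] (List Cl → ℂ)
  | [] => LinearMap.id
  | s :: w => (stepL v D s).comp (ev v D w)

lemma ev_append (v : ℂ) (D : Dat) (w w' : Word) (f : List Cl → ℂ) :
    ev v D (w ++ w') f = ev v D w (ev v D w' f) := by
  induction w with
  | nil => rfl
  | cons s w ih => simp only [List.cons_append, ev, LinearMap.comp_apply, ih]

lemma ev_cons (v : ℂ) (D : Dat) (s : Slice) (w : Word) (f : List Cl → ℂ) :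
    ev v D (s :: w) f = stepL v D s (ev v D w f) := rfl

lemma ev_nil (v : ℂ) (D : Dat) (f : List Cl → ℂ) : ev v D [] f = f := rfl

/-- the step on split colours -/
lemma stepL_apply (v : ℂ) (D : Dat) (l r : Ob) (g : Gen) (f : List Cl → ℂ)
    (a b c : List Cl) (ha : a.length = cnt l) (hb : b.length = cnt g.src) :
    stepL v D ⟨l, g, r⟩ f (a ++ b ++ c) =
      ((ker v D g b).map fun p => p.1 * f (a ++ p.2 ++ c)).sum := by
  have h1 : (a ++ b ++ c).take (cnt l) = a := by
    rw [List.append_assoc, ← ha, List.take_left]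
  have h2 : ((a ++ b ++ c).drop (cnt l)).take (cnt g.src) = b := by
    rw [List.append_assoc, ← ha, List.drop_left, ← hb, List.take_left]
  have h3 : (a ++ b ++ c).drop (cnt l + cnt g.src) = c := by
    rw [← ha, ← hb, ← List.length_append, List.drop_left]
  show ((ker v D g (((a ++ b ++ c).drop (cnt l)).take (cnt g.src))).map fun p =>
    p.1 * f ((a ++ b ++ c).take (cnt l) ++ p.2 ++ (a ++ b ++ c).drop (cnt l + cnt g.src))).sum = _
  rw [h1, h2, h3]

lemma split_length {x y z : Ob} {t : List Cl} (h : t.length = cnt (x ++ y ++ z)) :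
    ∃ a b c, t = a ++ b ++ c ∧ a.length = cnt x ∧ b.length = cnt y ∧ c.length = cnt z := by
  simp only [cnt_append] at h
  refine ⟨t.take (cnt x), (t.drop (cnt x)).take (cnt y), t.drop (cnt x + cnt y), ?_, ?_, ?_, ?_⟩
  · rw [List.append_assoc, ← List.drop_drop, List.take_append_drop, List.take_append_drop]
  · simp; omega
  · simp; omega
  · simp; omega

/-- locality -/
lemma ev_congr (v : ℂ) (D : Dat) (w : Word) : ∀ (x y : Ob), IsDiag x w y →
    ∀ (f f' : List Cl → ℂ), (∀ t, t.length = cnt y → f t = f' t) →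
    ∀ t, t.length = cnt x → ev v D w f t = ev v D w f' t := by
  induction w with
  | nil => intro x y h f f' hf t ht; cases h; exact hf t ht
  | cons s w ih =>
    intro x y h f f' hf t ht
    obtain ⟨h1, h2, h3⟩ := h
    rw [h1] at ht
    obtain ⟨a, b, c, rfl, ha, hb, hc⟩ := split_length ht
    rw [ev_cons, ev_cons]
    have hs : s = ⟨s.l, s.g, s.r⟩ := rfl
    rw [hs, stepL_apply _ _ _ _ _ _ _ _ _ ha hb, stepL_apply _ _ _ _ _ _ _ _ _ ha hb]
    congr 1
    refine List.map_congr_left fun p hp => ?_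
    rw [ih _ _ h3 f f' hf _ (by
      rw [List.length_append, List.length_append, ker_length _ _ _ _ _ hp, ha, hc]
      simp [cnt_append, add_assoc])]

/-- evaluation in a context -/
lemma ev_ctx (v : ℂ) (D : Dat) (w : Word) : ∀ (x y : Ob), IsDiag x w y →
    ∀ (l r : Ob) (f : List Cl → ℂ) (a b c : List Cl), a.length = cnt l →
      b.length = cnt x → ev v D (ctx l r w) f (a ++ b ++ c) = ev v D w (fun t => f (a ++ t ++ c)) b := by
  induction w with
  | nil => intro x y h l r f a b c ha hb; rfl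
  | cons s w ih =>
    intro x y h l r f a b c ha hb
    obtain ⟨h1, h2, h3⟩ := h
    rw [h1] at hb
    obtain ⟨b1, b2, b3, rfl, hb1, hb2, hb3⟩ := split_length hb
    rw [ctx_cons, ev_cons, ev_cons]
    have hs : s = ⟨s.l, s.g, s.r⟩ := rfl
    rw [hs, stepL_apply _ _ _ _ _ _ _ _ _ hb1 hb2]
    have e : a ++ (b1 ++ b2 ++ b3) ++ c = (a ++ b1) ++ b2 ++ (b3 ++ c) := by simp
    rw [e, stepL_apply _ _ _ _ _ _ _ _ _ (by simp [cnt_append, ha, hb1]) hb2]
    congr 1
    refine List.map_congr_left fun p hp => ?_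
    have := ih _ _ h3 l r f a (b1 ++ p.2 ++ b3) c ha (by
      rw [List.length_append, List.length_append, ker_length _ _ _ _ _ hp, hb1, hb3]
      simp [cnt_append, add_assoc])
    rw [← this]
    simp

end Pool.Agent.K1H60.SK
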