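import Pool.Agent.K1H60.SK.Twist
import Pool.Agent.K1H60.SK.Cent

/-! The central element which is not generated by punctures and threads. -/

set_option autoImplicit false

namespace Pool.Agent.K1H60.SK

/-! ### parallel copies of links are diagrams -/

lemma isDiag_nest (as : List Strand) :
    IsDiag [] (nest as) (as.map .str ++ (as.map fun a => Letter.str a.dual).reverse) := by
  induction as with
  | nil => rfl
  | cons a as ih =>
    refine ⟨rfl, trivial, ?_⟩
    have := ih.ctx [.str a] [.str a.dual]
    simpa [Gen.tgt] using this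

lemma isDiag_unnest (as : List Strand) :
    IsDiag (as.map .str ++ (as.map fun a => Letter.str a.dual).reverse) (unnest as) [] := by
  induction as with
  | nil => rfl
  | cons a as ih =>
    have h1 := ih.ctx [.str a] [.str a.dual]
    have h2 : IsDiag ([.str a] ++ [] ++ [.str a.dual]) [⟨[], .cap a, []⟩] [] :=
      ⟨by simp [Gen.src], trivial, rfl⟩
    have := h1.append h2
    simpa [unnest] using this

lemma isDiag_block (b : Bool) (A B : Ob)
    (h : ∀ x ∈ A, ∀ y ∈ B, (∃ a, x = .str a) ∨ ∃ a, y = .str a) :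
    IsDiag (A ++ B) (block b A B) (B ++ A) := by
  induction A with
  | nil => simp [block, IsDiag]
  | cons x A ih =>
    have h1 := (ih fun x' hx' => h x' (by simp [hx'])).ctx [x] []
    have h2 := (isDiag_go' (fun _ => b) x B (h x (by simp))).ctx [] A
    have h1' := h1.cast (A' := x :: A ++ B) (B' := [] ++ x :: B ++ A) (by simp) (by simp)
    have := h1'.append h2
    simpa [block] using this

lemma cab_str (ks : List Wt) (a : Strand) : cab ks (.str a) = (bundle ks a).map .str := by
  cases a <;> simp [cab, bundle, List.map_reverse]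

lemma bundle_dual (ks : List Wt) (a : Strand) :
    bundle ks a.dual = ((bundle ks a).map .dual).reverse := by
  cases a <;> simp [bundle, Strand.dual, List.map_reverse, Function.comp_def]

lemma isDiag_cabGen (ks : List Wt) (g : Gen) (hg : g.Ok)
    (h : (∃ a, g = .cup a) ∨ (∃ a, g = .cap a) ∨ ∃ b x y, g = .cross b x y) :
    IsDiag (g.src.flatMap (cab ks)) (cabGen ks g) (g.tgt.flatMap (cab ks)) := by
  rcases h with ⟨a, rfl⟩ | ⟨a, rfl⟩ | ⟨b, x, y, rfl⟩
  · refine (isDiag_nest (bundle ks a)).cast rfl ?_
    simp [Gen.tgt, cab_str, bundle_dual, List.map_reverse, Function.comp_def]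
  · refine (isDiag_unnest (bundle ks a)).cast ?_ rfl
    simp [Gen.src, cab_str, bundle_dual, List.map_reverse, Function.comp_def]
  · refine (isDiag_block b (cab ks x) (cab ks y) ?_).cast (by simp [Gen.src]) (by simp [Gen.tgt])
    intro x' hx' y' hy'
    rcases x with x | j
    · left
      rw [cab_str, List.mem_map] at hx'
      obtain ⟨s, _, rfl⟩ := hx'
      exact ⟨s, rfl⟩
    · rcases y with y | j'
      · right
        rw [cab_str, List.mem_map] at hy'
        obtain ⟨s, _, rfl⟩ := hy'
        exact ⟨s, rfl⟩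
      · exact absurd hg (by simp [Gen.Ok])

/-- the parallel copies of a link diagram form a diagram -/
theorem isDiag_cable (ks : List Wt) (w : Word) (hw : IsLink w) (x y : Ob) (h : IsDiag x w y) :
    IsDiag (x.flatMap (cab ks)) (cable ks w) (y.flatMap (cab ks)) := by
  induction w generalizing x with
  | nil => cases h; rfl
  | cons s w ih =>
    obtain ⟨h1, h2, h3⟩ := h
    have e : cable ks (s :: w) = ctx (s.l.flatMap (cab ks)) (s.r.flatMap (cab ks))
        (cabGen ks s.g) ++ cable ks w := by simp [cable]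
    rw [e]
    have h4 := (isDiag_cabGen ks s.g h2 (hw s (by simp))).ctx (s.l.flatMap (cab ks))
      (s.r.flatMap (cab ks))
    refine IsDiag.append (h4.cast (by rw [h1]; simp) (by simp)) (ih (fun t ht => hw t (by simp [ht])) _ h3)

lemma cab_poles (ks : List Wt) (m : ℕ) : (poles m).flatMap (cab ks) = poles m := by
  unfold poles
  rw [List.flatMap_map]
  induction List.range m with
  | nil => rfl
  | cons a l ih => rw [List.flatMap_cons, ih]; rfl

theorem isDiag_cable_poles (ks : List Wt) (w : Word) (hw : IsLink w) (m : ℕ)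
    (h : IsDiag (poles m) w (poles m)) : IsDiag (poles m) (cable ks w) (poles m) := by
  have := isDiag_cable ks w hw _ _ h
  rwa [cab_poles] at this

/-! ### values of the loops -/

variable {v : ℂ}

lemma three_sum (hv : IsPrimitiveRoot v 3) (x y : ZMod 3) (hx : x ≠ 0) :
    chi v y + (chi v (y + x) + chi v (y + 2 * x)) = 0 := by
  have h3 : v ^ 3 = 1 := hv.pow_eq_one
  have h1 : v ≠ 1 := by
    rintro rfl
    have := hv.dvd_of_pow_eq_one 1 (by simp)
    omega
  have hs : 1 + v + v ^ 2 = 0 := by
    have : (v - 1) * (1 + v + v ^ 2) = 0 := by linear_combination h3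
    rcases mul_eq_zero.1 this with h | h
    · exact absurd (sub_eq_zero.1 h) h1
    · exact h
  rw [chi_add h3, chi_add h3]
  have hx' : x = 1 ∨ x = 2 := by revert x; decide
  rcases hx' with rfl | rfl
  · have e : (2 : ZMod 3) * 1 = 2 := by decide
    rw [e, chi_one, chi_two]
    linear_combination chi v y * hs
  · have e : (2 : ZMod 3) * 2 = 1 := by decide
    rw [e, chi_one, chi_two]
    linear_combination chi v y * hs

/-- total charge of poles -/
def tot (F : ℕ → ZMod 3) (A : Ob) : ZMod 3 :=
  (A.map fun y => match y with | .pole j => F j | .str _ => 0).sum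

lemma tot_nil (F : ℕ → ZMod 3) : tot F [] = 0 := rfl
lemma tot_pole (F : ℕ → ZMod 3) (j : ℕ) (A : Ob) : tot F (.pole j :: A) = F j + tot F A := by
  simp [tot]
lemma tot_str (F : ℕ → ZMod 3) (s : Strand) (A : Ob) : tot F (.str s :: A) = tot F A := by
  simp [tot]

/-- sign -/
def sg : Bool → ZMod 3
  | true => -1
  | false => 1

lemma prod_loop (h3 : v ^ 3 = 1) (D : Dat) (b : Bool) (s : Strand) (i : Cl) (A : Ob) :
    (A.map (hR v D (fun _ => b) s i)).prod * (A.map (hL v D (fun _ => b) s i)).prod =
      chi v (sg b * (tot D.c A * s.w + tot D.a A * s.col i)) := by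
  induction A with
  | nil => simp [tot_nil, chi_zero]
  | cons y A ih =>
    simp only [List.map_cons, List.prod_cons]
    rw [mul_mul_mul_comm, ih]
    rcases y with s' | j
    · rw [tot_str, tot_str]
      simp [hR, hL]
    · rw [tot_pole, tot_pole]
      have e : sg b * ((D.c j + tot D.c A) * s.w + (D.a j + tot D.a A) * s.col i) =
          sg b * D.H j s i + sg b * (tot D.c A * s.w + tot D.a A * s.col i) := by
        simp only [Dat.H]; ring
      rw [e, chi_add h3]
      congr 1
      cases b
      · simp [hR, hL, hr, hl, sg]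
      · simp [hR, hL, hr, hl, sg]

lemma isDiag_loop (b : Bool) (k : Wt) (A : Ob) : IsDiag A (loop b k A) A := by
  have dcup : IsDiag A [⟨[], .cup (.dn k), A⟩] (.str (.dn k) :: .str (.up k) :: A) :=
    ⟨by simp [Gen.src], trivial, by simp [IsDiag, Gen.tgt, Strand.dual]⟩
  have dcap : IsDiag (.str (.dn k) :: .str (.up k) :: A) [⟨[], .cap (.dn k), A⟩] A :=
    ⟨by simp [Gen.src, Strand.dual], trivial, by simp [IsDiag, Gen.tgt]⟩
  have dgo : IsDiag (.str (.dn k) :: .str (.up k) :: A)
      (ctx [.str (.dn k)] [] (go (fun _ => b) (.str (.up k)) A))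
      (.str (.dn k) :: A ++ [.str (.up k)]) := by
    have := (isDiag_go (fun _ => b) (.up k) A).ctx [.str (.dn k)] []
    simpa using this
  have dbk : IsDiag (.str (.dn k) :: A ++ [.str (.up k)])
      (ctx [.str (.dn k)] [] (back (fun _ => b) (.str (.up k)) A))
      (.str (.dn k) :: .str (.up k) :: A) := by
    have := (isDiag_back (fun _ => b) (.up k) A).ctx [.str (.dn k)] []
    simpa using this
  exact ((dcup.append dgo).append dbk).append dcap

lemma val_loop (hv : IsPrimitiveRoot v 3) (D : Dat) (b : Bool) (k : Wt) (A l r : Ob)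
    (hA : AllPoles A) (hl : AllPoles l) (ha : tot D.a A ≠ 0) :
    val v D (ctx l r (loop b k A)) = 0 := by
  have h3 : v ^ 3 = 1 := hv.pow_eq_one
  unfold val loop
  rw [ev_curve D _ _ k A hA l r hl, prod_loop h3, prod_loop h3, prod_loop h3, mul_one]
  have hne : ∀ x : ZMod 3, x ≠ 0 → sg b * x ≠ 0 := by
    intro x hx
    cases b
    · simpa [sg] using hx
    · simpa [sg] using hx
  cases k with
  | one =>
    have := three_sum hv (sg b * tot D.a A) (sg b * (tot D.c A * Strand.w (.up .one)))
      (hne _ ha)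
    simp only [Strand.col, Cl.z, mul_zero, add_zero, mul_one, mul_add] at this ⊢
    rw [← this]
    congr 3
    ring
  | two =>
    have := three_sum hv (sg b * (-tot D.a A)) (sg b * (tot D.c A * Strand.w (.up .two)))
      (hne _ (neg_ne_zero.2 ha))
    simp only [Strand.col, Cl.z, mul_zero, add_zero, mul_add, neg_zero] at this ⊢
    rw [← this]
    congr 3
    · ring
    · ring

/-! ### the data -/

lemma allPoles_poles (m : ℕ) : AllPoles (poles m) := by
  intro y hy
  unfold poles at hy
  rw [List.mem_map] at hy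
  obtain ⟨j, _, rfl⟩ := hy
  exact ⟨j, rfl⟩

lemma tot_poles (F : ℕ → ZMod 3) (m : ℕ) : tot F (poles m) = ∑ j ∈ Finset.range m, F j := by
  unfold tot poles
  rw [List.map_map]
  induction m with
  | zero => rfl
  | succ m ih => rw [List.range_succ, List.map_append, List.sum_append, ih,
      Finset.sum_range_succ]; simp

/-- the orders of the matrices -/
def aa (m : ℕ) (j : ℕ) : ZMod 3 := if 3 ∣ m ∧ j + 1 = m then 2 else 1

lemma aa_ne (m j : ℕ) : aa m j ≠ 0 := by
  unfold aa
  split_ifs <;> decide

lemma aa_sum (m : ℕ) (hm : 1 ≤ m) : ∑ j ∈ Finset.range m, aa m j ≠ 0 := by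
  obtain ⟨n, rfl⟩ : ∃ n, m = n + 1 := ⟨m - 1, by omega⟩
  rw [Finset.sum_range_succ]
  have h1 : ∑ j ∈ Finset.range n, aa (n + 1) j = (n : ZMod 3) := by
    rw [Finset.sum_congr rfl (g := fun _ => (1 : ZMod 3))]
    · simp
    · intro j hj
      rw [Finset.mem_range] at hj
      unfold aa
      rw [if_neg]
      rintro ⟨_, h⟩
      omega
  rw [h1]
  unfold aa
  by_cases h : 3 ∣ n + 1
  · rw [if_pos ⟨h, rfl⟩]
    have h2 : ((n + 1 : ℕ) : ZMod 3) = 0 := (ZMod.natCast_eq_zero_iff _ _).2 h
    push_cast at h2
    have : (n : ZMod 3) + 2 = 1 := by linear_combination h2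
    rw [this]
    decide
  · rw [if_neg (fun hh => h hh.1)]
    intro h2
    apply h
    rw [← ZMod.natCast_eq_zero_iff]
    push_cast
    exact h2

/-! ### the curve -/

/-- behind the pole 0 -/
def be : Letter → Bool := fun y => decide (y ≠ .pole 0)
/-- behind the pole 1 -/
def ga : Letter → Bool := fun y => decide (y ≠ .pole 1)

lemma front_be : Front be := fun s => by simp [be]
lemma front_ga : Front ga := fun s => by simp [ga]

lemma poles_two (n : ℕ) : poles (n + 2) =
    .pole 0 :: .pole 1 :: (List.range n).map (fun j => .pole (j + 2)) := by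
  unfold poles
  rw [List.range_succ_eq_map, List.range_succ_eq_map]
  simp [List.map_map, Function.comp_def]

lemma val_curve (h3 : v ^ 3 = 1) (m : ℕ) (hm : 2 ≤ m) (a c : ℕ → ZMod 3) (ha : a 0 = a 1) :
    val v ⟨a, c⟩ (curve be ga (poles m)) = 3 * chi v (c 0 - c 1) := by
  obtain ⟨n, rfl⟩ : ∃ n, m = n + 2 := ⟨m - 2, by omega⟩
  have key : ∀ i : Cl, ((poles (n + 2)).map (hR v ⟨a, c⟩ be (.up .one) i)).prod *
      ((poles (n + 2)).map (hL v ⟨a, c⟩ (fun y => !ga y) (.up .one) i)).prod =
      chi v (c 0 - c 1) := by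
    intro i
    rw [poles_two]
    simp only [List.map_cons, List.prod_cons, List.map_map]
    have t1 : ((List.range n).map (hR v ⟨a, c⟩ be (.up .one) i ∘
        fun j => Letter.pole (j + 2))).prod = 1 := by
      apply List.prod_eq_one
      intro x hx
      rw [List.mem_map] at hx
      obtain ⟨j, _, rfl⟩ := hx
      simp [hR, hr, be]
    have t2 : ((List.range n).map (hL v ⟨a, c⟩ (fun y => !ga y) (.up .one) i ∘
        fun j => Letter.pole (j + 2))).prod = 1 := by
      apply List.prod_eq_one
      intro x hx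
      rw [List.mem_map] at hx
      obtain ⟨j, _, rfl⟩ := hx
      simp [hL, hl, ga]
    rw [t1, t2]
    have e0 : hR v ⟨a, c⟩ be (.up .one) i (.pole 0) = chi v (c 0 + a 0 * i.z) := by
      simp [hR, hr, be, Dat.H, Strand.w, Strand.col]
    have e1 : hR v ⟨a, c⟩ be (.up .one) i (.pole 1) = 1 := by
      simp [hR, hr, be]
    have e2 : hL v ⟨a, c⟩ (fun y => !ga y) (.up .one) i (.pole 0) = 1 := by
      simp [hL, hl, ga]
    have e3 : hL v ⟨a, c⟩ (fun y => !ga y) (.up .one) i (.pole 1) =
        chi v (-(c 1 + a 1 * i.z)) := by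
      simp [hL, hl, ga, Dat.H, Strand.w, Strand.col]
    rw [e0, e1, e2, e3, one_mul, mul_one, mul_one, one_mul, ← chi_add h3]
    congr 1
    rw [ha]
    ring
  have := ev_curve (v := v) ⟨a, c⟩ be (fun y => !ga y) .one (poles (n + 2))
    (allPoles_poles _) [] [] (fun y hy => absurd hy List.not_mem_nil) (fun _ => 1)
  rw [ctx_triv, key, key, key, mul_one] at this
  unfold val curve
  rw [this]
  ring

/-! ### centrality -/

lemma cls_eq {m : ℕ} (d : Diag m) : cls m d.1 = MonoidAlgebra.single d 1 := dif_pos d.2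

lemma cls_mul {m : ℕ} (d d' : Diag m) : cls m d.1 * cls m d'.1 = cls m (d'.1 ++ d.1) := by
  rw [cls_eq, cls_eq, MonoidAlgebra.single_mul_single, one_mul]
  exact (cls_eq (d * d')).symm

lemma skein_mul (m : ℕ) (w w' : Word) (h : IsDiag (poles m) w (poles m))
    (h' : IsDiag (poles m) w' (poles m)) :
    skein m v w * skein m v w' = skein m v (w' ++ w) := by
  unfold skein
  rw [← map_mul]
  congr 1
  exact cls_mul (⟨w, h⟩ : Diag m) (⟨w', h'⟩ : Diag m)

lemma curve_central (h3 : v ^ 3 = 1) (m : ℕ) (β γ : Letter → Bool) (hβ : Front β)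
    (hγ : Front γ) :
    skein m v (curve β γ (poles m)) ∈ Subalgebra.center ℂ (Skein m v) := by
  rw [Subalgebra.mem_center_iff]
  intro b
  obtain ⟨a, rfl⟩ := RingQuot.mkAlgHom_surjective ℂ (Rel m v) b
  induction a using MonoidAlgebra.induction_linear with
  | zero => simp
  | add f g hf hg => rw [map_add, add_mul, mul_add, hf, hg]
  | single d c =>
    have e : MonoidAlgebra.single d c = c • cls m d.1 := by
      rw [cls_eq, MonoidAlgebra.smul_single, smul_eq_mul, mul_one]
    rw [e, map_smul]
    change c • skein m v d.1 * _ = _ * c • skein m v d.1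
    rw [smul_mul_assoc, mul_smul_comm]
    congr 1
    rw [skein_mul m _ _ d.2 (isDiag_curve β γ _), skein_mul m _ _ (isDiag_curve β γ _) d.2]
    have := (curve_comm (m := m) h3 β γ hβ hγ d.1 _ _ d.2).eq [] [] [] []
      (by rw [List.nil_append, List.append_nil]; rfl) (by rw [List.nil_append, List.append_nil]; rfl)
    simpa [ctx_triv] using this

/-- the central skein is not generated by the puncture skeins and the threaded skeins -/
theorem main (m : ℕ) (hm : 2 ≤ m) (hv : IsPrimitiveRoot v 3) :
    ∃ z ∈ Subalgebra.center ℂ (Skein m v),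
      z ∉ Algebra.adjoin ℂ (punctureSkeins m v ∪ threadedSkeins m v 3) := by
  have h3 : v ^ 3 = 1 := hv.pow_eq_one
  refine ⟨skein m v (curve be ga (poles m)), curve_central h3 m be ga front_be front_ga, ?_⟩
  intro hz
  set c : ℕ → ZMod 3 := fun j => if j = 0 then 1 else 0 with hc
  set f₀ := phi h3 ⟨aa m, fun _ => 0⟩ m with hf₀
  set f₁ := phi h3 ⟨aa m, c⟩ m with hf₁
  have hsub : Algebra.adjoin ℂ (punctureSkeins m v ∪ threadedSkeins m v 3) ≤
      AlgHom.equalizer f₁ f₀ := by
    apply Algebra.adjoin_le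
    rintro z ((⟨b, k, l, r, j, hp, rfl⟩ | ⟨b, k, rfl⟩) | ⟨w, i, P, hw, hl, hi, hP, rfl⟩)
    · rw [SetLike.mem_coe, AlgHom.mem_equalizer]
      have hall := allPoles_poles m
      rw [hp] at hall
      have hl : AllPoles l := fun y hy => hall y (by simp [hy])
      have hd : IsDiag (poles m) (ctx l r (loop b k [.pole j])) (poles m) := by
        rw [hp]
        exact (isDiag_loop b k [.pole j]).ctx l r
      have ht : tot (aa m) [.pole j] ≠ 0 := by
        rw [tot_pole, tot_nil, add_zero]
        exact aa_ne m j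
      have hA : AllPoles [.pole j] := fun y hy => ⟨j, by simpa using hy⟩
      rw [hf₀, hf₁, phi_pos _ _ _ _ hd, phi_pos _ _ _ _ hd, val_loop hv _ b k _ l r hA hl ht,
        val_loop hv _ b k _ l r hA hl ht]
    · rw [SetLike.mem_coe, AlgHom.mem_equalizer]
      have hd : IsDiag (poles m) (loop b k (poles m)) (poles m) := isDiag_loop b k _
      have ht : tot (aa m) (poles m) ≠ 0 := by
        rw [tot_poles]
        exact aa_sum m (by omega)
      have e : ∀ D : Dat, D.a = aa m → val v D (loop b k (poles m)) = 0 := by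
        intro D hD
        have := val_loop hv D b k (poles m) [] [] (allPoles_poles m)
          (fun y hy => absurd hy List.not_mem_nil) (by rw [hD]; exact ht)
        rwa [ctx_triv] at this
      rw [hf₀, hf₁, phi_pos _ _ _ _ hd, phi_pos _ _ _ _ hd, e _ rfl, e _ rfl]
    · rw [SetLike.mem_coe, AlgHom.mem_equalizer]
      exact phi_thread h3 (aa m) c m _ (support_mod hi hP) w
  have h := hsub hz
  rw [AlgHom.mem_equalizer, hf₀, hf₁, phi_pos _ _ _ _ (isDiag_curve _ _ _),
    phi_pos _ _ _ _ (isDiag_curve _ _ _)] at h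
  have haa : aa m 0 = aa m 1 := by
    unfold aa
    rw [if_neg (by omega), if_neg (by omega)]
  rw [val_curve h3 m hm _ _ haa, val_curve h3 m hm _ _ haa] at h
  have e1 : c 0 - c 1 = 1 := by simp [hc]
  have e0 : (0 : ZMod 3) - 0 = 0 := by decide
  rw [e1, e0, chi_one, chi_zero] at h
  have h1 : v = 1 := by
    have h30 : (3 : ℂ) ≠ 0 := by norm_num
    exact mul_left_cancel₀ h30 h
  rw [h1] at hv
  have := hv.dvd_of_pow_eq_one 1 (by simp)
  omega

end Pool.Agent.K1H60.SK
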