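import Pool.Agent.K1H60.SK.Check2

/-! The evaluation as an algebra homomorphism. -/

set_option autoImplicit false

namespace Pool.Agent.K1H60.SK

variable {v : ℂ}

lemma cnt_poles (m : ℕ) : cnt (poles m) = 0 := by
  unfold cnt poles
  rw [List.map_map]
  apply List.sum_eq_zero
  intro x hx
  rw [List.mem_map] at hx
  obtain ⟨a, _, rfl⟩ := hx
  rfl

/-- the value of a closed diagram -/
noncomputable def val (v : ℂ) (D : Dat) (w : Word) : ℂ := ev v D w (fun _ => 1) []

lemma ev_closed (D : Dat) (m : ℕ) (w : Word) (h : IsDiag (poles m) w (poles m))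
    (f : List Cl → ℂ) : ev v D w f [] = val v D w * f [] := by
  have h1 : ev v D w f [] = ev v D w (f [] • fun _ => (1 : ℂ)) [] := by
    refine ev_congr v D w _ _ h f _ ?_ [] (by rw [cnt_poles]; rfl)
    intro t ht
    rw [cnt_poles] at ht
    obtain rfl := len0 ht
    simp
  rw [h1, map_smul]
  simp only [Pi.smul_apply, smul_eq_mul, val]
  ring

/-- the value as a homomorphism of monoids -/
noncomputable def valHom (v : ℂ) (D : Dat) (m : ℕ) : Diag m →* ℂ where
  toFun w := val v D w.1
  map_one' := rfl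
  map_mul' := by
    rintro ⟨w₁, h₁⟩ ⟨w₂, h₂⟩
    show val v D (w₂ ++ w₁) = val v D w₁ * val v D w₂
    rw [val, ev_append, ev_closed D m w₂ h₂, mul_comm]
    rfl

noncomputable def phi0 (v : ℂ) (D : Dat) (m : ℕ) : MonoidAlgebra ℂ (Diag m) →ₐ[ℂ] ℂ :=
  MonoidAlgebra.lift ℂ ℂ (Diag m) (valHom v D m)

lemma phi0_cls_pos (D : Dat) (m : ℕ) (w : Word) (h : IsDiag (poles m) w (poles m)) :
    phi0 v D m (cls m w) = val v D w := by
  unfold cls
  rw [dif_pos h]
  have := MonoidAlgebra.lift_single (valHom v D m) (⟨w, h⟩ : Diag m) (1 : ℂ)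
  exact this.trans (one_smul ℂ _)

lemma phi0_cls_neg (D : Dat) (m : ℕ) (w : Word) (h : ¬ IsDiag (poles m) w (poles m)) :
    phi0 v D m (cls m w) = 0 := by
  unfold cls
  rw [dif_neg h, map_zero]

lemma phi0_rel (hv : v ^ 3 = 1) (D : Dat) (m : ℕ) (a b : MonoidAlgebra ℂ (Diag m))
    (h : Rel m v a b) : phi0 v D m a = phi0 v D m b := by
  obtain ⟨x, y, c, c', h, u, t, l, r, hu, ht⟩ := h
  have key : ∀ c : Comb, (∀ p ∈ c, IsDiag x p.2 y) → phi0 v D m (close m u t l r c) =
      ev v D u (fun s => (c.map fun p => p.1 * ev v D (ctx l r p.2) (ev v D t (fun _ => 1)) s).sum)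
        [] := by
    intro c
    induction c with
    | nil =>
      intro _
      have : (fun s : List Cl => (([] : Comb).map fun p => p.1 *
        ev v D (ctx l r p.2) (ev v D t (fun _ => 1)) s).sum) = 0 := rfl
      rw [this, map_zero]
      simp [close]
    | cons p c ih =>
      intro hc
      have e1 : close m u t l r (p :: c) = p.1 • cls m (u ++ ctx l r p.2 ++ t) +
          close m u t l r c := by simp [close]
      have e2 : (fun s : List Cl => ((p :: c).map fun p => p.1 *
          ev v D (ctx l r p.2) (ev v D t (fun _ => 1)) s).sum) =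
          p.1 • (ev v D (ctx l r p.2) (ev v D t (fun _ => 1))) +
          (fun s : List Cl => (c.map fun p => p.1 *
          ev v D (ctx l r p.2) (ev v D t (fun _ => 1)) s).sum) := by
        funext s
        simp
      rw [e1, e2, map_add, map_add, map_smul, map_smul, ih (fun q hq => hc q (by simp [hq])),
        phi0_cls_pos _ _ _ ((hu.append ((hc p (by simp)).ctx l r)).append ht)]
      simp only [val, ev_append, Pi.add_apply, Pi.smul_apply]
  rw [key c h.valid.1, key c' h.valid.2]
  refine ev_congr v D u _ _ hu _ _ ?_ [] (by rw [cnt_poles]; rfl)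
  intro s hs
  obtain ⟨s1, s2, s3, rfl, h1, h2, h3⟩ := split_length hs
  have e : ∀ c : Comb, (∀ p ∈ c, IsDiag x p.2 y) →
      (c.map fun p => p.1 * ev v D (ctx l r p.2) (ev v D t (fun _ => 1)) (s1 ++ s2 ++ s3)).sum =
      lv v D c (fun τ => ev v D t (fun _ => 1) (s1 ++ τ ++ s3)) s2 := by
    intro c hc
    unfold lv
    congr 1
    refine List.map_congr_left fun p hp => ?_
    rw [ev_ctx v D p.2 x y (hc p hp) l r _ s1 s2 s3 h1 h2]
  rw [e c h.valid.1, e c' h.valid.2]
  exact check hv h _ s2 h2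

/-- the evaluation of the skein algebra -/
noncomputable def phi (hv : v ^ 3 = 1) (D : Dat) (m : ℕ) : Skein m v →ₐ[ℂ] ℂ :=
  RingQuot.liftAlgHom ℂ ⟨phi0 v D m, fun ⦃a b⦄ h => phi0_rel hv D m a b h⟩

lemma phi_skein (hv : v ^ 3 = 1) (D : Dat) (m : ℕ) (w : Word) :
    phi hv D m (skein m v w) = phi0 v D m (cls m w) := by
  unfold phi skein
  rw [RingQuot.liftAlgHom_mkAlgHom_apply]

lemma phi_pos (hv : v ^ 3 = 1) (D : Dat) (m : ℕ) (w : Word) (h : IsDiag (poles m) w (poles m)) :
    phi hv D m (skein m v w) = val v D w := by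
  rw [phi_skein, phi0_cls_pos _ _ _ h]

/-! ### values of the curves around poles -/

/-- a list of poles -/
def AllPoles (A : Ob) : Prop := ∀ y ∈ A, ∃ j, y = .pole j

/-- holonomy to the right -/
noncomputable def hR (v : ℂ) (D : Dat) (β : Letter → Bool) (a : Strand) (i : Cl) : Letter → ℂ
  | .pole j => hr v D (β (.pole j)) j a i
  | .str _ => 1

noncomputable def hL (v : ℂ) (D : Dat) (γ : Letter → Bool) (a : Strand) (i : Cl) : Letter → ℂ
  | .pole j => hl v D (γ (.pole j)) j a i
  | .str _ => 1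

lemma cnt_pole (j : ℕ) : cnt [.pole j] = 0 := rfl

lemma cnt_allPoles {A : Ob} (h : AllPoles A) : cnt A = 0 := by
  induction A with
  | nil => rfl
  | cons y A ih =>
    obtain ⟨j, rfl⟩ := h y (by simp)
    rw [cnt_cons, ih (fun z hz => h z (by simp [hz]))]
    rfl

lemma ev_go (D : Dat) (β : Letter → Bool) (a : Strand) (A : Ob) (h : AllPoles A)
    (f : List Cl → ℂ) (i : Cl) :
    ev v D (go β (.str a) A) f [i] = (A.map (hR v D β a i)).prod * f [i] := by
  induction A generalizing f with
  | nil => simp [go, ev_nil]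
  | cons y A ih =>
    have hA : AllPoles A := fun z hz => h z (by simp [hz])
    obtain ⟨j, rfl⟩ := h y (by simp)
    rw [go, ev_cons]
    have h1 : stepL v D ⟨[], .cross (β (.pole j)) (.str a) (.pole j), A⟩
        (ev v D (ctx [.pole j] [] (go β (.str a) A)) f) [i] =
        hr v D (β (.pole j)) j a i * ev v D (ctx [.pole j] [] (go β (.str a) A)) f [i] := by
      simp [stepL_def, cnt, Letter.cnt, ker_sp, Gen.src]
    rw [h1]
    have h2 := ev_ctx v D (go β (.str a) A) _ _ (isDiag_go β a A) [.pole j] [] f [] [i] [] rfl (by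
      rw [cnt_cons, cnt_allPoles hA]; rfl)
    simp only [List.nil_append, List.append_nil] at h2
    rw [h2, ih hA]
    simp [hR, mul_assoc]

lemma ev_back (D : Dat) (γ : Letter → Bool) (a : Strand) (A : Ob) (h : AllPoles A)
    (f : List Cl → ℂ) (i : Cl) :
    ev v D (back γ (.str a) A) f [i] = (A.map (hL v D γ a i)).prod * f [i] := by
  induction A generalizing f with
  | nil => simp [back, ev_nil]
  | cons y A ih =>
    have hA : AllPoles A := fun z hz => h z (by simp [hz])
    obtain ⟨j, rfl⟩ := h y (by simp)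
    rw [back, ev_append]
    have h2 := fun F => ev_ctx v D (back γ (.str a) A) _ _ (isDiag_back γ a A) [.pole j] [] F []
      [i] [] rfl (by rw [cnt_append, cnt_allPoles hA]; rfl)
    simp only [List.nil_append, List.append_nil] at h2
    rw [h2, ih hA]
    have h1 : ev v D [⟨[], .cross (γ (.pole j)) (.pole j) (.str a), A⟩] f [i] =
        hl v D (γ (.pole j)) j a i * f [i] := by
      simp [ev_cons, ev_nil, stepL_def, cnt, Letter.cnt, ker_ps, Gen.src]
    rw [h1]
    simp [hL, mul_comm, mul_left_comm]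

/-- value of a curve -/
lemma ev_curve (D : Dat) (β γ : Letter → Bool) (k : Wt) (A : Ob) (h : AllPoles A) (l r : Ob)
    (hl : AllPoles l) (f : List Cl → ℂ) :
    ev v D (ctx l r ([⟨[], .cup (.dn k), A⟩] ++ ctx [.str (.dn k)] [] (go β (.str (.up k)) A) ++
      ctx [.str (.dn k)] [] (back γ (.str (.up k)) A) ++ [⟨[], .cap (.dn k), A⟩])) f [] =
    (((A.map (hR v D β (.up k) .c0)).prod * (A.map (hL v D γ (.up k) .c0)).prod) +
      (((A.map (hR v D β (.up k) .c1)).prod * (A.map (hL v D γ (.up k) .c1)).prod) +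
      ((A.map (hR v D β (.up k) .c2)).prod * (A.map (hL v D γ (.up k) .c2)).prod))) * f [] := by
  have dcup : IsDiag A [⟨[], .cup (.dn k), A⟩] (.str (.dn k) :: .str (.up k) :: A) :=
    ⟨by simp [Gen.src], trivial, by simp [IsDiag, Gen.tgt, Strand.dual]⟩
  have dcap : IsDiag (.str (.dn k) :: .str (.up k) :: A) [⟨[], .cap (.dn k), A⟩] A :=
    ⟨by simp [Gen.src, Strand.dual], trivial, by simp [IsDiag, Gen.tgt]⟩
  have dgo : IsDiag (.str (.dn k) :: .str (.up k) :: A)
      (ctx [.str (.dn k)] [] (go β (.str (.up k)) A)) (.str (.dn k) :: A ++ [.str (.up k)]) := by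
    have := (isDiag_go β (.up k) A).ctx [.str (.dn k)] []
    simpa using this
  have dbk : IsDiag (.str (.dn k) :: A ++ [.str (.up k)])
      (ctx [.str (.dn k)] [] (back γ (.str (.up k)) A)) (.str (.dn k) :: .str (.up k) :: A) := by
    have := (isDiag_back γ (.up k) A).ctx [.str (.dn k)] []
    simpa using this
  have hcl : cnt l = 0 := cnt_allPoles hl
  have hcA : cnt A = 0 := cnt_allPoles h
  have e0 := ev_ctx v D _ _ _ (((dcup.append dgo).append dbk).append dcap) l r f [] [] []
    (by rw [hcl]; rfl) (by rw [hcA]; rfl)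
  simp only [List.nil_append, List.append_nil] at e0
  rw [e0, ev_append, ev_append, ev_append]
  have e1 : ∀ F : List Cl → ℂ, ev v D [⟨[], .cup (.dn k), A⟩] F [] =
      F [.c0, .c0] + (F [.c1, .c1] + F [.c2, .c2]) := by
    intro F
    rw [ev_cons, ev_nil, s_cup0]
  have e2 : ∀ (F : List Cl → ℂ) (c i : Cl), ev v D (ctx [.str (.dn k)] []
      (go β (.str (.up k)) A)) F [c, i] = (A.map (hR v D β (.up k) i)).prod * F [c, i] := by
    intro F c i
    have := ev_ctx v D _ _ _ (isDiag_go β (.up k) A) [.str (.dn k)] [] F [c] [i] [] rfl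
      (by rw [cnt_cons, hcA]; rfl)
    simp only [List.append_nil, List.singleton_append] at this
    rw [this, ev_go D β (.up k) A h]
  have e3 : ∀ (F : List Cl → ℂ) (c i : Cl), ev v D (ctx [.str (.dn k)] []
      (back γ (.str (.up k)) A)) F [c, i] = (A.map (hL v D γ (.up k) i)).prod * F [c, i] := by
    intro F c i
    have := ev_ctx v D _ _ _ (isDiag_back γ (.up k) A) [.str (.dn k)] [] F [c] [i] [] rfl
      (by rw [cnt_append, hcA]; rfl)
    simp only [List.append_nil, List.singleton_append] at this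
    rw [this, ev_back D γ (.up k) A h]
  have e4 : ∀ (F : List Cl → ℂ) (c : Cl), ev v D [⟨[], .cap (.dn k), A⟩] F [c, c] = F [] := by
    intro F c
    rw [ev_cons, ev_nil, s_cap0, if_pos rfl]
  rw [e1, e2, e2, e2, e3, e3, e3, e4, e4, e4]
  ring

end Pool.Agent.K1H60.SK
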