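import Pool.Agent.K1H60.SK.Final

/-! The isomorphism between the skein algebras for `v` and for `-v`. -/

set_option autoImplicit false

namespace Pool.Agent.K1H60.SK

/-- sign of a piece -/
def Gen.sn : Gen → ℂ
  | .merge => -1
  | _ => 1

/-- sign of a word -/
def sn (w : Word) : ℂ := (w.map fun s => s.g.sn).prod

lemma sn_append (p q : Word) : sn (p ++ q) = sn p * sn q := by simp [sn]
lemma sn_cons (s : Slice) (q : Word) : sn (s :: q) = s.g.sn * sn q := by simp [sn]
lemma sn_nil : sn [] = 1 := rfl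
lemma sn_ctx (l r : Ob) (p : Word) : sn (ctx l r p) = sn p := by
  simp [sn, ctx, List.map_map, Function.comp_def]

lemma gsn_sq (g : Gen) : g.sn * g.sn = 1 := by
  cases g <;> simp [Gen.sn]

lemma sn_sq (w : Word) : sn w * sn w = 1 := by
  induction w with
  | nil => simp [sn]
  | cons s w ih => rw [sn_cons, mul_mul_mul_comm, gsn_sq, ih, one_mul]

lemma sn_go (β : Letter → Bool) (x : Letter) (A : Ob) : sn (go β x A) = 1 := by
  induction A with
  | nil => rfl
  | cons y A ih => rw [go, sn_cons, sn_ctx, ih]; simp [Gen.sn]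

lemma sn_back (β : Letter → Bool) (x : Letter) (A : Ob) : sn (back β x A) = 1 := by
  induction A with
  | nil => rfl
  | cons y A ih => rw [back, sn_append, sn_cons, sn_ctx, ih]; simp [Gen.sn, sn_nil]

lemma sn_block (b : Bool) (A B : Ob) : sn (block b A B) = 1 := by
  induction A with
  | nil => rfl
  | cons y A ih => rw [block, sn_append, sn_ctx, sn_ctx, ih, sn_go]; simp

lemma sn_nest (as : List Strand) : sn (nest as) = 1 := by
  induction as with
  | nil => rfl
  | cons y A ih => rw [nest, sn_cons, sn_ctx, ih]; simp [Gen.sn]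

lemma sn_unnest (as : List Strand) : sn (unnest as) = 1 := by
  induction as with
  | nil => rfl
  | cons y A ih => rw [unnest, sn_append, sn_cons, sn_ctx, ih]; simp [Gen.sn, sn_nil]

lemma sn_loop (b : Bool) (k : Wt) (A : Ob) : sn (loop b k A) = 1 := by
  unfold loop
  rw [sn_append, sn_append, sn_append, sn_ctx, sn_ctx, sn_go, sn_back]
  simp [sn_cons, sn_nil, Gen.sn]

lemma sn_cable (ks : List Wt) (w : Word) : sn (cable ks w) = 1 := by
  induction w with
  | nil => rfl
  | cons s w ih =>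
    have : cable ks (s :: w) = ctx (s.l.flatMap (cab ks)) (s.r.flatMap (cab ks))
        (cabGen ks s.g) ++ cable ks w := by simp [cable]
    rw [this, sn_append, sn_ctx, ih, mul_one]
    cases s.g with
    | cup a => exact sn_nest _
    | cap a => exact sn_unnest _
    | cross b x y => exact sn_block _ _ _
    | merge => rfl
    | split => rfl
    | tag a => rfl

/-- a combination with the signs -/
noncomputable def tw (ε : ℂ) (c : Comb) : Comb := c.map fun p => (ε * sn p.2 * p.1, p.2)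

lemma tw_one (ε : ℂ) (w : Word) (h : ε * sn w = 1) : tw ε [(1, w)] = [(1, w)] := by
  simp only [tw, List.map_cons, List.map_nil, mul_one, h]

lemma loc_neg {v : ℂ} {x y : Ob} {c c' : Comb} (h : Loc v x y c c') :
    ∃ ε : ℂ, ε * ε = 1 ∧ Loc (-v) x y (tw ε c) (tw ε c') := by
  have one : ∀ (x y : Ob) (w w' : Word), sn w = sn w' → Loc (-v) x y [(1, w)] [(1, w')] →
      ∃ ε : ℂ, ε * ε = 1 ∧ Loc (-v) x y (tw ε [(1, w)]) (tw ε [(1, w')]) := by
    intro x y w w' h1 h2
    refine ⟨sn w, sn_sq w, ?_⟩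
    rw [tw_one _ _ (sn_sq w), tw_one _ _ (by rw [h1]; exact sn_sq w')]
    exact h2
  cases h with
  | exch g h m hg hh => exact one _ _ _ _ (by simp [sn, mul_comm]) (Loc.exch g h m hg hh)
  | zig a => exact one _ _ _ _ (by simp [sn, Gen.sn]) (Loc.zig a)
  | zag a => exact one _ _ _ _ (by simp [sn, Gen.sn]) (Loc.zag a)
  | rotMerge => exact one _ _ _ _ (by simp [sn, Gen.sn]) Loc.rotMerge
  | rotSplit => exact one _ _ _ _ (by simp [sn, Gen.sn]) Loc.rotSplit
  | rotTagR a => exact one _ _ _ _ (by simp [sn, Gen.sn]) (Loc.rotTagR a)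
  | rotTagL a => exact one _ _ _ _ (by simp [sn, Gen.sn]) (Loc.rotTagL a)
  | r2 b x y h => exact one _ _ _ _ (by simp [sn, Gen.sn]) (Loc.r2 b x y h)
  | slide b x g h =>
    exact one _ _ _ _ (by rw [sn_append, sn_cons, sn_cons, sn_go, sn_go]; simp [sn_nil])
      (Loc.slide b x g h)
  | r1 b a => exact one _ _ _ _ (by simp [sn, Gen.sn]) (Loc.r1 b a)
  | tags a => exact one _ _ _ _ (by simp [sn, Gen.sn]) (Loc.tags a)
  | assocEnd => exact one _ _ _ _ (by simp [sn, Gen.sn, end21, end12]) Loc.assocEnd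
  | assocBeg => exact one _ _ _ _ (by simp [sn, Gen.sn, beg21, beg12]) Loc.assocBeg
  | circle a =>
    refine ⟨1, one_mul 1, ?_⟩
    have h := Loc.circle (v := -v) a
    have e : (-v) ^ 6 = v ^ 6 := by ring
    rw [e] at h
    simpa [tw, sn, Gen.sn] using h
  | bigon =>
    refine ⟨-1, by norm_num, ?_⟩
    have h := Loc.bigon (v := -v)
    have e : (-v) ^ 3 + ((-v) ^ 3)⁻¹ = -(v ^ 3 + (v ^ 3)⁻¹) := by
      have : (-v) ^ 3 = -(v ^ 3) := by ring
      rw [this, inv_neg]; ring
    rw [e] at h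
    simpa [tw, sn, Gen.sn] using h
  | bigonR =>
    refine ⟨-1, by norm_num, ?_⟩
    have h := Loc.bigonR (v := -v)
    have e : (-v) ^ 3 + ((-v) ^ 3)⁻¹ = -(v ^ 3 + (v ^ 3)⁻¹) := by
      have : (-v) ^ 3 = -(v ^ 3) := by ring
      rw [this, inv_neg]; ring
    rw [e] at h
    simpa [tw, sn, Gen.sn] using h
  | bigonL =>
    refine ⟨-1, by norm_num, ?_⟩
    have h := Loc.bigonL (v := -v)
    have e : (-v) ^ 3 + ((-v) ^ 3)⁻¹ = -(v ^ 3 + (v ^ 3)⁻¹) := by
      have : (-v) ^ 3 = -(v ^ 3) := by ring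
      rw [this, inv_neg]; ring
    rw [e] at h
    simpa [tw, sn, Gen.sn] using h
  | squareL =>
    refine ⟨1, one_mul 1, ?_⟩
    have h := Loc.squareL (v := -v)
    simpa [tw, sn, Gen.sn, end21, beg21] using h
  | squareR =>
    refine ⟨1, one_mul 1, ?_⟩
    have h := Loc.squareR (v := -v)
    simpa [tw, sn, Gen.sn, end12, beg12] using h
  | cross11 =>
    refine ⟨1, one_mul 1, ?_⟩
    have h := Loc.cross11 (v := -v)
    simpa [tw, sn, Gen.sn, inv_neg] using h
  | cross11' =>
    refine ⟨1, one_mul 1, ?_⟩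
    have h := Loc.cross11' (v := -v)
    simpa [tw, sn, Gen.sn, inv_neg] using h
  | cross12 =>
    refine ⟨1, one_mul 1, ?_⟩
    have h := Loc.cross12 (v := -v)
    simpa [tw, sn, Gen.sn, inv_neg, end12, beg21] using h
  | cross12' =>
    refine ⟨1, one_mul 1, ?_⟩
    have h := Loc.cross12' (v := -v)
    simpa [tw, sn, Gen.sn, inv_neg, end12, beg21] using h
  | cross21 =>
    refine ⟨1, one_mul 1, ?_⟩
    have h := Loc.cross21 (v := -v)
    simpa [tw, sn, Gen.sn, inv_neg, end21, beg12] using h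
  | cross21' =>
    refine ⟨1, one_mul 1, ?_⟩
    have h := Loc.cross21' (v := -v)
    simpa [tw, sn, Gen.sn, inv_neg, end21, beg12] using h
  | cross22 =>
    refine ⟨1, one_mul 1, ?_⟩
    have h := Loc.cross22 (v := -v)
    simpa [tw, sn, Gen.sn, inv_neg, end12, beg12, ctx] using h
  | cross22' =>
    refine ⟨1, one_mul 1, ?_⟩
    have h := Loc.cross22' (v := -v)
    simpa [tw, sn, Gen.sn, inv_neg, end12, beg12, ctx] using h

/-- diagrams with signs -/
noncomputable def sgnHom (m : ℕ) : Diag m →* MonoidAlgebra ℂ (Diag m) where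
  toFun d := sn d.1 • MonoidAlgebra.single d 1
  map_one' := by
    change sn [] • MonoidAlgebra.single (1 : Diag m) (1 : ℂ) = 1
    rw [sn_nil, one_smul]; rfl
  map_mul' d d' := by
    change sn (d'.1 ++ d.1) • MonoidAlgebra.single (d * d') (1 : ℂ) = _
    rw [sn_append, smul_mul_smul_comm, MonoidAlgebra.single_mul_single, one_mul, mul_comm (sn d'.1)]

noncomputable def psi0 (m : ℕ) : MonoidAlgebra ℂ (Diag m) →ₐ[ℂ] MonoidAlgebra ℂ (Diag m) :=
  MonoidAlgebra.lift ℂ (MonoidAlgebra ℂ (Diag m)) (Diag m) (sgnHom m)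

lemma psi0_cls (m : ℕ) (w : Word) : psi0 m (cls m w) = sn w • cls m w := by
  by_cases h : IsDiag (poles m) w (poles m)
  · have e := cls_eq (⟨w, h⟩ : Diag m)
    change cls m w = MonoidAlgebra.single (⟨w, h⟩ : Diag m) (1 : ℂ) at e
    rw [e]
    exact (MonoidAlgebra.lift_single (sgnHom m) (⟨w, h⟩ : Diag m) (1 : ℂ)).trans (one_smul ℂ _)
  · have e : cls m w = 0 := by
      unfold cls
      rw [dif_neg h]
    rw [e, map_zero, smul_zero]

lemma psi0_close (m : ℕ) (u t : Word) (l r : Ob) (ε : ℂ) (hε : ε * ε = 1) (c : Comb) :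
    psi0 m (close m u t l r c) = (sn u * sn t * ε) • close m u t l r (tw ε c) := by
  unfold close tw
  induction c with
  | nil => simp
  | cons p c ih =>
    simp only [List.map_cons, List.sum_cons, map_add, smul_add, ih, map_smul, psi0_cls,
      sn_append, sn_ctx, smul_smul]
    congr 2
    linear_combination (-(sn u * sn t * sn p.2 * p.1)) * hε

lemma psi_rel (m : ℕ) (v v' : ℂ) (hvv : v' = -v) (a b : MonoidAlgebra ℂ (Diag m))
    (h : Rel m v a b) : ((RingQuot.mkAlgHom ℂ (Rel m v')).comp (psi0 m)) a =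
      ((RingQuot.mkAlgHom ℂ (Rel m v')).comp (psi0 m)) b := by
  subst hvv
  obtain ⟨x, y, c, c', h, u, t, l, r, hu, ht⟩ := h
  obtain ⟨ε, hε, h'⟩ := loc_neg h
  rw [AlgHom.comp_apply, AlgHom.comp_apply, psi0_close m u t l r ε hε,
    psi0_close m u t l r ε hε, map_smul, map_smul]
  congr 1
  exact RingQuot.mkAlgHom_rel ℂ (Rel.mk x y _ _ h' u t l r hu ht)

/-- the homomorphism from the algebra for `v` to the algebra for `-v` -/
noncomputable def psi (m : ℕ) (v v' : ℂ) (hvv : v' = -v) : Skein m v →ₐ[ℂ] Skein m v' :=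
  RingQuot.liftAlgHom ℂ ⟨(RingQuot.mkAlgHom ℂ (Rel m v')).comp (psi0 m),
    fun ⦃a b⦄ h => psi_rel m v v' hvv a b h⟩

lemma psi_skein (m : ℕ) (v v' : ℂ) (hvv : v' = -v) (w : Word) :
    psi m v v' hvv (skein m v w) = sn w • skein m v' w := by
  unfold psi skein
  rw [RingQuot.liftAlgHom_mkAlgHom_apply, AlgHom.comp_apply, psi0_cls, map_smul]

/-- induction on skeins -/
lemma skein_span (m : ℕ) (v : ℂ) (p : Skein m v → Prop) (h0 : p 0)
    (hadd : ∀ a b, p a → p b → p (a + b)) (hs : ∀ (c : ℂ) (w : Word), p (c • skein m v w))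
    (z : Skein m v) : p z := by
  obtain ⟨a, rfl⟩ := RingQuot.mkAlgHom_surjective ℂ (Rel m v) z
  induction a using MonoidAlgebra.induction_linear with
  | zero => rw [map_zero]; exact h0
  | add f g hf hg => rw [map_add]; exact hadd _ _ hf hg
  | single d c =>
    have e : MonoidAlgebra.single d c = c • cls m d.1 := by
      rw [cls_eq, MonoidAlgebra.smul_single, smul_eq_mul, mul_one]
    rw [e, map_smul]
    exact hs c d.1

lemma psi_psi (m : ℕ) (v v' : ℂ) (h : v' = -v) (h' : v = -v') (z : Skein m v) :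
    psi m v' v h' (psi m v v' h z) = z := by
  refine skein_span m v (fun z => psi m v' v h' (psi m v v' h z) = z) ?_ ?_ ?_ z
  · rw [map_zero, map_zero]
  · intro a b ha hb
    rw [map_add, map_add, ha, hb]
  · intro c w
    rw [map_smul, psi_skein, map_smul, map_smul, psi_skein, smul_smul (sn w), sn_sq, one_smul]

lemma psi_puncture (m : ℕ) (v v' : ℂ) (h : v' = -v) (z : Skein m v)
    (hz : z ∈ punctureSkeins m v) : psi m v v' h z ∈ punctureSkeins m v' := by
  rcases hz with ⟨b, k, l, r, j, hp, rfl⟩ | ⟨b, k, rfl⟩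
  · left
    refine ⟨b, k, l, r, j, hp, ?_⟩
    rw [psi_skein, sn_ctx, sn_loop, one_smul]
  · right
    refine ⟨b, k, ?_⟩
    rw [psi_skein, sn_loop, one_smul]

lemma psi_threaded (m : ℕ) (v v' : ℂ) (h : v' = -v) (n : ℕ) (z : Skein m v)
    (hz : z ∈ threadedSkeins m v n) : psi m v v' h z ∈ threadedSkeins m v' n := by
  obtain ⟨w, i, P, hw, hl, hi, hP, rfl⟩ := hz
  refine ⟨w, i, P, hw, hl, hi, hP, ?_⟩
  unfold thread
  rw [map_sum]
  refine Finset.sum_congr rfl fun μ _ => ?_
  rw [map_smul, psi_skein, sn_cable, one_smul]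

/-- the main theorem for all `q ^ (1/3)` such that `q ^ (2/3)` has order 3 -/
theorem main' (m : ℕ) (hm : 2 ≤ m) (v : ℂ) (hv : IsPrimitiveRoot (v ^ 2) 3) :
    ∃ z ∈ Subalgebra.center ℂ (Skein m v),
      z ∉ Algebra.adjoin ℂ (punctureSkeins m v ∪ threadedSkeins m v 3) := by
  have h6 : (v ^ 3 - 1) * (v ^ 3 + 1) = 0 := by linear_combination hv.pow_eq_one
  have h1 : v ^ 2 ≠ 1 := hv.ne_one (by norm_num)
  have hprim : ∀ u : ℂ, u ^ 3 = 1 → u ^ 2 ≠ 1 → IsPrimitiveRoot u 3 := by
    intro u hu hu2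
    refine IsPrimitiveRoot.mk_of_lt u (by norm_num) hu ?_
    intro l hl0 hl3 hl
    have : l = 1 ∨ l = 2 := by omega
    rcases this with rfl | rfl
    · apply hu2
      rw [pow_one] at hl
      rw [hl, one_pow]
    · exact hu2 hl
  rcases mul_eq_zero.1 h6 with h3 | h3
  · exact main m hm (hprim v (by linear_combination h3) h1)
  · obtain ⟨z, hz, hz'⟩ := main (v := -v) m hm (hprim (-v) (by linear_combination -h3)
      (by rwa [neg_sq]))
    have e1 : v = -(-v) := (neg_neg v).symm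
    refine ⟨psi m (-v) v e1 z, ?_, ?_⟩
    · rw [Subalgebra.mem_center_iff] at hz ⊢
      intro b
      have hb := psi_psi m v (-v) rfl e1 b
      rw [← hb, ← map_mul, ← map_mul, hz]
    · intro hz2
      apply hz'
      have h2 : psi m v (-v) rfl (psi m (-v) v e1 z) ∈
          (Algebra.adjoin ℂ (punctureSkeins m v ∪ threadedSkeins m v 3)).map
            (psi m v (-v) rfl) := Subalgebra.mem_map.2 ⟨_, hz2, rfl⟩
      rw [psi_psi m (-v) v e1 rfl z, AlgHom.map_adjoin] at h2
      refine Algebra.adjoin_mono ?_ h2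
      rintro y ⟨x, hx | hx, rfl⟩
      · exact Or.inl (psi_puncture m v (-v) rfl x hx)
      · exact Or.inr (psi_threaded m v (-v) rfl 3 x hx)

end Pool.Agent.K1H60.SK
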