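import Pool.Agent.K1H60.SK.Defs

/-! The power elementary polynomials `P_3^(3,1)` and `P_3^(3,2)`. -/

set_option autoImplicit false

namespace Pool.Agent.K1H60.SK

open MvPolynomial

lemma esymm1 : esymm (Fin 3) ℤ 1 = X 0 + X 1 + X 2 := by
  rw [esymm_one, Fin.sum_univ_three]

lemma esymm2 : esymm (Fin 3) ℤ 2 = X 0 * X 1 + X 0 * X 2 + X 1 * X 2 := by
  have h : Finset.powersetCard 2 (Finset.univ : Finset (Fin 3)) = {{0, 1}, {0, 2}, {1, 2}} := by
    decide
  rw [esymm, h, Finset.sum_insert (by decide), Finset.sum_insert (by decide),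
    Finset.sum_singleton, Finset.prod_pair (by decide), Finset.prod_pair (by decide),
    Finset.prod_pair (by decide)]
  ring

lemma esymm3 : esymm (Fin 3) ℤ 3 = X 0 * X 1 * X 2 := by
  have h : Finset.powersetCard 3 (Finset.univ : Finset (Fin 3)) = {{0, 1, 2}} := by
    decide
  rw [esymm, h, Finset.sum_singleton, Finset.prod_insert (by decide),
    Finset.prod_pair (by decide)]
  ring

/-- `P_3^(3,1)` -/
noncomputable def P31 : MvPolynomial (Fin 3) ℤ := X 0 ^ 3 - 3 * (X 0 * X 1) + 3 * X 2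

/-- `P_3^(3,2)` -/
noncomputable def P32 : MvPolynomial (Fin 3) ℤ :=
  X 1 ^ 3 - 3 * (X 0 * X 1 * X 2) + 3 * X 2 ^ 2

lemma isPower31 : IsPower 3 1 P31 := by
  unfold IsPower P31
  simp only [map_add, map_sub, map_mul, map_pow, aeval_X, map_ofNat]
  have e0 : (((0 : Fin 3) : ℕ) + 1) = 1 := rfl
  have e1 : (((1 : Fin 3) : ℕ) + 1) = 2 := rfl
  have e2 : (((2 : Fin 3) : ℕ) + 1) = 3 := rfl
  rw [e0, e1, e2, esymm1, esymm2, esymm3]
  simp only [map_add, expand_X]
  ring

lemma isPower32 : IsPower 3 2 P32 := by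
  unfold IsPower P32
  simp only [map_add, map_sub, map_mul, map_pow, aeval_X, map_ofNat]
  have e0 : (((0 : Fin 3) : ℕ) + 1) = 1 := rfl
  have e1 : (((1 : Fin 3) : ℕ) + 1) = 2 := rfl
  have e2 : (((2 : Fin 3) : ℕ) + 1) = 3 := rfl
  rw [e0, e1, e2, esymm1, esymm2, esymm3]
  simp only [map_add, map_mul, expand_X]
  ring

lemma power_unique {n i : ℕ} {P Q : MvPolynomial (Fin 3) ℤ} (hP : IsPower n i P)
    (hQ : IsPower n i Q) : P = Q := by
  have hinj := esymmAlgHom_fin_injective ℤ (m := 3) (n := 3) le_rfl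
  apply hinj
  apply Subtype.ext
  rw [esymmAlgHom_apply, esymmAlgHom_apply]
  exact hP.trans hQ.symm

lemma reduce31 : reduce P31 = monomial (Finsupp.single 0 3) 1 -
    monomial (Finsupp.single 0 1 + Finsupp.single 1 1) 3 + monomial 0 3 := by
  have e1 : (monomial (Finsupp.single 0 3) 1 : MvPolynomial (Fin 2) ℤ) = X 0 ^ 3 :=
    (X_pow_eq_monomial).symm
  have e2 : (monomial (Finsupp.single 0 1 + Finsupp.single 1 1) 3 : MvPolynomial (Fin 2) ℤ) =
      3 * (X 0 * X 1) := by
    have : (3 : MvPolynomial (Fin 2) ℤ) = C 3 := rfl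
    rw [this, X, X, monomial_mul, C_mul_monomial, one_mul, mul_one]
  have e3 : (monomial 0 3 : MvPolynomial (Fin 2) ℤ) = 3 := rfl
  rw [e1, e2, e3]
  simp only [reduce, P31, map_add, map_sub, map_mul, map_pow, aeval_X, map_ofNat]
  simp

lemma reduce32 : reduce P32 = monomial (Finsupp.single 1 3) 1 -
    monomial (Finsupp.single 0 1 + Finsupp.single 1 1) 3 + monomial 0 3 := by
  have e1 : (monomial (Finsupp.single 1 3) 1 : MvPolynomial (Fin 2) ℤ) = X 1 ^ 3 :=
    (X_pow_eq_monomial).symm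
  have e2 : (monomial (Finsupp.single 0 1 + Finsupp.single 1 1) 3 : MvPolynomial (Fin 2) ℤ) =
      3 * (X 0 * X 1) := by
    have : (3 : MvPolynomial (Fin 2) ℤ) = C 3 := rfl
    rw [this, X, X, monomial_mul, C_mul_monomial, one_mul, mul_one]
  have e3 : (monomial 0 3 : MvPolynomial (Fin 2) ℤ) = 3 := rfl
  rw [e1, e2, e3]
  simp only [reduce, P32, map_add, map_sub, map_mul, map_pow, aeval_X, map_ofNat]
  simp

/-- the number of weights of the parallel copies is a multiple of 3 -/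
lemma support_mod {i : ℕ} (hi : i = 1 ∨ i = 2) {P : MvPolynomial (Fin 3) ℤ}
    (hP : IsPower 3 i P) (μ : Fin 2 →₀ ℕ) (hμ : μ ∈ (reduce P).support) :
    ((μ 0 + 2 * μ 1 : ℕ) : ZMod 3) = 0 := by
  have key : ∀ (d : Fin 2 →₀ ℕ), ((d 0 + 2 * d 1 : ℕ) : ZMod 3) = 0 →
      μ ∈ (monomial d 1 - monomial (Finsupp.single 0 1 + Finsupp.single 1 1) 3 + monomial 0 3 :
        MvPolynomial (Fin 2) ℤ).support → ((μ 0 + 2 * μ 1 : ℕ) : ZMod 3) = 0 := by
    intro d hd h
    rw [mem_support_iff, coeff_add, coeff_sub, coeff_monomial, coeff_monomial,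
      coeff_monomial] at h
    by_cases h1 : d = μ
    · rw [← h1]; exact hd
    by_cases h2 : (Finsupp.single 0 1 + Finsupp.single 1 1 : Fin 2 →₀ ℕ) = μ
    · rw [← h2]
      simp only [Finsupp.add_apply, Finsupp.single_apply]
      decide
    by_cases h3 : (0 : Fin 2 →₀ ℕ) = μ
    · rw [← h3]; rfl
    rw [if_neg h1, if_neg h2, if_neg h3] at h
    exact absurd rfl h
  rcases hi with rfl | rfl
  · rw [power_unique hP isPower31, reduce31] at hμ
    refine key _ ?_ hμ
    simp only [Finsupp.single_apply]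
    decide
  · rw [power_unique hP isPower32, reduce32] at hμ
    refine key _ ?_ hμ
    simp only [Finsupp.single_apply]
    decide

end Pool.Agent.K1H60.SK
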