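import Pool.Agent.K1H60.SK.Hom
import Pool.Agent.K1H60.SK.Sym

/-! Central twists do not change the values of the threaded skeins. -/

set_option autoImplicit false

namespace Pool.Agent.K1H60.SK

variable {v : ℂ}

/-- the charge of a piece -/
def Gen.cw (c : ℕ → ZMod 3) : Gen → ZMod 3
  | .cross false (.str x) (.pole p) => c p * x.w
  | .cross true (.pole p) (.str y) => -(c p) * y.w
  | _ => 0

/-- the charge of a word -/
def wsum (c : ℕ → ZMod 3) (w : Word) : ZMod 3 := (w.map fun s => s.g.cw c).sum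

lemma wsum_append (c : ℕ → ZMod 3) (p q : Word) : wsum c (p ++ q) = wsum c p + wsum c q := by
  simp [wsum]

lemma wsum_cons (c : ℕ → ZMod 3) (s : Slice) (q : Word) :
    wsum c (s :: q) = s.g.cw c + wsum c q := by
  simp [wsum]

lemma wsum_nil (c : ℕ → ZMod 3) : wsum c [] = 0 := rfl

lemma wsum_ctx (c : ℕ → ZMod 3) (l r : Ob) (p : Word) : wsum c (ctx l r p) = wsum c p := by
  simp [wsum, ctx, List.map_map, Function.comp_def]

lemma ker_tw (hv : v ^ 3 = 1) (a c : ℕ → ZMod 3) (g : Gen) (t : List Cl) :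
    ker v ⟨a, c⟩ g t = (ker v ⟨a, fun _ => 0⟩ g t).map fun p => (chi v (g.cw c) * p.1, p.2) := by
  have triv : g.cw c = 0 → ker v ⟨a, c⟩ g t = ker v ⟨a, fun _ => 0⟩ g t →
      ker v ⟨a, c⟩ g t = (ker v ⟨a, fun _ => 0⟩ g t).map
        fun p => (chi v (g.cw c) * p.1, p.2) := by
    intro h h'
    rw [h, chi_zero, h']
    simp
  cases g with
  | cup a => exact triv rfl (by rcases t with _ | ⟨i, _ | ⟨j, _ | ⟨k, t⟩⟩⟩ <;> rfl)
  | cap a => exact triv rfl (by rcases t with _ | ⟨i, _ | ⟨j, _ | ⟨k, t⟩⟩⟩ <;> rfl)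
  | merge => exact triv rfl (by rcases t with _ | ⟨i, _ | ⟨j, _ | ⟨k, t⟩⟩⟩ <;> rfl)
  | split => exact triv rfl (by rcases t with _ | ⟨i, _ | ⟨j, _ | ⟨k, t⟩⟩⟩ <;> rfl)
  | tag a => exact triv rfl (by rcases t with _ | ⟨i, _ | ⟨j, _ | ⟨k, t⟩⟩⟩ <;> rfl)
  | cross b x y =>
    rcases x with x | x <;> rcases y with y | y <;> cases b
    · exact triv rfl (by rcases t with _ | ⟨i, _ | ⟨j, _ | ⟨k, t⟩⟩⟩ <;> rfl)
    · exact triv rfl (by rcases t with _ | ⟨i, _ | ⟨j, _ | ⟨k, t⟩⟩⟩ <;> rfl)
    · rcases t with _ | ⟨i, _ | ⟨j, t⟩⟩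
      · rfl
      · simp only [ker, Gen.cw, Dat.H, List.map_cons, List.map_nil]
        rw [← chi_add hv, zero_mul, zero_add]
      · rfl
    · exact triv rfl (by rcases t with _ | ⟨i, _ | ⟨j, _ | ⟨k, t⟩⟩⟩ <;> rfl)
    · exact triv rfl (by rcases t with _ | ⟨i, _ | ⟨j, _ | ⟨k, t⟩⟩⟩ <;> rfl)
    · rcases t with _ | ⟨i, _ | ⟨j, t⟩⟩
      · rfl
      · simp only [ker, Gen.cw, Dat.H, List.map_cons, List.map_nil]
        rw [← chi_add hv, zero_mul, zero_add]
        congr 3
        ring
      · rfl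
    · exact triv rfl (by rcases t with _ | ⟨i, _ | ⟨j, _ | ⟨k, t⟩⟩⟩ <;> rfl)
    · exact triv rfl (by rcases t with _ | ⟨i, _ | ⟨j, _ | ⟨k, t⟩⟩⟩ <;> rfl)

lemma stepL_tw (hv : v ^ 3 = 1) (a c : ℕ → ZMod 3) (s : Slice) (f : List Cl → ℂ) :
    stepL v ⟨a, c⟩ s f = chi v (s.g.cw c) • stepL v ⟨a, fun _ => 0⟩ s f := by
  funext t
  rw [Pi.smul_apply, stepL_def, stepL_def, ker_tw hv, List.map_map, smul_eq_mul,
    ← List.sum_map_mul_left]
  congr 1
  refine List.map_congr_left fun p _ => ?_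
  simp [mul_assoc]

lemma ev_tw (hv : v ^ 3 = 1) (a c : ℕ → ZMod 3) (w : Word) (f : List Cl → ℂ) :
    ev v ⟨a, c⟩ w f = chi v (wsum c w) • ev v ⟨a, fun _ => 0⟩ w f := by
  induction w with
  | nil => rw [wsum_nil, chi_zero, one_smul]; rfl
  | cons s w ih =>
    rw [ev_cons, ev_cons, ih, stepL_tw hv, wsum_cons, chi_add hv, map_smul, smul_smul]

lemma val_tw (hv : v ^ 3 = 1) (a c : ℕ → ZMod 3) (w : Word) :
    val v ⟨a, c⟩ w = chi v (wsum c w) * val v ⟨a, fun _ => 0⟩ w := by
  unfold val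
  rw [ev_tw hv]
  rfl

lemma wsum_go (c : ℕ → ZMod 3) (b : Bool) (x : Letter) (B : Ob) :
    wsum c (go (fun _ => b) x B) = (B.map fun y => (Gen.cross b x y).cw c).sum := by
  induction B with
  | nil => rfl
  | cons y B ih =>
    rw [go, wsum_cons, wsum_ctx, ih]
    simp

lemma wsum_block (c : ℕ → ZMod 3) (b : Bool) (A B : Ob) :
    wsum c (block b A B) = (A.map fun x => (B.map fun y => (Gen.cross b x y).cw c).sum).sum := by
  induction A with
  | nil => rfl
  | cons x A ih =>
    rw [block, wsum_append, wsum_ctx, wsum_ctx, ih, wsum_go, add_comm]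
    simp

lemma wsum_nest (c : ℕ → ZMod 3) (as : List Strand) : wsum c (nest as) = 0 := by
  induction as with
  | nil => rfl
  | cons a as ih => rw [nest, wsum_cons, wsum_ctx, ih]; simp [Gen.cw]

lemma wsum_unnest (c : ℕ → ZMod 3) (as : List Strand) : wsum c (unnest as) = 0 := by
  induction as with
  | nil => rfl
  | cons a as ih => rw [unnest, wsum_append, wsum_cons, wsum_ctx, ih]; simp [Gen.cw, wsum_nil]

lemma cab_sum (ks : List Wt) (hks : (ks.map fun k => (Strand.up k).w).sum = 0) (a : Strand)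
    (F : Letter → ZMod 3) (d : ZMod 3) (hF : ∀ s : Strand, F (.str s) = d * s.w) :
    ((cab ks (.str a)).map F).sum = 0 := by
  have hd : ∀ k, (Strand.dn k).w = -(Strand.up k).w := fun k => w_dual (.up k)
  cases a with
  | up k =>
    simp only [cab, List.map_map, Function.comp_def, hF]
    rw [List.sum_map_mul_left, hks, mul_zero]
  | dn k =>
    simp only [cab, List.map_reverse, List.map_map, Function.comp_def, hF, hd, mul_neg]
    rw [List.sum_reverse]
    have : (ks.map fun k => -(d * (Strand.up k).w)).sum =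
        -d * (ks.map fun k => (Strand.up k).w).sum := by
      rw [← List.sum_map_mul_left]
      congr 1
      refine List.map_congr_left fun k _ => ?_
      ring
    rw [this, hks, mul_zero]

lemma wsum_cabGen (c : ℕ → ZMod 3) (ks : List Wt)
    (hks : (ks.map fun k => (Strand.up k).w).sum = 0) (g : Gen) : wsum c (cabGen ks g) = 0 := by
  cases g with
  | cup a => exact wsum_nest c _
  | cap a => exact wsum_unnest c _
  | merge => rfl
  | split => rfl
  | tag a => rfl
  | cross b x y =>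
    rw [cabGen, wsum_block]
    rcases x with x | j <;> rcases y with y | j'
    · apply List.sum_eq_zero
      intro z hz
      rw [List.mem_map] at hz
      obtain ⟨x', hx', rfl⟩ := hz
      have : ∃ s, x' = Letter.str s := by
        cases x <;> simp only [cab, List.mem_reverse, List.mem_map] at hx' <;>
          obtain ⟨k, _, rfl⟩ := hx' <;> exact ⟨_, rfl⟩
      obtain ⟨s, rfl⟩ := this
      refine cab_sum ks hks y _ 0 ?_
      intro s'
      cases b <;> simp [Gen.cw]
    · cases b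
      · refine cab_sum ks hks x _ (c j') ?_
        intro s
        simp [Gen.cw, cab]
      · refine cab_sum ks hks x _ 0 ?_
        intro s
        simp [Gen.cw, cab]
    · have h1 : cab ks (.pole j) = [.pole j] := rfl
      rw [h1, List.map_cons, List.map_nil, List.sum_cons, List.sum_nil, add_zero]
      cases b
      · refine cab_sum ks hks y _ 0 ?_
        intro s
        simp [Gen.cw]
      · refine cab_sum ks hks y _ (-(c j)) ?_
        intro s
        simp [Gen.cw]
    · cases b <;> simp [Gen.cw, cab]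

lemma wsum_cable (c : ℕ → ZMod 3) (ks : List Wt)
    (hks : (ks.map fun k => (Strand.up k).w).sum = 0) (w : Word) : wsum c (cable ks w) = 0 := by
  induction w with
  | nil => rfl
  | cons s w ih =>
    have : cable ks (s :: w) = ctx (s.l.flatMap (cab ks)) (s.r.flatMap (cab ks))
        (cabGen ks s.g) ++ cable ks w := by simp [cable]
    rw [this, wsum_append, wsum_ctx, wsum_cabGen c ks hks, ih, add_zero]

lemma phi_cable (hv : v ^ 3 = 1) (a c : ℕ → ZMod 3) (m : ℕ) (ks : List Wt)
    (hks : (ks.map fun k => (Strand.up k).w).sum = 0) (w : Word) :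
    phi hv ⟨a, c⟩ m (skein m v (cable ks w)) =
      phi hv ⟨a, fun _ => 0⟩ m (skein m v (cable ks w)) := by
  by_cases h : IsDiag (poles m) (cable ks w) (poles m)
  · rw [phi_pos _ _ _ _ h, phi_pos _ _ _ _ h, val_tw hv, wsum_cable c ks hks, chi_zero, one_mul]
  · rw [phi_skein, phi_skein, phi0_cls_neg _ _ _ h, phi0_cls_neg _ _ _ h]

lemma phi_thread (hv : v ^ 3 = 1) (a c : ℕ → ZMod 3) (m : ℕ) (P : MvPolynomial (Fin 2) ℤ)
    (hP : ∀ μ ∈ P.support, ((μ 0 + 2 * μ 1 : ℕ) : ZMod 3) = 0) (w : Word) :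
    phi hv ⟨a, c⟩ m (thread m v P w) = phi hv ⟨a, fun _ => 0⟩ m (thread m v P w) := by
  unfold thread
  rw [map_sum, map_sum]
  refine Finset.sum_congr rfl fun μ hμ => ?_
  rw [map_smul, map_smul, phi_cable]
  rw [List.map_append, List.map_replicate, List.map_replicate, List.sum_append,
    List.sum_replicate, List.sum_replicate]
  have := hP μ hμ
  push_cast at this
  simp only [Strand.w, nsmul_eq_mul, mul_one]
  rw [mul_comm (2 : ZMod 3)] at this
  exact this

end Pool.Agent.K1H60.SK
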